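import Mathlib

/-!
The coefficients of a factor of an integral polynomial.
-/

open Polynomial

set_option autoImplicit false

namespace Pool.Agent.Y910.F

/-- the coefficients of a factor of an integral polynomial -/
lemma factor_bound (d H : ℕ) (f g : ℤ[X]) (hd : f.natDegree = d) (hf0 : f ≠ 0)
    (hf : ∀ i, |f.coeff i| ≤ H) (hg : g ∣ f) (i : ℕ) :
    |g.coeff i| ≤ ((2 ^ d * ((d + 1) * H) : ℕ) : ℤ) := by
  obtain ⟨h, hgh⟩ := hg
  have hh0 : h ≠ 0 := by rintro rfl; exact hf0 (by rw [hgh, mul_zero])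
  have hg0 : g ≠ 0 := by rintro rfl; exact hf0 (by rw [hgh, zero_mul])
  let φ : ℤ →+* ℂ := Int.castRingHom ℂ
  have hφ : Function.Injective φ := RingHom.injective_int φ
  have h1 : 1 ≤ (h.map φ).mahlerMeasure := by
    apply one_le_mahlerMeasure_of_one_le_norm_leadingCoeff
    rw [leadingCoeff_map_of_injective hφ]
    change 1 ≤ ‖((h.leadingCoeff : ℤ) : ℂ)‖
    rw [Complex.norm_intCast]
    exact_mod_cast Int.one_le_abs (leadingCoeff_ne_zero.2 hh0)
  have h2 := norm_coeff_le_choose_mul_mahlerMeasure_of_one_le_mahlerMeasure i (g.map φ) (h.map φ) h1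
  rw [← Polynomial.map_mul, ← hgh, coeff_map, natDegree_map_eq_of_injective hφ] at h2
  have h3 : (f.map φ).mahlerMeasure ≤ (d + 1) * H := by
    refine (mahlerMeasure_le_sum_norm_coeff _).trans ?_
    rw [sum_over_range _ (fun n => by simp), natDegree_map_eq_of_injective hφ, hd]
    calc ∑ l ∈ Finset.range (d + 1), ‖(f.map φ).coeff l‖
        ≤ ∑ l ∈ Finset.range (d + 1), (H : ℝ) := by
          refine Finset.sum_le_sum fun l _ => ?_
          rw [coeff_map]
          change ‖((f.coeff l : ℤ) : ℂ)‖ ≤ _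
          rw [Complex.norm_intCast]
          exact_mod_cast hf l
      _ = (d + 1) * H := by simp
  have h4 : (g.natDegree.choose i : ℝ) ≤ 2 ^ d := by
    have h5 : g.natDegree ≤ d := by
      rw [← hd]; exact natDegree_le_of_dvd ⟨h, hgh⟩ hf0
    have h6 : g.natDegree.choose i ≤ 2 ^ d :=
      (Nat.choose_le_two_pow _ _).trans (Nat.pow_le_pow_right (by norm_num) h5)
    exact_mod_cast h6
  have h7 : ‖((g.coeff i : ℤ) : ℂ)‖ ≤ 2 ^ d * ((d + 1) * H) := by
    refine h2.trans ?_
    exact mul_le_mul h4 h3 (mahlerMeasure_nonneg _) (by positivity)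
  rw [Complex.norm_intCast] at h7
  exact_mod_cast h7

end Pool.Agent.Y910.F
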