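import Pool.Agent.Y910.F.Defs

/-!
Project FC, part 2 (points which become divisible by two over a fixed number field): statements.
-/

open Polynomial IntermediateField

set_option autoImplicit false

namespace Pool.Agent.Y910.F

/-- Job FK-KAP. -/
def StKAP : Prop :=
  ∀ (K : IntermediateField ℚ ℂ) [FiniteDimensional ℚ K] [IsGalois ℚ K],
    ∃ κ : K, IsIntegral ℤ κ ∧ ∀ ε : (K ≃ₐ[ℚ] K) → ℤ, (∀ σ, ε σ = 1 ∨ ε σ = -1) →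
      ∑ σ : K ≃ₐ[ℚ] K, (ε σ : K) * σ κ ≠ 0

/-- Job FK-TR. -/
def StTR : Prop :=
  ∀ (K : IntermediateField ℚ ℂ) [FiniteDimensional ℚ K] [IsGalois ℚ K], ∃ cK : ℕ, 1 ≤ cK ∧
    ∀ (g : ℤ[X]), (g.map (Int.castRingHom ℚ)).Separable → ∀ b x : ℤ, b ≠ 0 →
    aeval (x : ℂ) g ≠ 0 → ∀ B : Polynomial K,
    g.map (Int.castRingHom K) ∣ B ^ 2 - C (b : K) * (C (x : K) - X) →
    ∃ D B0 : ℚ[X], g.map (Int.castRingHom ℚ) ∣ B0 ^ 2 - D * (C (x : ℚ) - X) ∧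
      (∀ θ : ℂ, aeval θ g = 0 →
        IsIntegral ℤ (aeval θ D) ∧ aeval θ D ≠ 0 ∧ ‖aeval θ D‖ ≤ cK * |(b : ℝ)|) ∧
      ∃ v : ℂ → ℂ, (∀ θ : ℂ, aeval θ g = 0 → v θ ^ 2 = aeval θ D) ∧
        ∀ P : ℚ[X], (∑ r ∈ ((g.map (Int.castRingHom ℚ)).map (algebraMap ℚ ℂ)).roots.toFinset,
          aeval r P * v r) ^ 2 ∈ K

/-- Job FK-FIN. -/
def StFIN : Prop :=
  ∀ (K : IntermediateField ℚ ℂ), FiniteDimensional ℚ K →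
    Set.Finite {k : IntermediateField ℚ ℝ | ∀ z ∈ k, (z : ℂ) ∈ K}

/-- Job FK-PL2. -/
def StPL2 : Prop :=
  ∀ (K Ω : Type) [Field K] [Algebra ℂ[X] K] [IsFractionRing ℂ[X] K] [Field Ω] [Algebra K Ω]
    [IsAlgClosure K Ω] (d : ℕ) (θ u : Fin d → ℂ) (t : Fin d → Ω), (∀ i, u i ≠ 0) →
    (∀ i, t i ^ 2 = algebraMap K Ω (algebraMap ℂ[X] K (C (u i) * (X - C (θ i))))) →
    HasFlips (K := K) t →
    ∀ (L : Type) [Field L] [Algebra ℚ L] (ψ : L →+* Ω) (α β : L),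
    ψ α = algebraMap K Ω (algebraMap ℂ[X] K X) → ψ β = ∑ i, t i →
    ∀ A : ValuationSubring L, (∀ A' : ValuationSubring L,
      ((∀ q : ℚ, algebraMap ℚ L q ∈ A') ∧ ¬ (α ∈ A' ∧ β ∈ A')) ↔ A' = A) →
    ∀ g : ℚ[X], g.Monic → Irreducible g → Nonempty (IsLocalRing.ResidueField A ≃+* AdjoinRoot g) →
    ∀ η : ℝ, aeval η g = 0 →
    ∃ ρ ∈ ℚ⟮η⟯, ∃ c : Fin d → ℂ, (∀ i, c i ^ 2 = u i) ∧
      ∀ ε : Fin d → ℤ, (∀ i, ε i = 1 ∨ ε i = -1) →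
        aeval ((∑ i, (ε i : ℂ) * c i) ^ 2) (minpoly ℚ ρ) = 0

end Pool.Agent.Y910.F
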