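import Pool.Agent.Y910.F.Stm4
import Pool.Agent.Y910.R.R1

/-!
The abstract gap principle with products of traces.
-/

open Polynomial

set_option autoImplicit false

namespace Pool.Agent.Y910.F

open Pool.Agent.Y910.R

theorem core3 : StCORE2 := by
  classical
  intro Ω _ _ V k R hk hkR hR ι _ x x' s s' θ β hcard hx hs hs' hxx' hx3 hθi hθ hp hβ hr hS
  have hx0 : x ≠ 0 := fun h => hx (h ▸ V.zero_mem)
  have hs0 : s ≠ 0 := by
    rintro rfl
    rw [zero_pow two_ne_zero] at hs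
    exact hx0 hs.symm
  have hxm : V.valuation x⁻¹ < 1 := by
    rw [map_inv₀]
    have h1 : 1 < V.valuation x := by
      rw [← not_le]
      exact fun h => hx ((V.valuation_le_one_iff _).1 h)
    exact inv_lt_one_of_one_lt₀ h1
  have hx'0 : x' ≠ 0 := by
    rintro rfl
    -- then all β i = 0 contradicts the sign condition
    have hc : 0 < Fintype.card ι := by omega
    obtain ⟨i⟩ := Fintype.card_pos_iff.1 hc
    have hs'0 : s' = 0 := by
      rw [sq] at hs'
      exact mul_self_eq_zero.1 hs'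
    have h1 := hr i
    rw [hs'0, mul_zero, div_zero, zero_sub, Valuation.map_neg, map_one] at h1
    exact lt_irrefl _ h1
  have hs'0 : s' ≠ 0 := by
    rintro rfl
    rw [zero_pow two_ne_zero] at hs'
    exact hx'0 hs'.symm
  have h2k : (2 : Ω) ∈ k := by
    have : ((2 : ℕ) : Ω) ∈ k := natCast_mem k 2
    exact this
  have h2V : (2 : Ω)⁻¹ ∈ V := hk _ (inv_mem h2k)
  obtain ⟨r, hre⟩ : ∃ r : ι → Ω, ∀ i, r i = β i / (s * s') - 1 := ⟨_, fun _ => rfl⟩
  have hrm : ∀ i, V.valuation (r i) < 1 := fun i => by rw [hre]; exact hr i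
  have hβr : ∀ i, β i = (s * s') * (1 + r i) := by
    intro i
    rw [hre]
    field_simp
    ring
  obtain ⟨w, hw⟩ : ∃ w, w = x / x' := ⟨_, rfl⟩
  rw [← hw] at hxx'
  have hz' : x'⁻¹ = x⁻¹ * w := by rw [hw]; field_simp
  have hθV : ∀ i, θ i ∈ V := fun i => alg_mem V k hk (hθ i)
  -- the equation of r
  have hreq : ∀ i, 2 * r i = -(θ i * (x⁻¹ * (1 + w))) + θ i ^ 2 * (x⁻¹ ^ 2 * w) - r i ^ 2 := by
    intro i
    have h1 := hβ i
    rw [hβr i] at h1
    have h2 : (s * s') ^ 2 = x * x' := by rw [mul_pow, hs, hs']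
    have h3 : (1 + r i) ^ 2 = (1 - θ i * x⁻¹) * (1 - θ i * x'⁻¹) := by
      have h4 : x * x' * (1 + r i) ^ 2 = x * x' * ((1 - θ i * x⁻¹) * (1 - θ i * x'⁻¹)) := by
        rw [← h2, ← mul_pow, h1, h2]
        field_simp
      exact mul_left_cancel₀ (mul_ne_zero hx0 hx'0) h4
    rw [hz'] at h3
    linear_combination h3
  -- r i is x⁻¹ times an element of V
  have hrV : ∀ i, ∃ a ∈ V, r i = x⁻¹ * a := by
    intro i
    have hu : (2 + r i)⁻¹ ∈ V := by
      have h5 : V.valuation (2 : Ω) = 1 := by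
        have hb1 := (V.valuation_le_one_iff _).2 (hk _ h2k)
        refine le_antisymm hb1 ?_
        by_contra hc
        rw [not_le] at hc
        have : (2 : Ω) ∈ algebraicClosure k Ω :=
          (algebraicClosure k Ω).algebraMap_mem ⟨_, h2k⟩
        exact two_ne_zero (alg_zero V k hk this hc)
      have h6 : V.valuation (2 + r i : Ω) = 1 := by
        rw [← h5]
        apply Valuation.map_add_eq_of_lt_left
        rw [h5]
        exact hrm i
      apply (V.valuation_le_one_iff _).1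
      rw [map_inv₀, h6, inv_one]
    have hu0 : (2 + r i : Ω) ≠ 0 := by
      intro h
      have h7 : r i = -2 := by linear_combination h
      have h8 := hrm i
      rw [h7, Valuation.map_neg] at h8
      have : (2 : Ω) ∈ algebraicClosure k Ω :=
        (algebraicClosure k Ω).algebraMap_mem ⟨_, h2k⟩
      exact two_ne_zero (alg_zero V k hk this h8)
    refine ⟨(-(θ i * (1 + w)) + θ i ^ 2 * (x⁻¹ * w)) * (2 + r i)⁻¹, ?_, ?_⟩
    · refine V.mul_mem _ _ (V.add_mem _ _ (V.neg_mem _ (V.mul_mem _ _ (hθV i)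
        (V.add_mem _ _ V.one_mem hxx'))) (V.mul_mem _ _ (pow_mem (hθV i) 2)
        (V.mul_mem _ _ (m_mem V hxm) hxx'))) hu
    · have h9 : r i * (2 + r i) = -(θ i * (x⁻¹ * (1 + w))) + θ i ^ 2 * (x⁻¹ ^ 2 * w) := by
        linear_combination hreq i
      have h10 : x⁻¹ * ((-(θ i * (1 + w)) + θ i ^ 2 * (x⁻¹ * w)) * (2 + r i)⁻¹)
          = (-(θ i * (x⁻¹ * (1 + w))) + θ i ^ 2 * (x⁻¹ ^ 2 * w)) * (2 + r i)⁻¹ := by ring
      rw [h10, ← h9, mul_assoc, mul_inv_cancel₀ hu0, mul_one]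
  choose a ha hra using hrV
  -- second order remainder
  obtain ⟨q, hq⟩ : ∃ q, q = x⁻¹ * (1 + w) := ⟨_, rfl⟩
  have hρ : ∀ i, ∃ b ∈ V, r i = -(θ i * q / 2) + x⁻¹ ^ 2 * b := by
    intro i
    refine ⟨(θ i ^ 2 * w - a i ^ 2) * 2⁻¹, V.mul_mem _ _ (V.sub_mem (V.mul_mem _ _
      (pow_mem (hθV i) 2) hxx') (pow_mem (ha i) 2)) h2V, ?_⟩
    have h1 := hreq i
    have h2 : r i ^ 2 = x⁻¹ ^ 2 * a i ^ 2 := by rw [hra i]; ring
    rw [h2] at h1
    rw [hq]
    have h3 : r i = (2 * r i) * 2⁻¹ := by ring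
    rw [h3, h1]
    ring
  choose b hb hrb using hρ
  obtain ⟨p, hpe⟩ : ∃ p : ℕ → Ω, ∀ j, p j = ∑ i, θ i ^ j := ⟨_, fun _ => rfl⟩
  have hpk : ∀ j, p j ∈ k := fun j => by rw [hpe]; exact hp j
  obtain ⟨S, hSd⟩ : ∃ S : ℕ → Ω, ∀ j, S j = ∑ i, θ i ^ j * β i := ⟨_, fun _ => rfl⟩
  have hSR : ∀ j l, S j * S l ∈ R := fun j l => by rw [hSd, hSd]; exact hS j l
  obtain ⟨m, hm⟩ : ∃ m : ℕ → Ω, ∀ j, m j = ∑ i, θ i ^ j * b i := ⟨_, fun _ => rfl⟩
  have hmV : ∀ j, m j ∈ V := by
    intro j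
    rw [hm]
    exact sum_mem fun i _ => V.mul_mem _ _ (pow_mem (hθV i) j) (hb i)
  have hSe : ∀ j, S j = (s * s') * (p j - p (j + 1) * q / 2 + x⁻¹ ^ 2 * m j) := by
    intro j
    rw [hSd, hpe, hpe, hm, Finset.mul_sum, Finset.sum_mul, Finset.sum_div,
      ← Finset.sum_sub_distrib, ← Finset.sum_add_distrib, Finset.mul_sum]
    refine Finset.sum_congr rfl fun i _ => ?_
    rw [hβr i, hrb i]
    ring
  obtain ⟨dd, hdd⟩ : ∃ dd : Ω, dd = p 0 := ⟨_, rfl⟩
  have hd0 : dd = (Fintype.card ι : Ω) := by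
    rw [hdd, hpe]
    simp
  have hdne : dd ≠ 0 := by
    rw [hd0]
    have : Fintype.card ι ≠ 0 := by omega
    exact_mod_cast this
  have hddk : dd ∈ k := by rw [hdd]; exact hpk 0
  -- the quadratic expressions
  obtain ⟨Q, hQ⟩ : ∃ Q : ℕ → Ω, ∀ j, Q j = p j * p 1 - dd * p (j + 1) := ⟨_, fun _ => rfl⟩
  have hQk : ∀ j, Q j ∈ k := fun j => by
    rw [hQ]; exact sub_mem (mul_mem (hpk _) (hpk _)) (mul_mem hddk (hpk _))
  obtain ⟨W, hW⟩ : ∃ W : ℕ → Ω, ∀ j, W j = p j * S 0 - dd * S j := ⟨_, fun _ => rfl⟩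
  have hWR : ∀ j l, W j * W l ∈ R := fun j l => by
    have h1 : W j * W l = (p j * p l) * (S 0 * S 0) - (p j * dd) * (S 0 * S l) -
        (dd * p l) * (S j * S 0) + (dd * dd) * (S j * S l) := by
      rw [hW, hW]
      ring
    rw [h1]
    exact add_mem (sub_mem (sub_mem (mul_mem (hkR _ (mul_mem (hpk _) (hpk _))) (hSR _ _))
      (mul_mem (hkR _ (mul_mem (hpk _) hddk)) (hSR _ _)))
      (mul_mem (hkR _ (mul_mem hddk (hpk _))) (hSR _ _)))
      (mul_mem (hkR _ (mul_mem hddk hddk)) (hSR _ _))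
  have hWe : ∀ j, W j = (s * s') * (-(Q j * q / 2) + x⁻¹ ^ 2 * (p j * m 0 - dd * m j)) := by
    intro j
    rw [hW, hQ, hSe 0, hSe j, hdd, zero_add]
    ring
  have hpoly0 : ∀ (l A : Ω) (c : ι → Ω), (∀ j : ℕ, ∑ i, c i * θ i ^ j = A * l ^ j) →
      ∀ P : Polynomial Ω, ∑ i, c i * P.eval (θ i) = A * P.eval l := by
    intro l A c hc P
    simp only [eval_eq_sum_range, Finset.mul_sum]
    rw [Finset.sum_comm]
    refine Finset.sum_congr rfl fun j _ => ?_
    have h2 : ∑ i, c i * (P.coeff j * θ i ^ j) = P.coeff j * ∑ i, c i * θ i ^ j := by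
      rw [Finset.mul_sum]
      refine Finset.sum_congr rfl fun i _ => by ring
    rw [h2, hc]
    ring
  have hnt : Nontrivial ι := Fintype.one_lt_card_iff_nontrivial.1 (by omega)
  -- some Q j is not zero
  have hQne : ∃ j0, Q j0 ≠ 0 := by
    by_contra hcon
    push Not at hcon
    have hgeo : ∀ j, p j = dd * (p 1 / dd) ^ j := by
      intro j
      induction j with
      | zero => rw [pow_zero, mul_one, hdd]
      | succ j ih =>
        have h1 := hcon j
        rw [hQ] at h1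
        have h2 : p (j + 1) = p j * (p 1 / dd) := by
          field_simp
          linear_combination -h1
        rw [h2, ih, pow_succ]
        ring
    have hP := hpoly0 (p 1 / dd) dd (fun _ => 1) (fun j => by
      rw [← hgeo j, hpe]
      simp)
    have hall : ∀ i0 : ι, θ i0 = p 1 / dd := by
      intro i0
      have h1 := hP ((X - C (p 1 / dd)) * ∏ i ∈ Finset.univ.erase i0, (X - C (θ i)))
      rw [Finset.sum_eq_single i0] at h1
      · simp only [eval_mul, eval_sub, eval_X, eval_C, sub_self, zero_mul, mul_zero, one_mul,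
          eval_prod] at h1
        rcases mul_eq_zero.1 h1 with h | h
        · exact sub_eq_zero.1 h
        · exfalso
          rw [Finset.prod_eq_zero_iff] at h
          obtain ⟨i, hi, h3⟩ := h
          exact (Finset.mem_erase.1 hi).1 (hθi (sub_eq_zero.1 h3)).symm
      · intro i _ hi
        have : eval (θ i) (∏ i ∈ Finset.univ.erase i0, (X - C (θ i))) = 0 := by
          rw [eval_prod]
          exact Finset.prod_eq_zero (Finset.mem_erase.2 ⟨hi, Finset.mem_univ i⟩) (by simp)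
        rw [eval_mul, this, mul_zero, mul_zero]
      · intro h
        exact absurd (Finset.mem_univ i0) h
    obtain ⟨i, j, hij⟩ := exists_pair_ne ι
    exact hij (hθi ((hall i).trans (hall j).symm))
  obtain ⟨j0, hj0⟩ := hQne
  -- s s' / x ^ 2 is in the maximal ideal
  have hssm : V.valuation (s * s' * x⁻¹ ^ 2) < 1 := by
    have h1 : V.valuation ((s * s' * x⁻¹ ^ 2) * (s * s' * x⁻¹ ^ 2)) < 1 := by
      have : (s * s' * x⁻¹ ^ 2) * (s * s' * x⁻¹ ^ 2) = x' / x ^ 3 := by
        have h2 : (s * s') ^ 2 = x * x' := by rw [mul_pow, hs, hs']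
        calc (s * s' * x⁻¹ ^ 2) * (s * s' * x⁻¹ ^ 2) = (s * s') ^ 2 * x⁻¹ ^ 4 := by ring
          _ = x' / x ^ 3 := by rw [h2]; field_simp
      rw [this]
      exact hx3
    by_contra hc
    rw [not_lt] at hc
    rw [map_mul] at h1
    exact absurd h1 (not_lt.2 (one_le_mul_of_one_le_of_one_le hc hc))
  have hin : ∀ z : Ω, z ∈ R → V.valuation z < 1 → z = 0 := by
    intro z hz hz1
    exact alg_zero V k hk ((algebraicClosure k Ω).algebraMap_mem ⟨z, hR z hz (m_mem V hz1)⟩) hz1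
  have hZ : ∀ j, Q j * W j0 = Q j0 * W j := by
    intro j
    have h1 : Q j * W j0 - Q j0 * W j = (s * s' * x⁻¹ ^ 2) *
        (Q j * (p j0 * m 0 - dd * m j0) - Q j0 * (p j * m 0 - dd * m j)) := by
      rw [hWe j0, hWe j]
      ring
    have h2 : V.valuation (Q j * W j0 - Q j0 * W j) < 1 := by
      rw [h1]
      apply m_mul V hssm
      have hm' : ∀ l, p l * m 0 - dd * m l ∈ V := fun l => V.sub_mem
        (V.mul_mem _ _ (hk _ (hpk _)) (hmV _)) (V.mul_mem _ _ (hk _ hddk) (hmV _))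
      exact V.sub_mem (V.mul_mem _ _ (hk _ (hQk _)) (hm' _))
        (V.mul_mem _ _ (hk _ (hQk _)) (hm' _))
    have h3 : (Q j * W j0 - Q j0 * W j) ^ 2 ∈ R := by
      have h4 : (Q j * W j0 - Q j0 * W j) ^ 2 = (Q j * Q j) * (W j0 * W j0) -
          (2 * (Q j * Q j0)) * (W j0 * W j) + (Q j0 * Q j0) * (W j * W j) := by ring
      rw [h4]
      exact add_mem (sub_mem (mul_mem (hkR _ (mul_mem (hQk _) (hQk _))) (hWR _ _))
        (mul_mem (hkR _ (mul_mem h2k (mul_mem (hQk _) (hQk _)))) (hWR _ _)))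
        (mul_mem (hkR _ (mul_mem (hQk _) (hQk _))) (hWR _ _))
    have h5 : V.valuation ((Q j * W j0 - Q j0 * W j) ^ 2) < 1 := by
      rw [sq]
      exact m_mul V h2 (m_mem V h2)
    exact sub_eq_zero.1 ((pow_eq_zero_iff two_ne_zero).1 (hin _ h3 h5))
  obtain ⟨c, hc⟩ : ∃ c, c = W j0 / Q j0 := ⟨_, rfl⟩
  obtain ⟨A, hA⟩ : ∃ A, A = (S 0 - c * p 1) / dd := ⟨_, rfl⟩
  have hSlin : ∀ j, S j = A * p j + c * p (j + 1) := by
    intro j
    have h1 : W j = c * Q j := by
      rw [hc]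
      field_simp
      linear_combination -hZ j
    rw [hW, hQ] at h1
    rw [hA]
    field_simp
    linear_combination -h1
  have hβlin : ∀ i0, β i0 = A + c * θ i0 := by
    intro i0
    have hP := hpoly0 0 0 (fun i => β i - (A + c * θ i)) (fun j => by
      rw [zero_mul]
      have h1 := hSlin j
      rw [hSd, hpe, hpe] at h1
      have h2 : ∑ i, (β i - (A + c * θ i)) * θ i ^ j = ∑ i, θ i ^ j * β i -
          (A * ∑ i, θ i ^ j + c * ∑ i, θ i ^ (j + 1)) := by
        rw [Finset.mul_sum, Finset.mul_sum, ← Finset.sum_add_distrib, ← Finset.sum_sub_distrib]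
        refine Finset.sum_congr rfl fun i _ => by ring
      rw [h2, h1, sub_self])
    have h1 := hP (∏ i ∈ Finset.univ.erase i0, (X - C (θ i)))
    rw [Finset.sum_eq_single i0, zero_mul] at h1
    · rcases mul_eq_zero.1 h1 with h | h
      · exact sub_eq_zero.1 h
      · exfalso
        rw [eval_prod, Finset.prod_eq_zero_iff] at h
        obtain ⟨i, hi, h3⟩ := h
        simp only [eval_sub, eval_X, eval_C] at h3
        exact (Finset.mem_erase.1 hi).1 (hθi (sub_eq_zero.1 h3)).symm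
    · intro i _ hi
      have : eval (θ i) (∏ i ∈ Finset.univ.erase i0, (X - C (θ i))) = 0 := by
        rw [eval_prod]
        exact Finset.prod_eq_zero (Finset.mem_erase.2 ⟨hi, Finset.mem_univ i⟩) (by simp)
      rw [this, mul_zero]
    · intro h
      exact absurd (Finset.mem_univ i0) h
  -- a polynomial of degree two with three roots
  obtain ⟨P, hPd⟩ : ∃ P : Polynomial Ω, P = C (c ^ 2 - 1) * X ^ 2 + C (2 * A * c + (x + x')) * X +
      C (A ^ 2 - x * x') := ⟨_, rfl⟩
  have hP0 : P = 0 := by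
    by_contra hne
    have h1 : Finset.univ.image θ ⊆ P.roots.toFinset := by
      intro z hz
      obtain ⟨i, _, rfl⟩ := Finset.mem_image.1 hz
      rw [Multiset.mem_toFinset, mem_roots hne, IsRoot.def, hPd]
      have h2 := hβ i
      rw [hβlin i] at h2
      simp only [eval_add, eval_mul, eval_C, eval_pow, eval_X]
      linear_combination h2
    have h3 := Finset.card_le_card h1
    rw [Finset.card_image_of_injective _ hθi, Finset.card_univ] at h3
    have h4 : P.natDegree ≤ 2 := by rw [hPd]; exact natDegree_quadratic_le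
    have h5 := (Multiset.toFinset_card_le P.roots).trans (card_roots' P)
    omega
  have hco : ∀ a2 a1 a0 : Ω, C a2 * X ^ 2 + C a1 * X + C a0 = 0 → a2 = 0 ∧ a1 = 0 ∧ a0 = 0 := by
    intro a2 a1 a0 h
    refine ⟨?_, ?_, ?_⟩
    · have := congrArg (fun P => coeff P 2) h
      simpa [coeff_X, coeff_C] using this
    · have := congrArg (fun P => coeff P 1) h
      simpa [coeff_X, coeff_C] using this
    · have := congrArg (fun P => coeff P 0) h
      simpa [coeff_X, coeff_C] using this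
  obtain ⟨e2, e1, e0⟩ := hco _ _ _ (hPd.symm.trans hP0)
  have hfin : (x - x') ^ 2 = 0 := by
    linear_combination (x + x' - 2 * A * c) * e1 + 4 * A ^ 2 * e2 + 4 * e0
  exact sub_eq_zero.1 (pow_eq_zero_iff (two_ne_zero) |>.1 hfin)

end Pool.Agent.Y910.F
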