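import Mathlib

/-!
Project FC (MP_d88658_nt, few integral points per class of the 2-descent): definitions and
statements of the jobs.
-/

open Polynomial

set_option autoImplicit false

namespace Pool.Agent.Y910.F

section sg

variable {B : Type*} [CommRing B]

/-- `(pa u k, pb u k)` are the polynomials with `(X + t) ^ k = pa u k + t * pb u k`, `t ^ 2 = u` -/
noncomputable def pab (u : B) : ℕ → B[X] × B[X]
  | 0 => (1, 0)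
  | k + 1 => (X * (pab u k).1 + C u * (pab u k).2, (pab u k).1 + X * (pab u k).2)

/-- the norm of `Q (X + t)`, `t ^ 2 = u`, for a polynomial `Q` of degree at most `n` -/
noncomputable def nm (n : ℕ) (u : B) (Q : B[X]) : B[X] :=
  (∑ k ∈ Finset.range (n + 1), C (Q.coeff k) * (pab u k).1) ^ 2 -
    C u * (∑ k ∈ Finset.range (n + 1), C (Q.coeff k) * (pab u k).2) ^ 2

/-- the product of the `X - (± t 1 ± t 2 … ± t d)`, `(t i) ^ 2 = u i` -/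
noncomputable def sg : List B → B[X]
  | [] => X
  | u :: l => nm (2 ^ l.length) u (sg l)

end sg

/-- Job FC-SG. -/
def StSG : Prop :=
  (∀ (B B' : Type) [CommRing B] [CommRing B'] (φ : B →+* B') (l : List B),
    (sg l).map φ = sg (l.map φ)) ∧
  (∀ (B : Type) [CommRing B] [Nontrivial B] (l : List B),
    (sg l).Monic ∧ (sg l).natDegree = 2 ^ l.length) ∧
  (∀ (B : Type) [CommRing B] (l : List B),
    (sg (l.map fun t => t ^ 2)).eval l.sum = 0) ∧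
  (∀ (B : Type) [CommRing B] [IsDomain B] (l l' : List B), l.Perm l' → sg l = sg l')

/-- Job FC-INT. -/
def StINT : Prop :=
  ∀ (d : ℕ) (g : ℤ[X]), g.natDegree = d → (g.map (Int.castRingHom ℚ)).Separable →
    ∀ (θ : Fin d → ℂ), Function.Injective θ → (∀ i, aeval (θ i) g = 0) →
    ∀ Q : ℚ[X], (∀ i, IsIntegral ℤ (aeval (θ i) Q)) → (∀ i, IsIntegral ℤ (aeval (θ i) Q * θ i)) →
    ∃ F : ℤ[X][X], F.Monic ∧ F.natDegree = 2 ^ d ∧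
      F.map (mapRingHom (Int.castRingHom ℂ)) =
        sg (List.ofFn fun i => C (aeval (θ i) Q) * (X - C (θ i)))

/-- the flips exist -/
def HasFlips {K Ω : Type} [Field K] [Field Ω] [Algebra K Ω] {d : ℕ} (t : Fin d → Ω) : Prop :=
  ∀ i, ∃ σ : Ω ≃ₐ[K] Ω, σ (t i) = -t i ∧ ∀ j, j ≠ i → σ (t j) = t j

/-- Job FC-FLIP (Kummer theory of the square roots of the `u i * (X - θ i)`). -/
def StFLIP : Prop :=
  ∀ (K Ω : Type) [Field K] [Algebra ℂ[X] K] [IsFractionRing ℂ[X] K] [Field Ω] [Algebra K Ω]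
    [IsAlgClosure K Ω] (d : ℕ) (θ u : Fin d → ℂ) (t : Fin d → Ω), Function.Injective θ →
    (∀ i, u i ≠ 0) →
    (∀ i, t i ^ 2 = algebraMap K Ω (algebraMap ℂ[X] K (C (u i) * (X - C (θ i))))) →
    HasFlips (K := K) t

/-- Job FC-IRR. -/
def StIRR : Prop :=
  ∀ (K Ω : Type) [Field K] [Algebra ℂ[X] K] [IsFractionRing ℂ[X] K] [Field Ω] [Algebra K Ω]
    [IsAlgClosure K Ω] (d : ℕ) (t : Fin d → Ω), (∀ i, t i ≠ 0) → HasFlips (K := K) t →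
    ∀ F : ℤ[X][X], F.Monic → F.natDegree = 2 ^ d →
    F.eval₂ (((algebraMap K Ω).comp (algebraMap ℂ[X] K)).comp (mapRingHom (Int.castRingHom ℂ)))
      (∑ i, t i) = 0 → Prime F

/-- Job FC-PLACE. -/
def StPLACE : Prop :=
  ∀ (K Ω : Type) [Field K] [Algebra ℂ[X] K] [IsFractionRing ℂ[X] K] [Field Ω] [Algebra K Ω]
    [IsAlgClosure K Ω] (d : ℕ) (θ u : Fin d → ℂ) (t : Fin d → Ω), (∀ i, u i ≠ 0) →
    (∀ i, t i ^ 2 = algebraMap K Ω (algebraMap ℂ[X] K (C (u i) * (X - C (θ i))))) →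
    HasFlips (K := K) t → ∀ i0 i1 : Fin d,
    (∀ c : Fin d → ℂ, (∀ i, c i ^ 2 = u i) →
      (∑ i, c i) ^ 2 ≠ (∑ i, c i - 2 * c i0) ^ 2 ∧ (∑ i, c i) ^ 2 ≠ (∑ i, c i - 2 * c i1) ^ 2 ∧
      (∑ i, c i - 2 * c i0) ^ 2 ≠ (∑ i, c i - 2 * c i1) ^ 2) →
    ∀ (L : Type) [Field L] [Algebra ℚ L] (ψ : L →+* Ω) (α β : L),
    ψ α = algebraMap K Ω (algebraMap ℂ[X] K X) → ψ β = ∑ i, t i →
    ∀ A : ValuationSubring L, (∀ A' : ValuationSubring L,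
      ((∀ q : ℚ, algebraMap ℚ L q ∈ A') ∧ ¬ (α ∈ A' ∧ β ∈ A')) ↔ A' = A) →
    ∀ g : ℚ[X], g.Monic → Irreducible g → Nonempty (IsLocalRing.ResidueField A ≃+* AdjoinRoot g) →
    g.natDegree ≤ 2 → False

/-- the auxiliary weights -/
noncomputable def wt (d m : ℕ) (z : ℂ) : ℂ := ∑ l ∈ Finset.range d, (m : ℂ) ^ l * z ^ l

/-- Job FC-GEN. -/
def StGEN : Prop :=
  ∀ (d : ℕ) (i0 i1 i2 : Fin d), i0 ≠ i1 → i0 ≠ i2 → i1 ≠ i2 → ∃ M0 : ℕ, ∀ (θ v : Fin d → ℂ),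
    Function.Injective θ → (∀ i, v i ≠ 0) → ∃ m ≤ M0, (∀ i, wt d m (θ i) ≠ 0) ∧
      ∀ c : Fin d → ℂ, (∀ i, c i ^ 2 = (wt d m (θ i) * v i) ^ 2) →
      (∑ i, c i) ^ 2 ≠ (∑ i, c i - 2 * c i0) ^ 2 ∧ (∑ i, c i) ^ 2 ≠ (∑ i, c i - 2 * c i1) ^ 2 ∧
      (∑ i, c i - 2 * c i0) ^ 2 ≠ (∑ i, c i - 2 * c i1) ^ 2

/-- Job FC-CORE. -/
def StCORE : Prop :=
  ∀ (Ω : Type) [Field Ω] [CharZero Ω] (V : ValuationSubring Ω) (k : Subfield Ω) (R : Subring Ω),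
    (∀ z ∈ k, z ∈ V) → (∀ z ∈ k, z ∈ R) → (∀ z ∈ R, z ∈ V → z ∈ k) →
    ∀ (ι : Type) [Fintype ι] (x x' s s' : Ω) (θ β : ι → Ω), 3 ≤ Fintype.card ι →
    x ∉ V → s ^ 2 = x → s' ^ 2 = x' → x / x' ∈ V → V.valuation (x' / x ^ 3) < 1 →
    Function.Injective θ → (∀ i, θ i ∈ algebraicClosure k Ω) → (∀ j : ℕ, ∑ i, θ i ^ j ∈ k) →
    (∀ i, β i ^ 2 = (x - θ i) * (x' - θ i)) → (∀ i, V.valuation (β i / (s * s') - 1) < 1) →
    (∀ j : ℕ, ∑ i, θ i ^ j * β i ∈ R) → x = x'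

/-- Job FC-GAP. -/
def StGAP : Prop :=
  ∀ d : ℕ, 3 ≤ d → ∃ M : ℕ, ∀ (H : ℕ) (f : ℤ[X]), 1 ≤ H → f.natDegree = d →
    (f.map (Int.castRingHom ℚ)).Separable → (∀ i, |f.coeff i| ≤ H) →
    ∀ x : Fin (2 ^ d + 1) → ℤ, Function.Injective x → (∀ a, (2 * H : ℤ) ^ M < |x a|) →
    (∀ a, ∃ B : ℚ[X], f.map (Int.castRingHom ℚ) ∣ B ^ 2 - (C (x 0 : ℚ) - X) * (C (x a : ℚ) - X)) →
    ∃ a b, a ≠ b ∧ |x a| ^ 2 ≤ |x b|

end Pool.Agent.Y910.F
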