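import Pool.Agent.Y910.F.Defs

/-!
Degrees of the coefficients of the signed sum polynomial.
-/

open Polynomial

set_option autoImplicit false

namespace Pool.Agent.Y910.F

section

variable {B : Type*} [CommRing B]

/-- total degree at most `n` -/
def Wt (n : ℕ) (Q : B[X][X]) : Prop := ∀ j, (Q.coeff j).natDegree + j ≤ n ∨ Q.coeff j = 0

lemma Wt.mono {n m : ℕ} {Q : B[X][X]} (h : Wt n Q) (hnm : n ≤ m) : Wt m Q := fun j => by
  rcases h j with h | h
  · exact Or.inl (h.trans hnm)
  · exact Or.inr h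

lemma Wt.zero (n : ℕ) : Wt n (0 : B[X][X]) := fun j => Or.inr (coeff_zero j)

lemma Wt.add {n : ℕ} {P Q : B[X][X]} (hP : Wt n P) (hQ : Wt n Q) : Wt n (P + Q) := by
  intro j
  by_cases h : (P + Q).coeff j = 0
  · exact Or.inr h
  · left
    rw [coeff_add] at h ⊢
    have h1 := natDegree_add_le (P.coeff j) (Q.coeff j)
    rcases hP j with h2 | h2
    · rcases hQ j with h3 | h3
      · omega
      · rw [h3, add_zero]; exact h2
    · rcases hQ j with h3 | h3
      · rw [h2, zero_add]; exact h3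
      · exact absurd (by rw [h2, h3, add_zero]) h

lemma Wt.neg {n : ℕ} {P : B[X][X]} (hP : Wt n P) : Wt n (-P) := by
  intro j
  rw [coeff_neg, natDegree_neg, neg_eq_zero]
  exact hP j

lemma Wt.sub {n : ℕ} {P Q : B[X][X]} (hP : Wt n P) (hQ : Wt n Q) : Wt n (P - Q) := by
  rw [sub_eq_add_neg]
  exact hP.add hQ.neg

lemma Wt.sum {ι : Type*} (s : Finset ι) (n : ℕ) (f : ι → B[X][X]) (h : ∀ i ∈ s, Wt n (f i)) :
    Wt n (∑ i ∈ s, f i) := by
  classical
  induction s using Finset.induction_on with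
  | empty => rw [Finset.sum_empty]; exact Wt.zero n
  | insert a s ha ih =>
    rw [Finset.sum_insert ha]
    exact (h a (Finset.mem_insert_self _ _)).add
      (ih fun i hi => h i (Finset.mem_insert_of_mem hi))

lemma Wt.mul {n m : ℕ} {P Q : B[X][X]} (hP : Wt n P) (hQ : Wt m Q) : Wt (n + m) (P * Q) := by
  intro j
  by_cases h : (P * Q).coeff j = 0
  · exact Or.inr h
  · left
    rw [coeff_mul] at h ⊢
    have h1 : ∀ p ∈ Finset.HasAntidiagonal.antidiagonal j, (P.coeff p.1 * Q.coeff p.2).natDegree ≤ n + m - j := by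
      intro p hp
      rw [Finset.HasAntidiagonal.mem_antidiagonal] at hp
      rcases hP p.1 with h2 | h2
      · rcases hQ p.2 with h3 | h3
        · have := natDegree_mul_le (p := P.coeff p.1) (q := Q.coeff p.2)
          omega
        · rw [h3, mul_zero, natDegree_zero]; omega
      · rw [h2, zero_mul, natDegree_zero]; omega
    have h2 := natDegree_sum_le_of_forall_le _ _ h1
    have h3 : j ≤ n + m := by
      by_contra hc
      apply h
      apply Finset.sum_eq_zero
      intro p hp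
      rw [Finset.HasAntidiagonal.mem_antidiagonal] at hp
      rcases hP p.1 with h2 | h2
      · rcases hQ p.2 with h3 | h3
        · omega
        · rw [h3, mul_zero]
      · rw [h2, zero_mul]
    omega

lemma Wt.var : Wt 1 (X : B[X][X]) := by
  intro j
  by_cases hj : j = 1
  · left
    rw [hj, coeff_X_one, natDegree_one]
  · right
    rw [coeff_X, if_neg (Ne.symm hj)]

lemma Wt.const {n : ℕ} {u : B[X]} (hu : u.natDegree ≤ n) : Wt n (C u : B[X][X]) := by
  intro j
  by_cases hj : j = 0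
  · left
    rw [hj, coeff_C_zero]
    omega
  · right
    rw [coeff_C, if_neg hj]

lemma Wt.one (n : ℕ) : Wt n (1 : B[X][X]) := by
  rw [← C_1]
  exact Wt.const (by rw [natDegree_one]; omega)

lemma Wt.pab {u : B[X]} (hu : u.natDegree ≤ 1) (k : ℕ) :
    Wt k (pab u k).1 ∧ Wt k (Polynomial.C u * (pab u k).2) ∧ Wt k (pab u k).2 := by
  induction k with
  | zero =>
    refine ⟨Wt.one 0, ?_, ?_⟩
    · simp only [F.pab, mul_zero]; exact Wt.zero 0
    · simp only [F.pab]; exact Wt.zero 0
  | succ k ih =>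
    obtain ⟨h1, h2, h3⟩ := ih
    simp only [F.pab]
    refine ⟨?_, ?_, ?_⟩
    · refine Wt.add ?_ (h2.mono (by omega))
      rw [add_comm]
      exact Wt.var.mul h1
    · rw [mul_add]
      refine Wt.add ?_ ?_
      · rw [add_comm]; exact (Wt.const hu).mul h1
      · have : Polynomial.C u * (X * (F.pab u k).2) = X * (Polynomial.C u * (F.pab u k).2) := by ring
        rw [this, add_comm]
        exact Wt.var.mul h2
    · refine Wt.add (h1.mono (by omega)) ?_
      rw [add_comm]
      exact Wt.var.mul h3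

lemma Wt.C_mul {n k : ℕ} {c : B[X]} {P : B[X][X]} (hc : c.natDegree + k ≤ n ∨ c = 0)
    (hP : Wt k P) : Wt n (Polynomial.C c * P) := by
  rcases hc with h | h
  · exact ((Wt.const (le_refl c.natDegree)).mul hP).mono h
  · rw [h, map_zero, zero_mul]
    exact Wt.zero n

lemma Wt.nm {n : ℕ} {u : B[X]} (hu : u.natDegree ≤ 1) {Q : B[X][X]} (hQ : Wt n Q) :
    Wt (2 * n) (nm n u Q) := by
  have h1 : Wt n (∑ k ∈ Finset.range (n + 1), Polynomial.C (Q.coeff k) * (F.pab u k).1) :=
    Wt.sum _ _ _ fun k _ => Wt.C_mul (hQ k) (Wt.pab hu k).1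
  have h2 : Wt n (∑ k ∈ Finset.range (n + 1), Polynomial.C (Q.coeff k) * (F.pab u k).2) :=
    Wt.sum _ _ _ fun k _ => Wt.C_mul (hQ k) (Wt.pab hu k).2.2
  have h3 : Wt n (Polynomial.C u *
      ∑ k ∈ Finset.range (n + 1), Polynomial.C (Q.coeff k) * (F.pab u k).2) := by
    rw [Finset.mul_sum]
    refine Wt.sum _ _ _ fun k _ => ?_
    have : Polynomial.C u * (Polynomial.C (Q.coeff k) * (F.pab u k).2)
        = Polynomial.C (Q.coeff k) * (Polynomial.C u * (F.pab u k).2) := by ring
    rw [this]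
    exact Wt.C_mul (hQ k) (Wt.pab hu k).2.1
  rw [F.nm, two_mul]
  refine Wt.sub ?_ ?_
  · rw [sq]; exact h1.mul h1
  · rw [sq, ← mul_assoc]; exact h3.mul h2

lemma Wt.sg (l : List B[X]) (hl : ∀ u ∈ l, u.natDegree ≤ 1) : Wt (2 ^ l.length) (sg l) := by
  induction l with
  | nil => exact Wt.var
  | cons u l ih =>
    rw [F.sg, List.length_cons, pow_succ, mul_comm]
    exact Wt.nm (hl u List.mem_cons_self) (ih fun v hv => hl v (List.mem_cons_of_mem _ hv))

lemma sg_coeff_natDegree (l : List B[X]) (hl : ∀ u ∈ l, u.natDegree ≤ 1) (j : ℕ) :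
    ((sg l).coeff j).natDegree ≤ 2 ^ l.length := by
  rcases Wt.sg l hl j with h | h
  · omega
  · rw [h, natDegree_zero]; exact Nat.zero_le _

end

end Pool.Agent.Y910.F
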