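import Pool.Agent.Y910.F.F1
import Pool.Agent.Y910.R.R4
import Pool.Agent.Y910.E.E10

/-!
Auxiliary lemmas for the framework.
-/

open Polynomial

set_option autoImplicit false

namespace Pool.Agent.Y910.F

open Pool.Agent.H322R2 Pool.Agent.Y910.G Pool.Agent.Y910.R

lemma pn_le (F : ℤ[X][X]) (n m : ℕ) (hn : F.natDegree ≤ n)
    (hm : ∀ j, (F.coeff j).natDegree ≤ m) (B : ℝ)
    (hB : ∀ i j, |((F.coeff j).coeff i : ℝ)| ≤ B) :
    pn (pn zn) F ≤ (n + 1) * ((m + 1) * B) := by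
  rw [pn_eq_range _ F (n := n + 1) (by omega)]
  have h1 : ∀ j ∈ Finset.range (n + 1), pn zn (F.coeff j) ≤ (m + 1) * B := by
    intro j _
    rw [pn_eq_range _ (F.coeff j) (n := m + 1) (by have := hm j; omega)]
    calc ∑ i ∈ Finset.range (m + 1), zn ((F.coeff j).coeff i)
        ≤ ∑ _i ∈ Finset.range (m + 1), B := Finset.sum_le_sum fun i _ => hB i j
      _ = (m + 1) * B := by simp
  calc ∑ j ∈ Finset.range (n + 1), pn zn (F.coeff j)
      ≤ ∑ _j ∈ Finset.range (n + 1), (m + 1) * B := Finset.sum_le_sum h1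
    _ = (n + 1) * ((m + 1) * B) := by simp

/-- the field generated by two elements -/
lemma gen_field {Ω : Type} [Field Ω] [Algebra ℚ Ω] (a b : Ω) :
    ∃ α β : IntermediateField.adjoin ℚ ({a, b} : Set Ω), (α : Ω) = a ∧ (β : Ω) = b ∧
      ∀ z : IntermediateField.adjoin ℚ ({a, b} : Set Ω),
        ∃ w1 ∈ Algebra.adjoin ℚ {α, β}, ∃ w2 ∈ Algebra.adjoin ℚ {α, β},
          w2 ≠ 0 ∧ w2 * z = w1 := by
  have ha : a ∈ IntermediateField.adjoin ℚ ({a, b} : Set Ω) :=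
    IntermediateField.subset_adjoin _ _ (by simp)
  have hb : b ∈ IntermediateField.adjoin ℚ ({a, b} : Set Ω) :=
    IntermediateField.subset_adjoin _ _ (by simp)
  refine ⟨⟨a, ha⟩, ⟨b, hb⟩, rfl, rfl, ?_⟩
  have hlift : ∀ w ∈ Algebra.adjoin ℚ ({a, b} : Set Ω), ∃ w' ∈ Algebra.adjoin ℚ
      ({⟨a, ha⟩, ⟨b, hb⟩} : Set (IntermediateField.adjoin ℚ ({a, b} : Set Ω))), (w' : Ω) = w := by
    intro w hw
    induction hw using Algebra.adjoin_induction with
    | mem x hx =>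
      rcases hx with h | h
      · exact ⟨⟨a, ha⟩, Algebra.subset_adjoin (by simp), h.symm⟩
      · rw [Set.mem_singleton_iff] at h
        exact ⟨⟨b, hb⟩, Algebra.subset_adjoin (by simp), h.symm⟩
    | algebraMap r =>
      refine ⟨algebraMap ℚ _ r, Subalgebra.algebraMap_mem _ r, ?_⟩
      exact RingHom.congr_fun (Subsingleton.elim
        ((algebraMap (IntermediateField.adjoin ℚ ({a, b} : Set Ω)) Ω).comp
          (algebraMap ℚ (IntermediateField.adjoin ℚ ({a, b} : Set Ω))))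
        (algebraMap ℚ Ω)) r
    | add x y _ _ h1 h2 =>
      obtain ⟨x', hx', rfl⟩ := h1
      obtain ⟨y', hy', rfl⟩ := h2
      exact ⟨x' + y', add_mem hx' hy', rfl⟩
    | mul x y _ _ h1 h2 =>
      obtain ⟨x', hx', rfl⟩ := h1
      obtain ⟨y', hy', rfl⟩ := h2
      exact ⟨x' * y', mul_mem hx' hy', rfl⟩
  rintro ⟨z, hz⟩
  obtain ⟨r, hr, s, hs, hzrs⟩ := IntermediateField.mem_adjoin_iff_div.1 hz
  by_cases hs0 : s = 0
  · refine ⟨0, zero_mem _, 1, one_mem _, one_ne_zero, ?_⟩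
    apply Subtype.ext
    change 1 * z = 0
    rw [hzrs, hs0, div_zero, mul_zero]
  · obtain ⟨r', hr', hr2⟩ := hlift r hr
    obtain ⟨s', hs', hs2⟩ := hlift s hs
    refine ⟨r', hr', s', hs', ?_, ?_⟩
    · rintro rfl
      exact hs0 hs2.symm
    · apply Subtype.ext
      change (s' : Ω) * z = r'
      rw [hr2, hs2, hzrs]
      field_simp

/-- the sum of the square roots is a root -/
lemma root_sum (hSG : StSG) {d : ℕ} (F : ℤ[X][X]) (U : Fin d → ℂ[X])
    (hF : F.map (mapRingHom (Int.castRingHom ℂ)) = sg (List.ofFn U)) {W : Type} [CommRing W]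
    (φ : ℂ[X] →+* W) (t : Fin d → W) (ht : ∀ i, t i ^ 2 = φ (U i)) :
    F.eval₂ (φ.comp (mapRingHom (Int.castRingHom ℂ))) (∑ i, t i) = 0 := by
  rw [← eval₂_map, ← eval_map, hF, hSG.1]
  have h1 : (List.ofFn U).map φ = (List.ofFn t).map fun z => z ^ 2 := by
    rw [List.map_ofFn, List.map_ofFn]
    congr 1
    ext i
    exact (ht i).symm
  rw [h1, ← List.sum_ofFn]
  exact hSG.2.2.1 W (List.ofFn t)

lemma evf_eq (x : ℂ) : evf x = (evalRingHom x).comp (mapRingHom (Int.castRingHom ℂ)) := by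
  apply Polynomial.ringHom_ext'
  · exact RingHom.ext_int _ _
  · simp

/-- the ring of bounded complex sequences -/
def BB (S : Sca) : Subring (ℕ → ℂ) where
  carrier := {f | ∃ m : ℕ, ∀ n, ‖f n‖ ≤ (S.T n : ℝ) ^ m}
  zero_mem' := ⟨0, fun n => by simp⟩
  one_mem' := ⟨0, fun n => by simp⟩
  add_mem' := by
    rintro f g ⟨m, hm⟩ ⟨m', hm'⟩
    refine ⟨m + m' + 1, fun n => ?_⟩
    have hT : (2 : ℝ) ≤ S.T n := by exact_mod_cast S.hT n
    have h1 := one_le_T S n m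
    have h2 := one_le_T S n m'
    calc ‖f n + g n‖ ≤ ‖f n‖ + ‖g n‖ := norm_add_le _ _
      _ ≤ (S.T n : ℝ) ^ m + (S.T n : ℝ) ^ m' := add_le_add (hm n) (hm' n)
      _ ≤ (S.T n : ℝ) ^ m * (S.T n : ℝ) ^ m' * 2 := by nlinarith
      _ ≤ (S.T n : ℝ) ^ m * (S.T n : ℝ) ^ m' * S.T n := by gcongr
      _ = (S.T n : ℝ) ^ (m + m' + 1) := by rw [pow_succ, pow_add]
  mul_mem' := by
    rintro f g ⟨m, hm⟩ ⟨m', hm'⟩
    refine ⟨m + m', fun n => ?_⟩
    rw [Pi.mul_apply, norm_mul, pow_add]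
    exact mul_le_mul (hm n) (hm' n) (norm_nonneg _) (by positivity)
  neg_mem' := by
    rintro f ⟨m, hm⟩
    exact ⟨m, fun n => by rw [Pi.neg_apply, norm_neg]; exact hm n⟩

lemma mem_BB {S : Sca} {f : ℕ → ℂ} : f ∈ BB S ↔ ∃ m : ℕ, ∀ n, ‖f n‖ ≤ (S.T n : ℝ) ^ m := Iff.rfl

/-- evaluation at an index -/
def rh (S : Sca) (n : ℕ) : BB S →+* ℂ := (Pi.evalRingHom (fun _ : ℕ => ℂ) n).comp (BB S).subtype

lemma rh_apply (S : Sca) (n : ℕ) (f : BB S) : rh S n f = (f : ℕ → ℂ) n := rfl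

/-- the coefficients of the signed sum polynomials of a sequence are bounded -/
lemma coeff_bound (hSG : StSG) (S : Sca) {d : ℕ} (u θ : ℕ → Fin d → ℂ)
    (hu : ∀ i, (fun n => u n i) ∈ BB S) (hθ : ∀ i, (fun n => θ n i) ∈ BB S) :
    ∃ m : ℕ, ∀ n i j, ‖((sg (List.ofFn fun i => C (u n i) * (X - C (θ n i)))).coeff j).coeff i‖
      ≤ (S.T n : ℝ) ^ m := by
  obtain ⟨P, hP⟩ : ∃ P : (BB S)[X][X], P = sg (List.ofFn fun i =>
    C (⟨_, hu i⟩ : BB S) * (X - C (⟨_, hθ i⟩ : BB S))) := ⟨_, rfl⟩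
  have hmap : ∀ n, P.map (mapRingHom (rh S n)) =
      sg (List.ofFn fun i => C (u n i) * (X - C (θ n i))) := by
    intro n
    rw [hP, hSG.1, List.map_ofFn]
    congr 2
    ext1 i
    simp only [Function.comp_apply, Polynomial.map_mul, Polynomial.map_sub, coe_mapRingHom,
      Polynomial.map_C, Polynomial.map_X]
    rfl
  choose m hm using fun (j i : ℕ) => ((P.coeff j).coeff i).2
  refine ⟨∑ j ∈ P.support, ∑ i ∈ (P.coeff j).support, m j i, fun n i j => ?_⟩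
  rw [← hmap n, coeff_map, coe_mapRingHom, coeff_map, rh_apply]
  by_cases h0 : (P.coeff j).coeff i = 0
  · rw [h0]
    simp
  · have hi : i ∈ (P.coeff j).support := mem_support_iff.2 h0
    have hj : j ∈ P.support := by
      rw [mem_support_iff]
      intro h
      rw [h, coeff_zero] at h0
      exact h0 rfl
    refine (hm j i n).trans ?_
    apply pow_le_pow_right₀
    · have := S.hT n
      have h3 : (2 : ℝ) ≤ S.T n := by exact_mod_cast this
      linarith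
    · refine le_trans ?_ (Finset.single_le_sum (f := fun j => ∑ i ∈ (P.coeff j).support, m j i)
        (fun _ _ => Nat.zero_le _) hj)
      exact Finset.single_le_sum (f := m j) (fun _ _ => Nat.zero_le _) hi

end Pool.Agent.Y910.F
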