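import Pool.Agent.Y910.F.F2

/-!
The curve for one datum.
-/

open Polynomial

set_option autoImplicit false

namespace Pool.Agent.Y910.F

open Pool.Agent.H322R2 Pool.Agent.Y910.G Pool.Agent.Y910.R

theorem single (hSG : StSG) (hFLIP : StFLIP) (hIRR : StIRR) (hPLACE : StPLACE) {d : ℕ}
    (i0 i1 : Fin d) (θ u : Fin d → ℂ) (hθ : Function.Injective θ) (hu : ∀ i, u i ≠ 0)
    (hgen : ∀ c : Fin d → ℂ, (∀ i, c i ^ 2 = u i) →
      (∑ i, c i) ^ 2 ≠ (∑ i, c i - 2 * c i0) ^ 2 ∧ (∑ i, c i) ^ 2 ≠ (∑ i, c i - 2 * c i1) ^ 2 ∧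
      (∑ i, c i - 2 * c i0) ^ 2 ≠ (∑ i, c i - 2 * c i1) ^ 2)
    (F : ℤ[X][X]) (hFm : F.Monic) (hFd : F.natDegree = 2 ^ d)
    (hF : F.map (mapRingHom (Int.castRingHom ℂ)) =
      sg (List.ofFn fun i => C (u i) * (X - C (θ i)))) :
    Prime F ∧ ∃ (L : Type) (_ : Field L) (_ : Algebra ℚ L) (α β : L), ev α β F = 0 ∧
      Transcendental ℚ α ∧
      (∀ z : L, ∃ w1 ∈ Algebra.adjoin ℚ {α, β}, ∃ w2 ∈ Algebra.adjoin ℚ {α, β},
        w2 ≠ 0 ∧ w2 * z = w1) ∧
      ∀ A : ValuationSubring L, (∀ A' : ValuationSubring L,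
        ((∀ q : ℚ, algebraMap ℚ L q ∈ A') ∧ ¬ (α ∈ A' ∧ β ∈ A')) ↔ A' = A) →
      ∀ g : ℚ[X], g.Monic → Irreducible g →
        Nonempty (IsLocalRing.ResidueField A ≃+* AdjoinRoot g) → g.natDegree ≤ 2 → False := by
  let K := FractionRing ℂ[X]
  let Ω := AlgebraicClosure K
  let φ : ℂ[X] →+* Ω := (algebraMap K Ω).comp (algebraMap ℂ[X] K)
  have hφ : Function.Injective φ :=
    (algebraMap K Ω).injective.comp (IsFractionRing.injective ℂ[X] K)
  have hsq : ∀ i, ∃ t : Ω, t ^ 2 = φ (C (u i) * (X - C (θ i))) := fun i =>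
    IsAlgClosed.exists_pow_nat_eq _ (by norm_num)
  choose t ht using hsq
  have ht0 : ∀ i, t i ≠ 0 := by
    intro i h
    have h1 := ht i
    rw [h, zero_pow two_ne_zero] at h1
    have h2 : C (u i) * (X - C (θ i)) = 0 := hφ (by rw [← h1, map_zero])
    rcases mul_eq_zero.1 h2 with h3 | h3
    · exact hu i (C_eq_zero.1 h3)
    · exact X_sub_C_ne_zero _ h3
  have hflips : HasFlips (K := K) t := hFLIP K Ω d θ u t hθ hu ht
  have hroot : F.eval₂ (φ.comp (mapRingHom (Int.castRingHom ℂ))) (∑ i, t i) = 0 :=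
    root_sum hSG F _ hF φ t ht
  have hprime : Prime F := hIRR K Ω d t ht0 hflips F hFm hFd hroot
  refine ⟨hprime, ?_⟩
  have hchar : CharZero Ω := by
    have h1 : CharZero ℂ[X] := inferInstance
    exact charZero_of_injective_ringHom hφ
  obtain ⟨α, β, hα, hβ, hgenL⟩ := gen_field (φ X) (∑ i, t i)
  refine ⟨IntermediateField.adjoin ℚ ({φ X, ∑ i, t i} : Set Ω), inferInstance, inferInstance,
    α, β, ?_, ?_, hgenL, ?_⟩
  · apply (algebraMap (IntermediateField.adjoin ℚ ({φ X, ∑ i, t i} : Set Ω)) Ω).injective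
    rw [map_ev, map_zero]
    change ev (α : Ω) (β : Ω) F = 0
    rw [hα, hβ, ev_apply]
    have h1 : evf (φ X) = φ.comp (mapRingHom (Int.castRingHom ℂ)) := by
      apply Polynomial.ringHom_ext'
      · exact RingHom.ext_int _ _
      · simp
    rw [h1]
    exact hroot
  · rw [transcendental_iff]
    intro p hp
    have h1 : aeval (φ X) p = 0 := by
      have h2 := congrArg
        (algebraMap (IntermediateField.adjoin ℚ ({φ X, ∑ i, t i} : Set Ω)) Ω) hp
      rw [map_zero, ← aeval_algebraMap_apply] at h2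
      change aeval (α : Ω) p = 0 at h2
      rw [hα] at h2
      exact h2
    have h2 : φ (p.map (algebraMap ℚ ℂ)) = 0 := by
      rw [← h1, aeval_def]
      have h3 : (φ.comp (mapRingHom (algebraMap ℚ ℂ))) = eval₂RingHom (algebraMap ℚ Ω) (φ X) := by
        apply Polynomial.ringHom_ext'
        · exact Subsingleton.elim _ _
        · simp
      exact RingHom.congr_fun h3 p
    have h4 : p.map (algebraMap ℚ ℂ) = 0 := hφ (by rw [h2, map_zero])
    exact (Polynomial.map_eq_zero_iff (algebraMap ℚ ℂ).injective).1 h4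
  · intro A hA g hg hgi he h2
    exact hPLACE K Ω d θ u t hu ht hflips i0 i1 hgen _ (algebraMap _ Ω) α β hα hβ A hA g hg hgi
      he h2

lemma root_bound (g : ℤ[X]) (H : ℕ) (hg : g ≠ 0) (hc : ∀ i, |g.coeff i| ≤ H) (hH : 1 ≤ H) (θ : ℂ)
    (hθ : aeval θ g = 0) : ‖θ‖ ≤ ((2 * H : ℕ) : ℝ) := by
  have h0 : g.map (Int.castRingHom ℂ) ≠ 0 :=
    (Polynomial.map_ne_zero_iff (RingHom.injective_int _)).2 hg
  have h1 : (g.map (Int.castRingHom ℂ)).IsRoot θ := by
    rw [IsRoot.def, eval_map, ← hθ, aeval_def]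
    congr 1
  have h2 := IsRoot.norm_lt_cauchyBound h0 h1
  have h3 : cauchyBound (g.map (Int.castRingHom ℂ)) ≤ (H : NNReal) + 1 := by
    rw [cauchyBound]
    gcongr
    have hlc : (1 : NNReal) ≤ ‖(g.map (Int.castRingHom ℂ)).leadingCoeff‖₊ := by
      rw [leadingCoeff_map_of_injective (RingHom.injective_int _)]
      change (1 : ℝ) ≤ ‖((g.leadingCoeff : ℤ) : ℂ)‖
      rw [Complex.norm_intCast]
      exact_mod_cast Int.one_le_abs (leadingCoeff_ne_zero.2 hg)
    have hsup : Finset.sup (Finset.range (g.map (Int.castRingHom ℂ)).natDegree)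
        (‖(g.map (Int.castRingHom ℂ)).coeff ·‖₊) ≤ (H : NNReal) := by
      apply Finset.sup_le
      intro i _
      rw [coeff_map]
      change (‖((g.coeff i : ℤ) : ℂ)‖ : ℝ) ≤ (H : ℝ)
      rw [Complex.norm_intCast]
      exact_mod_cast hc i
    calc _ ≤ (H : NNReal) / ‖(g.map (Int.castRingHom ℂ)).leadingCoeff‖₊ := by gcongr
      _ ≤ H / 1 := by gcongr
      _ = H := div_one _
  have h4 : ‖θ‖ ≤ (H : ℝ) + 1 := by
    have h5 := (h2.le.trans h3)
    exact_mod_cast h5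
  refine h4.trans ?_
  have h6 : (1 : ℝ) ≤ H := by exact_mod_cast hH
  push_cast
  linarith

end Pool.Agent.Y910.F
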