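import Pool.Agent.Y910.F.F3

/-!
The framework: few points in a class with a small representative.
-/

open Polynomial

set_option autoImplicit false

namespace Pool.Agent.Y910.F

open Pool.Agent.H322R2 Pool.Agent.Y910.G Pool.Agent.Y910.R Pool.Agent.Y910.E

/-- the auxiliary weights as a polynomial -/
noncomputable def wp (d m : ℕ) : ℚ[X] := ∑ l ∈ Finset.range d, C ((m : ℚ) ^ l) * X ^ l

lemma wp_eval (d m : ℕ) (z : ℂ) : aeval z (wp d m) = wt d m z := by
  rw [wp, wt, map_sum]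
  refine Finset.sum_congr rfl fun l _ => ?_
  simp

/-- the integer coordinate -/
lemma int_point (d m : ℕ) (g : ℤ[X]) (hd : g.natDegree = d)
    (hsep : (g.map (Int.castRingHom ℚ)).Separable) (D : ℚ[X])
    (hD : ∀ θ : ℂ, aeval θ g = 0 → IsIntegral ℤ (aeval θ D)) (x : ℤ) (B : ℚ[X])
    (hB : g.map (Int.castRingHom ℚ) ∣ B ^ 2 - D * (C (x : ℚ) - X)) (θ : Fin d → ℂ)
    (hθ0 : ∀ i, aeval (θ i) g = 0)
    (hθs : ∀ F : ℂ → ℂ, ∑ i, F (θ i) =
      ∑ r ∈ ((g.map (Int.castRingHom ℚ)).map (algebraMap ℚ ℂ)).roots.toFinset, F r) :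
    (∀ i, (aeval (θ i) B) ^ 2 = aeval (θ i) D * (x - θ i)) ∧
    ∃ z : ℤ, (z : ℂ) = ∑ i, (g.leadingCoeff : ℂ) ^ d * wt d m (θ i) * aeval (θ i) B := by
  have hB0 : ∀ r : ℂ, aeval r g = 0 → (aeval r B) ^ 2 = aeval r D * (x - r) := by
    intro r hr
    obtain ⟨Q, hQ⟩ := hB
    have h3 := congrArg (fun P => aeval r P) hQ
    simp only [map_sub, map_pow, map_mul, aeval_C, aeval_X] at h3
    have h4 : aeval r (g.map (Int.castRingHom ℚ)) = 0 := by
      rw [aeval_def, eval₂_map, ← hr, aeval_def]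
      congr 1
    rw [h4, zero_mul, sub_eq_zero] at h3
    rw [h3]
    simp
  refine ⟨fun i => hB0 _ (hθ0 i), ?_⟩
  obtain ⟨q, hq⟩ := trace_rat _ hsep (C ((g.leadingCoeff : ℚ) ^ d) * wp d m * B)
  have h1 : (q : ℂ) = ∑ i, (g.leadingCoeff : ℂ) ^ d * wt d m (θ i) * aeval (θ i) B := by
    rw [← hq, ← hθs fun r => ((C ((g.leadingCoeff : ℚ) ^ d) * wp d m * B).map
      (algebraMap ℚ ℂ)).eval r]
    refine Finset.sum_congr rfl fun i _ => ?_
    rw [eval_map_algebraMap, map_mul, map_mul, wp_eval, aeval_C]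
    simp
  have h2 : IsIntegral ℤ (q : ℂ) := by
    rw [h1]
    apply IsIntegral.sum
    intro i _
    have h5 : IsIntegral ℤ ((g.leadingCoeff : ℂ) * θ i) := by
      have := isIntegral_leadingCoeff_smul g (θ i) (hθ0 i)
      rwa [zsmul_eq_mul] at this
    have hz : ∀ n : ℤ, IsIntegral ℤ (n : ℂ) := fun n => isIntegral_algebraMap (R := ℤ) (x := n)
    have h6 : IsIntegral ℤ ((g.leadingCoeff : ℂ) * aeval (θ i) B) := by
      apply IsIntegral.of_pow (n := 2) (by norm_num)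
      rw [mul_pow, hB0 _ (hθ0 i)]
      have h7 : (g.leadingCoeff : ℂ) ^ 2 * (aeval (θ i) D * (x - θ i)) =
          ((g.leadingCoeff : ℤ) : ℂ) * aeval (θ i) D * ((g.leadingCoeff : ℤ) * (x : ℤ) -
            (g.leadingCoeff : ℂ) * θ i) := by
        ring
      rw [h7]
      exact ((hz _).mul (hD _ (hθ0 i))).mul (((hz _).mul (hz _)).sub h5)
    rcases Nat.eq_zero_or_pos d with h0 | h0
    · exact absurd i.2 (by omega)
    · obtain ⟨e, rfl⟩ : ∃ e, d = e + 1 := ⟨d - 1, by omega⟩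
      have h8 : IsIntegral ℤ ((g.leadingCoeff : ℂ) ^ e * wt (e + 1) m (θ i)) := by
        rw [wt, Finset.mul_sum]
        apply IsIntegral.sum
        intro l hl
        rw [Finset.mem_range] at hl
        have h9 : (g.leadingCoeff : ℂ) ^ e * ((m : ℂ) ^ l * θ i ^ l) =
            ((g.leadingCoeff : ℤ) : ℂ) ^ (e - l) * ((m : ℤ) : ℂ) ^ l *
              ((g.leadingCoeff : ℂ) * θ i) ^ l := by
          have : e = (e - l) + l := by omega
          conv_lhs => rw [this]
          rw [pow_add, mul_pow]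
          push_cast
          ring
        rw [h9]
        exact (((hz _).pow _).mul ((hz _).pow _)).mul (h5.pow _)
      have h10 : (g.leadingCoeff : ℂ) ^ (e + 1) * wt (e + 1) m (θ i) * aeval (θ i) B =
          ((g.leadingCoeff : ℂ) ^ e * wt (e + 1) m (θ i)) *
            ((g.leadingCoeff : ℂ) * aeval (θ i) B) := by ring
      rw [h10]
      exact h8.mul h6
  have h3 : IsIntegral ℤ q := by
    have h4 : IsIntegral ℤ (algebraMap ℚ ℂ q) := by simpa using h2
    exact (isIntegral_algebraMap_iff (algebraMap ℚ ℂ).injective).1 h4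
  obtain ⟨z, hz⟩ := IsIntegrallyClosed.isIntegral_iff.1 h3
  refine ⟨z, ?_⟩
  rw [← h1, ← hz]
  simp

theorem frame (hSG : StSG) (hINT : StINT) (hFLIP : StFLIP) (hIRR : StIRR) (hPLACE : StPLACE)
    (hGEN : StGEN) (d : ℕ) (hd : 3 ≤ d) : ∃ M N : ℕ, ∀ (H : ℕ) (g : ℤ[X]) (D : ℚ[X])
    (s : Finset ℤ), 1 ≤ H → g.natDegree = d → (g.map (Int.castRingHom ℚ)).Separable →
    (∀ i, |g.coeff i| ≤ H) →
    (∀ θ : ℂ, aeval θ g = 0 → IsIntegral ℤ (aeval θ D) ∧ aeval θ D ≠ 0 ∧ ‖aeval θ D‖ ≤ H) →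
    (∀ x ∈ s, (2 * H : ℤ) ^ M < |x| ∧
      ∃ B : ℚ[X], g.map (Int.castRingHom ℚ) ∣ B ^ 2 - D * (C (x : ℚ) - X)) →
    s.card ≤ N := by
  classical
  obtain ⟨M1, N1, hMN⟩ := monic_few (2 ^ d) Nat.one_le_two_pow
  by_contra hcon
  push Not at hcon
  choose H g D s hH hdeg hsep hcoef hD hs hcard using fun M => hcon M N1
  let i0 : Fin d := ⟨0, by omega⟩
  let i1 : Fin d := ⟨1, by omega⟩
  let i2 : Fin d := ⟨2, by omega⟩
  obtain ⟨M0, hM0⟩ := hGEN d i0 i1 i2 (by simp [i0, i1]) (by simp [i0, i2]) (by simp [i1, i2])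
  let S : Sca := ⟨fun n => 2 * H n, fun n => by have := hH n; omega⟩
  choose θ hθi hθ0 hθs using fun n => exists_enum (g n) (hsep n) d (hdeg n)
  have hg0 : ∀ n, g n ≠ 0 := by
    intro n h
    have := hdeg n
    rw [h, natDegree_zero] at this
    omega
  have hlc : ∀ n, (g n).leadingCoeff ≠ 0 := fun n => leadingCoeff_ne_zero.2 (hg0 n)
  have hsq : ∀ n i, ∃ v : ℂ, v ^ 2 = ((g n).leadingCoeff : ℂ) ^ (2 * d) * aeval (θ n i) (D n) :=
    fun n i => IsAlgClosed.exists_pow_nat_eq _ (by norm_num)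
  choose v hv using hsq
  have hv0 : ∀ n i, v n i ≠ 0 := by
    intro n i h
    have h1 := hv n i
    rw [h, zero_pow two_ne_zero] at h1
    have h2 : ((g n).leadingCoeff : ℂ) ≠ 0 := by exact_mod_cast hlc n
    exact mul_ne_zero (pow_ne_zero _ h2) (hD n _ (hθ0 n i)).2.1 h1.symm
  choose m hm hwt hgen using fun n => hM0 (θ n) (v n) (hθi n) (hv0 n)
  -- the numbers u
  obtain ⟨u, hu⟩ : ∃ u : ℕ → Fin d → ℂ, ∀ n i, u n i = (wt d (m n) (θ n i) * v n i) ^ 2 :=
    ⟨_, fun _ _ => rfl⟩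
  have hu2 : ∀ n i, u n i = wt d (m n) (θ n i) ^ 2 *
      (((g n).leadingCoeff : ℂ) ^ (2 * d) * aeval (θ n i) (D n)) := by
    intro n i
    rw [hu, mul_pow, hv]
  have hu0 : ∀ n i, u n i ≠ 0 := fun n i => by
    rw [hu]; exact pow_ne_zero _ (mul_ne_zero (hwt n i) (hv0 n i))
  -- the integral polynomials
  have hF : ∀ n, ∃ F : ℤ[X][X], F.Monic ∧ F.natDegree = 2 ^ d ∧
      F.map (mapRingHom (Int.castRingHom ℂ)) =
        sg (List.ofFn fun i => C (u n i) * (X - C (θ n i))) := by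
    intro n
    obtain ⟨Q, hQ⟩ : ∃ Q : ℚ[X], Q = wp d (m n) ^ 2 *
      (C (((g n).leadingCoeff : ℚ) ^ (2 * d)) * D n) := ⟨_, rfl⟩
    have hQu : ∀ i, aeval (θ n i) Q = u n i := by
      intro i
      rw [hu2, hQ, map_mul, map_pow, wp_eval, map_mul, aeval_C]
      simp
    have h5 : ∀ i, IsIntegral ℤ (((g n).leadingCoeff : ℂ) * θ n i) := by
      intro i
      have := isIntegral_leadingCoeff_smul (g n) (θ n i) (hθ0 n i)
      rwa [zsmul_eq_mul] at this
    have hz : ∀ n : ℤ, IsIntegral ℤ (n : ℂ) := fun n => isIntegral_algebraMap (R := ℤ) (x := n)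
    obtain ⟨e, he⟩ : ∃ e, d = e + 1 := ⟨d - 1, by omega⟩
    have h8 : ∀ i, IsIntegral ℤ (((g n).leadingCoeff : ℂ) ^ e * wt d (m n) (θ n i)) := by
      intro i
      rw [wt, Finset.mul_sum]
      apply IsIntegral.sum
      intro l hl
      rw [Finset.mem_range] at hl
      have h9 : ((g n).leadingCoeff : ℂ) ^ e * ((m n : ℂ) ^ l * θ n i ^ l) =
          (((g n).leadingCoeff : ℤ) : ℂ) ^ (e - l) * ((m n : ℤ) : ℂ) ^ l *
            (((g n).leadingCoeff : ℂ) * θ n i) ^ l := by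
        have : e = (e - l) + l := by omega
        conv_lhs => rw [this]
        rw [pow_add, mul_pow]
        push_cast
        ring
      rw [h9]
      exact (((hz _).pow _).mul ((hz _).pow _)).mul ((h5 i).pow _)
    obtain ⟨F, h1, h2, h3⟩ := hINT d (g n) (hdeg n) (hsep n) (θ n) (hθi n) (hθ0 n) Q
      (fun i => by
        rw [hQu, hu2]
        have : wt d (m n) (θ n i) ^ 2 * (((g n).leadingCoeff : ℂ) ^ (2 * d) *
            aeval (θ n i) (D n)) = (((g n).leadingCoeff : ℂ) ^ e * wt d (m n) (θ n i)) ^ 2 *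
              ((((g n).leadingCoeff : ℤ) : ℂ) ^ 2 * aeval (θ n i) (D n)) := by
          have h10 : ((g n).leadingCoeff : ℂ) ^ (2 * d)
              = (((g n).leadingCoeff : ℂ) ^ e) ^ 2 * ((g n).leadingCoeff : ℂ) ^ 2 := by
            rw [← pow_mul, ← pow_add]
            congr 1
            omega
          rw [h10]
          ring
        rw [this]
        exact ((h8 i).pow 2).mul (((hz _).pow 2).mul (hD n _ (hθ0 n i)).1))
      (fun i => by
        rw [hQu, hu2]
        have : wt d (m n) (θ n i) ^ 2 * (((g n).leadingCoeff : ℂ) ^ (2 * d) *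
            aeval (θ n i) (D n)) * θ n i =
              (((g n).leadingCoeff : ℂ) ^ e * wt d (m n) (θ n i)) ^ 2 *
              ((((g n).leadingCoeff : ℤ) : ℂ) * aeval (θ n i) (D n) *
                (((g n).leadingCoeff : ℂ) * θ n i)) := by
          have h10 : ((g n).leadingCoeff : ℂ) ^ (2 * d)
              = (((g n).leadingCoeff : ℂ) ^ e) ^ 2 * ((g n).leadingCoeff : ℂ) ^ 2 := by
            rw [← pow_mul, ← pow_add]
            congr 1
            omega
          rw [h10]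
          ring
        rw [this]
        exact ((h8 i).pow 2).mul (((hz _).mul (hD n _ (hθ0 n i)).1).mul (h5 i)))
    refine ⟨F, h1, h2, ?_⟩
    rw [h3]
    congr 2
    ext1 i
    rw [hQu]
  choose F hFm hFd hFs using hF
  -- bounded sequences
  have hθB : ∀ i, (fun n => θ n i) ∈ BB S := by
    intro i
    refine ⟨1, fun n => ?_⟩
    rw [pow_one]
    exact root_bound (g n) (H n) (hg0 n) (hcoef n) (hH n) _ (hθ0 n i)
  have hHT : ∀ n, (H n : ℝ) ≤ (S.T n : ℝ) ^ 1 := by
    intro n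
    rw [pow_one]
    change (H n : ℝ) ≤ ((2 * H n : ℕ) : ℝ)
    push_cast
    have : (0 : ℝ) ≤ H n := by positivity
    linarith
  have hDB : ∀ i, (fun n => aeval (θ n i) (D n)) ∈ BB S := fun i =>
    ⟨1, fun n => ((hD n _ (hθ0 n i)).2.2).trans (hHT n)⟩
  have haB : (fun n => ((g n).leadingCoeff : ℂ)) ∈ BB S := by
    refine ⟨1, fun n => ?_⟩
    rw [Complex.norm_intCast]
    refine le_trans ?_ (hHT n)
    exact_mod_cast hcoef n (g n).natDegree
  have hmB : (fun n => (m n : ℂ)) ∈ BB S := by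
    refine ⟨M0, fun n => ?_⟩
    rw [Complex.norm_natCast]
    have h1 : m n ≤ 2 ^ M0 := (hm n).trans (Nat.lt_two_pow_self).le
    have h2 : 2 ^ M0 ≤ S.T n ^ M0 := Nat.pow_le_pow_left (S.hT n) _
    exact_mod_cast h1.trans h2
  have huB : ∀ i, (fun n => u n i) ∈ BB S := by
    intro i
    have h1 : (fun n => u n i) = (∑ l ∈ Finset.range d, (fun n => (m n : ℂ)) ^ l *
        (fun n => θ n i) ^ l) ^ 2 * ((fun n => ((g n).leadingCoeff : ℂ)) ^ (2 * d) *
          (fun n => aeval (θ n i) (D n))) := by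
      ext n
      rw [hu2, wt]
      simp only [Pi.mul_apply, Pi.pow_apply, Finset.sum_apply]
    rw [h1]
    exact mul_mem (pow_mem (sum_mem fun l _ => mul_mem (pow_mem hmB _) (pow_mem (hθB i) _)) _)
      (mul_mem (pow_mem haB _) (hDB i))
  obtain ⟨m1, hm1⟩ := coeff_bound hSG S u θ huB hθB
  -- norms
  obtain ⟨m2, hm2⟩ : ∃ m2, m2 = m1 + 2 * (d + 1) := ⟨_, rfl⟩
  have hFc : ∀ n i j, (((F n).coeff j).coeff i : ℂ) =
      ((sg (List.ofFn fun i => C (u n i) * (X - C (θ n i)))).coeff j).coeff i := by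
    intro n i j
    rw [← hFs n, coeff_map, coe_mapRingHom, coeff_map]
    rfl
  have hFdeg : ∀ n j, ((F n).coeff j).natDegree ≤ 2 ^ d := by
    intro n j
    have h1 : ((F n).coeff j).natDegree =
        ((sg (List.ofFn fun i => C (u n i) * (X - C (θ n i)))).coeff j).natDegree := by
      rw [← hFs n, coeff_map, coe_mapRingHom,
        natDegree_map_eq_of_injective (RingHom.injective_int _)]
    rw [h1]
    have h2 := sg_coeff_natDegree (List.ofFn fun i => C (u n i) * (X - C (θ n i))) (by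
      intro w hw
      rw [List.mem_ofFn] at hw
      obtain ⟨i, rfl⟩ := hw
      exact (natDegree_C_mul_le _ _).trans (natDegree_X_sub_C _).le) j
    rwa [List.length_ofFn] at h2
  have hpn : ∀ n, pn (pn zn) (F n) ≤ ((S.T n ^ m2 : ℕ) : ℝ) := by
    intro n
    refine (pn_le (F n) (2 ^ d) (2 ^ d) (hFd n).le (hFdeg n) ((S.T n : ℝ) ^ m1) ?_).trans ?_
    · intro i j
      have h1 := hm1 n i j
      rw [← hFc n i j, Complex.norm_intCast] at h1
      exact h1
    · have h2 : ((2 ^ d + 1 : ℕ) : ℝ) ≤ (S.T n : ℝ) ^ (d + 1) := by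
        have h3 : 2 ^ d + 1 ≤ 2 ^ (d + 1) := by
          rw [pow_succ]
          have : 1 ≤ 2 ^ d := Nat.one_le_two_pow
          omega
        have h4 : 2 ^ (d + 1) ≤ S.T n ^ (d + 1) := Nat.pow_le_pow_left (S.hT n) _
        exact_mod_cast h3.trans h4
      push_cast at h2 ⊢
      calc ((2 : ℝ) ^ d + 1) * ((2 ^ d + 1) * (S.T n : ℝ) ^ m1)
          ≤ (S.T n : ℝ) ^ (d + 1) * ((S.T n : ℝ) ^ (d + 1) * (S.T n : ℝ) ^ m1) := by gcongr
        _ = (S.T n : ℝ) ^ m2 := by
            rw [hm2, ← pow_add, ← pow_add]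
            congr 1
            omega
  -- the index
  obtain ⟨n, hn⟩ : ∃ n, n = m2 * M1 := ⟨_, rfl⟩
  obtain ⟨hprime, L, _, _, α, β, hev, htr, hgenL, hpl⟩ := single hSG hFLIP hIRR hPLACE i0 i1
    (θ n) (u n) (hθi n) (hu0 n) (fun c hc => hgen n c (fun i => by rw [hc i, hu]))
    (F n) (hFm n) (hFd n) (hFs n)
  have hT2 : 2 ≤ S.T n ^ m2 := by
    calc 2 ≤ S.T n := S.hT n
      _ = S.T n ^ 1 := (pow_one _).symm
      _ ≤ S.T n ^ m2 := Nat.pow_le_pow_right (by have := S.hT n; omega) (by omega)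
  rcases hMN (S.T n ^ m2) hT2 (F n) (hFm n) (hFd n) hprime (hFdeg n) (hpn n) L α β hev htr hgenL
    with h | ⟨A, hA, q, hq1, hq2, hq3, hq4, _⟩
  · -- the integral points
    have hpt : ∀ x ∈ s n, ∃ z : ℤ, ev x z (F n) = 0 := by
      intro x hx
      obtain ⟨B, hB⟩ := (hs n x hx).2
      obtain ⟨h1, z, h2⟩ := int_point d (m n) (g n) (hdeg n) (hsep n) (D n)
        (fun r hr => (hD n r hr).1) x B hB (θ n) (hθ0 n) (hθs n)
      refine ⟨z, ?_⟩
      have h3 := root_sum hSG (F n) _ (hFs n) (evalRingHom (x : ℂ))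
        (fun i => ((g n).leadingCoeff : ℂ) ^ d * wt d (m n) (θ n i) * aeval (θ n i) B) (by
          intro i
          simp only [coe_evalRingHom, eval_mul, eval_C, eval_sub, eval_X]
          rw [mul_pow, h1 i, hu2]
          have h10 : ((g n).leadingCoeff : ℂ) ^ (2 * d)
              = (((g n).leadingCoeff : ℂ) ^ d) ^ 2 := by
            rw [← pow_mul, mul_comm]
          rw [h10]
          ring)
      rw [← evf_eq, ← h2] at h3
      have h4 : ((ev x z (F n) : ℤ) : ℂ) = 0 := by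
        have h5 := map_ev (Int.castRingHom ℂ) x z (F n)
        rw [ev_apply, ev_apply] at h5
        rw [← h3, ev_apply]
        exact h5
      exact_mod_cast h4
    choose! z hz using hpt
    have h1 := h ((s n).image fun x => (x, z x)) (by
      intro P hP
      obtain ⟨x, hx, rfl⟩ := Finset.mem_image.1 hP
      refine ⟨hz x hx, ?_⟩
      have h2 := (hs n x hx).1
      have h3 : ((S.T n ^ m2 : ℕ) : ℤ) ^ M1 = (2 * (H n : ℤ)) ^ n := by
        push_cast
        rw [← pow_mul, ← hn]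
        congr 1
      rw [h3]
      exact h2)
    rw [Finset.card_image_of_injective _ (fun a b hab => (Prod.ext_iff.1 hab).1)] at h1
    exact absurd h1 (not_le.2 (hcard n))
  · exact hpl A hA q hq1 hq2 hq3 hq4

end Pool.Agent.Y910.F
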