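import Pool.Agent.Y910.F.F4
import Pool.Agent.Y910.F.Core

/-!
Few points in a class.
-/

open Polynomial

set_option autoImplicit false

namespace Pool.Agent.Y910.F

open Pool.Agent.H322R2 Pool.Agent.Y910.G Pool.Agent.Y910.R Pool.Agent.Y910.E

/-- the dyadic window of a number -/
lemma window (X₀ x : ℤ) (K : ℕ) (h0 : X₀ ≤ x) (hK : x < X₀ ^ (2 ^ K)) :
    ∃ k < K, X₀ ^ (2 ^ k) ≤ x ∧ x < X₀ ^ (2 ^ (k + 1)) := by
  induction K with
  | zero =>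
    rw [pow_zero, pow_one] at hK
    omega
  | succ K ih =>
    by_cases h : x < X₀ ^ (2 ^ K)
    · obtain ⟨k, hk, h1⟩ := ih h
      exact ⟨k, by omega, h1⟩
    · exact ⟨K, by omega, not_lt.1 h, hK⟩

theorem few (hF : ∀ d : ℕ, 3 ≤ d → ∃ M N : ℕ, ∀ (H : ℕ) (g : ℤ[X]) (D : ℚ[X])
    (s : Finset ℤ), 1 ≤ H → g.natDegree = d → (g.map (Int.castRingHom ℚ)).Separable →
    (∀ i, |g.coeff i| ≤ H) →
    (∀ θ : ℂ, aeval θ g = 0 → IsIntegral ℤ (aeval θ D) ∧ aeval θ D ≠ 0 ∧ ‖aeval θ D‖ ≤ H) →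
    (∀ x ∈ s, (2 * H : ℤ) ^ M < |x| ∧
      ∃ B : ℚ[X], g.map (Int.castRingHom ℚ) ∣ B ^ 2 - D * (C (x : ℚ) - X)) →
    s.card ≤ N) (hGAP : StGAP) (d : ℕ) (hd : 3 ≤ d) : ∃ M N : ℕ, ∀ (H : ℕ) (f : ℤ[X]),
    1 ≤ H → f.natDegree = d → (f.map (Int.castRingHom ℚ)).Separable → (∀ i, |f.coeff i| ≤ H) →
    ∀ s : Finset ℤ, (∀ x ∈ s, (2 * H : ℤ) ^ M < |x|) →
    (∀ x ∈ s, ∀ x' ∈ s, ∃ B : ℚ[X], f.map (Int.castRingHom ℚ) ∣
      B ^ 2 - (C (x : ℚ) - X) * (C (x' : ℚ) - X)) → s.card ≤ N := by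
  classical
  obtain ⟨Mf, Nf, hf⟩ := hF d hd
  obtain ⟨Mg, hg⟩ := hGAP d hd
  refine ⟨Mg + 2, Nf + 3 * Mf * 2 ^ d, ?_⟩
  intro H f hH hdeg hsep hcoef s hs hcl
  rcases s.eq_empty_or_nonempty with rfl | hne
  · simp
  obtain ⟨x₀, hx₀, hmin⟩ := Finset.exists_min_image s (fun x => |x|) hne
  obtain ⟨X₀, hX₀⟩ : ∃ X₀ : ℕ, (X₀ : ℤ) = |x₀| := ⟨x₀.natAbs, Int.natCast_natAbs x₀⟩
  have hH2 : (2 : ℤ) ≤ 2 * H := by
    have : (1 : ℤ) ≤ H := by exact_mod_cast hH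
    omega
  have hX1 : (2 * H : ℤ) ^ (Mg + 2) < X₀ := by rw [hX₀]; exact hs x₀ hx₀
  have hX2 : (2 * H : ℤ) ^ 2 < X₀ :=
    lt_of_le_of_lt (pow_le_pow_right₀ (by omega) (by omega)) hX1
  have hX2' : (4 * H ^ 2 : ℤ) < X₀ := by
    calc (4 * H ^ 2 : ℤ) = (2 * H) ^ 2 := by ring
      _ < X₀ := hX2
  have hHX : (2 * H : ℤ) < X₀ := by
    refine lt_of_le_of_lt ?_ hX2
    nlinarith
  have hX₀2 : (2 : ℤ) ≤ X₀ := by omega
  have hf0 : f ≠ 0 := by
    rintro rfl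
    rw [natDegree_zero] at hdeg
    omega
  have hlc : f.leadingCoeff ≠ 0 := leadingCoeff_ne_zero.2 hf0
  -- the large points
  have hbig : (s.filter fun x => (X₀ : ℤ) ^ (3 * Mf) < |x|).card ≤ Nf := by
    apply hf (X₀ ^ 2) f (C ((f.leadingCoeff : ℚ) ^ 2) * (C (x₀ : ℚ) - X))
    · have : 1 ≤ X₀ := by omega
      exact Nat.one_le_pow _ _ (by omega)
    · exact hdeg
    · exact hsep
    · intro i
      refine (hcoef i).trans ?_
      push_cast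
      nlinarith
    · intro θ hθ
      have hθb := root_bound f H hf0 hcoef hH θ hθ
      have h5 : IsIntegral ℤ ((f.leadingCoeff : ℂ) * θ) := by
        have := isIntegral_leadingCoeff_smul f θ hθ
        rwa [zsmul_eq_mul] at this
      have hz : ∀ n : ℤ, IsIntegral ℤ (n : ℂ) := fun n => isIntegral_algebraMap (R := ℤ) (x := n)
      have he : aeval θ (C ((f.leadingCoeff : ℚ) ^ 2) * (C (x₀ : ℚ) - X)) =
          (f.leadingCoeff : ℂ) ^ 2 * (x₀ - θ) := by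
        simp
      have hx0R : ‖(x₀ : ℂ)‖ = (X₀ : ℝ) := by
        rw [Complex.norm_intCast]
        have : ((X₀ : ℤ) : ℝ) = ((|x₀| : ℤ) : ℝ) := by rw [hX₀]
        push_cast at this
        rw [this]
      have hHXR : ((2 * H : ℕ) : ℝ) < X₀ := by
        have : 2 * H < X₀ := by exact_mod_cast hHX
        exact_mod_cast this
      rw [he]
      refine ⟨?_, ?_, ?_⟩
      · have : (f.leadingCoeff : ℂ) ^ 2 * (x₀ - θ) = ((f.leadingCoeff : ℤ) : ℂ) *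
            (((f.leadingCoeff : ℤ) : ℂ) * ((x₀ : ℤ) : ℂ) - (f.leadingCoeff : ℂ) * θ) := by ring
        rw [this]
        exact (hz _).mul (((hz _).mul (hz _)).sub h5)
      · apply mul_ne_zero
        · apply pow_ne_zero
          exact_mod_cast hlc
        · intro h
          have h1 : (x₀ : ℂ) = θ := sub_eq_zero.1 h
          rw [← h1, hx0R] at hθb
          linarith
      · rw [norm_mul, norm_pow, Complex.norm_intCast]
        have h1 : |(f.leadingCoeff : ℝ)| ≤ H := by exact_mod_cast hcoef f.natDegree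
        have h2 : ‖(x₀ : ℂ) - θ‖ ≤ 2 * (X₀ : ℝ) := by
          calc ‖(x₀ : ℂ) - θ‖ ≤ ‖(x₀ : ℂ)‖ + ‖θ‖ := norm_sub_le _ _
            _ ≤ (X₀ : ℝ) + (X₀ : ℝ) := by rw [hx0R]; linarith
            _ = 2 * (X₀ : ℝ) := by ring
        have h3 : (4 * (H : ℝ) ^ 2) < (X₀ : ℝ) := by exact_mod_cast hX2'
        have h4 : |(f.leadingCoeff : ℝ)| ^ 2 ≤ (H : ℝ) ^ 2 := by gcongr
        have h5 : (0 : ℝ) ≤ (X₀ : ℝ) := by positivity
        calc |(f.leadingCoeff : ℝ)| ^ 2 * ‖(x₀ : ℂ) - θ‖ ≤ (H : ℝ) ^ 2 * (2 * (X₀ : ℝ)) := by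
              gcongr
          _ ≤ (X₀ : ℝ) * (X₀ : ℝ) := by nlinarith [sq_nonneg (H : ℝ)]
          _ = ((X₀ ^ 2 : ℕ) : ℝ) := by push_cast; ring
    · intro x hx
      rw [Finset.mem_filter] at hx
      refine ⟨?_, ?_⟩
      · refine lt_of_le_of_lt ?_ hx.2
        rw [pow_mul]
        apply pow_le_pow_left₀ (by positivity)
        push_cast
        nlinarith
      · obtain ⟨B, hB⟩ := hcl x₀ hx₀ x hx.1
        refine ⟨C (f.leadingCoeff : ℚ) * B, ?_⟩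
        have : (C (f.leadingCoeff : ℚ) * B) ^ 2 - C ((f.leadingCoeff : ℚ) ^ 2) *
            (C (x₀ : ℚ) - X) * (C (x : ℚ) - X) = C ((f.leadingCoeff : ℚ) ^ 2) *
              (B ^ 2 - (C (x₀ : ℚ) - X) * (C (x : ℚ) - X)) := by
          rw [C_pow]
          ring
        rw [this]
        exact Dvd.dvd.mul_left hB _
  -- the windows
  have hwin : ∀ k : ℕ, (s.filter fun x => (X₀ : ℤ) ^ (2 ^ k) ≤ |x| ∧
      |x| < (X₀ : ℤ) ^ (2 ^ (k + 1))).card ≤ 2 ^ d := by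
    intro k
    by_contra hc
    rw [not_le] at hc
    obtain ⟨t, ht, htc⟩ := Finset.exists_subset_card_eq (Nat.succ_le_of_lt hc)
    let e := t.equivFinOfCardEq htc
    obtain ⟨a, b, hab, h1⟩ := hg H f hH hdeg hsep hcoef (fun i => ((e.symm i : t) : ℤ))
      (fun i j h => e.symm.injective (Subtype.ext h))
      (fun i => by
        have h2 := Finset.mem_filter.1 (ht (e.symm i).2)
        exact lt_of_le_of_lt (pow_le_pow_right₀ (by omega) (by omega)) (hs _ h2.1))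
      (fun i => hcl _ (Finset.mem_filter.1 (ht (e.symm 0).2)).1 _
        (Finset.mem_filter.1 (ht (e.symm i).2)).1)
    have h2 := (Finset.mem_filter.1 (ht (e.symm a).2)).2.1
    have h3 := (Finset.mem_filter.1 (ht (e.symm b).2)).2.2
    have h4 : (X₀ : ℤ) ^ (2 ^ (k + 1)) ≤ |((e.symm a : t) : ℤ)| ^ 2 := by
      rw [pow_succ 2 k, pow_mul]
      exact pow_le_pow_left₀ (by positivity) h2 2
    exact absurd (h4.trans h1) (not_le.2 h3)
  have hsub : s ⊆ (s.filter fun x => (X₀ : ℤ) ^ (3 * Mf) < |x|) ∪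
      (Finset.range (3 * Mf)).biUnion fun k => s.filter fun x => (X₀ : ℤ) ^ (2 ^ k) ≤ |x| ∧
        |x| < (X₀ : ℤ) ^ (2 ^ (k + 1)) := by
    intro x hx
    rw [Finset.mem_union]
    by_cases h : (X₀ : ℤ) ^ (3 * Mf) < |x|
    · exact Or.inl (Finset.mem_filter.2 ⟨hx, h⟩)
    · right
      rw [not_lt] at h
      have h1 : |x| < (X₀ : ℤ) ^ (2 ^ (3 * Mf)) :=
        lt_of_le_of_lt h (pow_lt_pow_right₀ (by omega) Nat.lt_two_pow_self)
      obtain ⟨k, hk, h2, h3⟩ := window X₀ |x| (3 * Mf) (by rw [hX₀]; exact hmin x hx) h1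
      exact Finset.mem_biUnion.2 ⟨k, Finset.mem_range.2 hk, Finset.mem_filter.2 ⟨hx, h2, h3⟩⟩
  refine (Finset.card_le_card hsub).trans ((Finset.card_union_le _ _).trans ?_)
  apply Nat.add_le_add hbig
  refine Finset.card_biUnion_le.trans ?_
  calc ∑ k ∈ Finset.range (3 * Mf), (s.filter fun x => (X₀ : ℤ) ^ (2 ^ k) ≤ |x| ∧
        |x| < (X₀ : ℤ) ^ (2 ^ (k + 1))).card ≤ ∑ _k ∈ Finset.range (3 * Mf), 2 ^ d :=
        Finset.sum_le_sum fun k _ => hwin k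
    _ = 3 * Mf * 2 ^ d := by simp

end Pool.Agent.Y910.F
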