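import Pool.Agent.Y910.A.A11
import Pool.Agent.Y910.F.F2

/-!
One constant for each subfield of degree at least three.
-/

open Polynomial Finset NumberField IntermediateField

set_option autoImplicit false

namespace Pool.Agent.Y910.F

open Pool.Agent.H322R2 Pool.Agent.Y910.S Pool.Agent.Y910.G Pool.Agent.Y910.A

theorem field_const (M : ℕ) : ∃ K : ℕ, ∀ k : IntermediateField ℚ ℝ, 3 ≤ Module.finrank ℚ k →
    ∃ c : ℝ, 1 ≤ c ∧ ∀ (l m : ℝ) (K₁ : IntermediateField ℚ ℝ), 2 ≤ l → Near M l m K₁ → k ≤ K₁ →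
      m ≤ (c * l) ^ K := by
  obtain ⟨K, hK⟩ := repel_near M
  refine ⟨K, ?_⟩
  intro k hk
  by_cases hex : ∃ (l₁ m₁ : ℝ) (K₁ : IntermediateField ℚ ℝ), 2 ≤ l₁ ∧ Near M l₁ m₁ K₁ ∧ k ≤ K₁ ∧
      l₁ ^ K < m₁
  · obtain ⟨l₁, m₁, K₁, hl₁, hn₁, hk₁, hbig⟩ := hex
    have h1 : (1 : ℝ) ≤ l₁ ^ K := one_le_pow₀ (by linarith)
    refine ⟨m₁, by linarith, ?_⟩
    intro l m K₂ hl hn hk₂
    have hfd₁ : FiniteDimensional ℚ K₁ := by
      obtain ⟨N, r, hN, hr, hNM, hrM, hnf, h⟩ := hn₁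
      exact hnf.to_finiteDimensional
    have hfd : FiniteDimensional ℚ K₂ := by
      obtain ⟨N, r, hN, hr, hNM, hrM, hnf, h⟩ := hn
      exact hnf.to_finiteDimensional
    have hdeg := Pool.Agent.W571.ESG.main_fld k K₁ K₂ hk₁ hk₂ hfd₁ hfd
    have h3 : 3 * Module.finrank ℚ ↥(K₁ ⊔ K₂)
        ≤ Module.finrank ℚ K₁ * Module.finrank ℚ K₂ := by
      refine le_trans ?_ hdeg
      rw [mul_comm]
      exact Nat.mul_le_mul_left _ hk
    exact hK hl₁ hl hn₁ hbig hn h3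
  · refine ⟨1, le_rfl, ?_⟩
    intro l m K₂ hl hn hk₂
    by_contra hcon
    push Not at hcon
    rw [one_mul] at hcon
    exact hex ⟨l, m, K₂, hl, hn, hk₂, hcon⟩

/-- one constant for a finite set of fields -/
theorem finite_const (M : ℕ) : ∃ K : ℕ, ∀ s : Set (IntermediateField ℚ ℝ), s.Finite →
    ∃ c : ℝ, 1 ≤ c ∧ ∀ k ∈ s, 3 ≤ Module.finrank ℚ k →
      ∀ (l m : ℝ) (K₁ : IntermediateField ℚ ℝ), 2 ≤ l → Near M l m K₁ → k ≤ K₁ →
      m ≤ (c * l) ^ K := by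
  obtain ⟨K, hK⟩ := field_const M
  refine ⟨K, ?_⟩
  intro s hs
  induction s, hs using Set.Finite.induction_on with
  | empty => exact ⟨1, le_rfl, fun k hk => absurd hk (Set.notMem_empty k)⟩
  | @insert x s hx _ ih =>
    obtain ⟨c, hc, h1⟩ := ih
    by_cases h3 : 3 ≤ Module.finrank ℚ x
    · obtain ⟨c', hc', h2⟩ := hK x h3
      refine ⟨max c c', le_max_of_le_left hc, ?_⟩
      intro k hk hk3 l m K₁ hl hn hle
      rcases Set.mem_insert_iff.1 hk with rfl | hk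
      · refine (h2 l m K₁ hl hn hle).trans ?_
        apply pow_le_pow_left₀ (by positivity)
        exact mul_le_mul_of_nonneg_right (le_max_right _ _) (by linarith)
      · refine (h1 k hk hk3 l m K₁ hl hn hle).trans ?_
        apply pow_le_pow_left₀ (by positivity)
        exact mul_le_mul_of_nonneg_right (le_max_left _ _) (by linarith)
    · refine ⟨c, hc, ?_⟩
      intro k hk hk3 l m K₁ hl hn hle
      rcases Set.mem_insert_iff.1 hk with rfl | hk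
      · exact absurd hk3 h3
      · exact h1 k hk hk3 l m K₁ hl hn hle

/-- from `Big` to `Near` -/
lemma near_of_big {M T : ℕ} {x y : ℤ} {K : IntermediateField ℚ ℝ} (hT : 2 ≤ T)
    (hy : |(y : ℝ)| ≤ T * max 1 |(x : ℝ)|) (h : Big M T x y K) :
    Near M ((T : ℝ) ^ 3) (1 + |(x : ℝ)|) K := by
  obtain ⟨N, r, hN, hr, hNM, hrM, hnf, G, a, b, α, B, h1, h2, h3, h4, h5, h6, h7, h8, ⟨Q⟩, h9,
    h10⟩ := h
  have hT2 : (2 : ℝ) ≤ T := by exact_mod_cast hT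
  have hT1 : (1 : ℝ) ≤ T := by linarith
  have hT3 : (T : ℝ) ≤ (T : ℝ) ^ 3 := le_self_pow₀ hT1 (by norm_num)
  have ha := Q.a_ge
  have hx0 := abs_nonneg (x : ℝ)
  have hp : (T : ℝ) ^ M ≤ ((T : ℝ) ^ 3) ^ M := pow_le_pow_left₀ (by linarith) hT3 _
  refine ⟨N, r, hN, hr, hNM, hrM, hnf, G, a, b, α, B, h1, h2, h3.trans hp, h4.trans hp, h5, h6, h7,
    h8, ⟨Q⟩, ?_, ?_⟩
  · have h11 : |(x : ℝ)| ≤ |(a : ℝ)| ^ M := by exact_mod_cast h9
    have h12 : (1 : ℝ) ≤ |(a : ℝ)| ^ M := one_le_pow₀ (by linarith)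
    have h13 : (2 : ℝ) ≤ ((T : ℝ) ^ 3) ^ M := by
      calc (2 : ℝ) ≤ T := hT2
        _ ≤ (T : ℝ) ^ 3 := hT3
        _ ≤ _ := le_self_pow₀ (by linarith) (by omega)
    rw [mul_pow]
    nlinarith
  · refine h10.trans ?_
    apply pow_le_pow_left₀ (by positivity)
    have h11 : max 1 |(x : ℝ)| ≤ 1 + |(x : ℝ)| := max_le (by linarith) (by linarith)
    have h12 : |(y : ℝ)| ≤ T * (1 + |(x : ℝ)|) := hy.trans
      (mul_le_mul_of_nonneg_left h11 (by linarith))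
    have h13 : (T : ℝ) * (1 + |(x : ℝ)| + |(y : ℝ)|) ≤
        T * ((1 + |(x : ℝ)|) + T * (1 + |(x : ℝ)|)) :=
      mul_le_mul_of_nonneg_left (by linarith) (by linarith)
    refine h13.trans ?_
    have h14 : (T : ℝ) * ((1 + |(x : ℝ)|) + T * (1 + |(x : ℝ)|)) =
        (T * (1 + T)) * (1 + |(x : ℝ)|) := by ring
    rw [h14]
    apply mul_le_mul_of_nonneg_right _ (by linarith)
    nlinarith [mul_self_nonneg ((T : ℝ) - 2), sq_nonneg (T : ℝ)]

end Pool.Agent.Y910.F
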