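import Pool.Agent.Y910.F.F4
import Pool.Agent.Y910.F.Stm2

/-!
The curve for one datum, with the residue field at infinity.
-/

open Polynomial IntermediateField

set_option autoImplicit false

namespace Pool.Agent.Y910.F

open Pool.Agent.H322R2 Pool.Agent.Y910.G Pool.Agent.Y910.R Pool.Agent.Y910.E

theorem singleK (hSG : StSG) (hFLIP : StFLIP) (hIRR : StIRR) (hPL2 : StPL2) {d : ℕ}
    (θ u : Fin d → ℂ) (hθ : Function.Injective θ) (hu : ∀ i, u i ≠ 0)
    (F : ℤ[X][X]) (hFm : F.Monic) (hFd : F.natDegree = 2 ^ d)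
    (hF : F.map (mapRingHom (Int.castRingHom ℂ)) =
      sg (List.ofFn fun i => C (u i) * (X - C (θ i)))) :
    Prime F ∧ ∃ (L : Type) (_ : Field L) (_ : Algebra ℚ L) (α β : L), ev α β F = 0 ∧
      Transcendental ℚ α ∧
      (∀ z : L, ∃ w1 ∈ Algebra.adjoin ℚ {α, β}, ∃ w2 ∈ Algebra.adjoin ℚ {α, β},
        w2 ≠ 0 ∧ w2 * z = w1) ∧
      ∀ A : ValuationSubring L, (∀ A' : ValuationSubring L,
        ((∀ q : ℚ, algebraMap ℚ L q ∈ A') ∧ ¬ (α ∈ A' ∧ β ∈ A')) ↔ A' = A) →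
      ∀ g : ℚ[X], g.Monic → Irreducible g →
        Nonempty (IsLocalRing.ResidueField A ≃+* AdjoinRoot g) → ∀ η : ℝ, aeval η g = 0 →
        ∃ ρ ∈ ℚ⟮η⟯, ∃ c : Fin d → ℂ, (∀ i, c i ^ 2 = u i) ∧
          ∀ ε : Fin d → ℤ, (∀ i, ε i = 1 ∨ ε i = -1) →
            aeval ((∑ i, (ε i : ℂ) * c i) ^ 2) (minpoly ℚ ρ) = 0 := by
  let K := FractionRing ℂ[X]
  let Ω := AlgebraicClosure K
  let φ : ℂ[X] →+* Ω := (algebraMap K Ω).comp (algebraMap ℂ[X] K)
  have hφ : Function.Injective φ :=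
    (algebraMap K Ω).injective.comp (IsFractionRing.injective ℂ[X] K)
  have hsq : ∀ i, ∃ t : Ω, t ^ 2 = φ (C (u i) * (X - C (θ i))) := fun i =>
    IsAlgClosed.exists_pow_nat_eq _ (by norm_num)
  choose t ht using hsq
  have ht0 : ∀ i, t i ≠ 0 := by
    intro i h
    have h1 := ht i
    rw [h, zero_pow two_ne_zero] at h1
    have h2 : C (u i) * (X - C (θ i)) = 0 := hφ (by rw [← h1, map_zero])
    rcases mul_eq_zero.1 h2 with h3 | h3
    · exact hu i (C_eq_zero.1 h3)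
    · exact X_sub_C_ne_zero _ h3
  have hflips : HasFlips (K := K) t := hFLIP K Ω d θ u t hθ hu ht
  have hroot : F.eval₂ (φ.comp (mapRingHom (Int.castRingHom ℂ))) (∑ i, t i) = 0 :=
    root_sum hSG F _ hF φ t ht
  have hprime : Prime F := hIRR K Ω d t ht0 hflips F hFm hFd hroot
  refine ⟨hprime, ?_⟩
  have hchar : CharZero Ω := by
    have h1 : CharZero ℂ[X] := inferInstance
    exact charZero_of_injective_ringHom hφ
  obtain ⟨α, β, hα, hβ, hgenL⟩ := gen_field (φ X) (∑ i, t i)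
  refine ⟨IntermediateField.adjoin ℚ ({φ X, ∑ i, t i} : Set Ω), inferInstance, inferInstance,
    α, β, ?_, ?_, hgenL, ?_⟩
  · apply (algebraMap (IntermediateField.adjoin ℚ ({φ X, ∑ i, t i} : Set Ω)) Ω).injective
    rw [map_ev, map_zero]
    change ev (α : Ω) (β : Ω) F = 0
    rw [hα, hβ, ev_apply]
    have h1 : evf (φ X) = φ.comp (mapRingHom (Int.castRingHom ℂ)) := by
      apply Polynomial.ringHom_ext'
      · exact RingHom.ext_int _ _
      · simp
    rw [h1]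
    exact hroot
  · rw [transcendental_iff]
    intro p hp
    have h1 : aeval (φ X) p = 0 := by
      have h2 := congrArg
        (algebraMap (IntermediateField.adjoin ℚ ({φ X, ∑ i, t i} : Set Ω)) Ω) hp
      rw [map_zero, ← aeval_algebraMap_apply] at h2
      change aeval (α : Ω) p = 0 at h2
      rw [hα] at h2
      exact h2
    have h2 : φ (p.map (algebraMap ℚ ℂ)) = 0 := by
      rw [← h1, aeval_def]
      have h3 : (φ.comp (mapRingHom (algebraMap ℚ ℂ))) = eval₂RingHom (algebraMap ℚ Ω) (φ X) := by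
        apply Polynomial.ringHom_ext'
        · exact Subsingleton.elim _ _
        · simp
      exact RingHom.congr_fun h3 p
    have h4 : p.map (algebraMap ℚ ℂ) = 0 := hφ (by rw [h2, map_zero])
    exact (Polynomial.map_eq_zero_iff (algebraMap ℚ ℂ).injective).1 h4
  · intro A hA g hg hgi he η hη
    exact hPL2 K Ω d θ u t hu ht hflips _ (algebraMap _ Ω) α β hα hβ A hA g hg hgi he η hη

theorem cdata (hSG : StSG) (hINT : StINT) (hGEN : StGEN) (d : ℕ) (hd : 3 ≤ d) (i0 i1 : Fin d)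
    (hi : i0.1 = 0 ∧ i1.1 = 1) : ∃ m2 : ℕ, 1 ≤ m2 ∧
    ∀ (H : ℕ) (g : ℤ[X]) (D : ℚ[X]), 1 ≤ H → g.natDegree = d →
    (g.map (Int.castRingHom ℚ)).Separable → (∀ i, |g.coeff i| ≤ H) →
    (∀ θ : ℂ, aeval θ g = 0 → IsIntegral ℤ (aeval θ D) ∧ aeval θ D ≠ 0 ∧ ‖aeval θ D‖ ≤ H) →
    ∃ (m : ℕ) (θ u : Fin d → ℂ) (F : ℤ[X][X]), Function.Injective θ ∧
      (∀ i, aeval (θ i) g = 0) ∧ (∀ F : ℂ → ℂ, ∑ i, F (θ i) =
        ∑ r ∈ ((g.map (Int.castRingHom ℚ)).map (algebraMap ℚ ℂ)).roots.toFinset, F r) ∧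
      (∀ i, u i ≠ 0) ∧ (∀ i, u i = wt d m (θ i) ^ 2 *
        ((g.leadingCoeff : ℂ) ^ (2 * d) * aeval (θ i) D)) ∧
      (∀ c : Fin d → ℂ, (∀ i, c i ^ 2 = u i) →
        (∑ i, c i) ^ 2 ≠ (∑ i, c i - 2 * c i0) ^ 2 ∧ (∑ i, c i) ^ 2 ≠ (∑ i, c i - 2 * c i1) ^ 2 ∧
        (∑ i, c i - 2 * c i0) ^ 2 ≠ (∑ i, c i - 2 * c i1) ^ 2) ∧
      F.Monic ∧ F.natDegree = 2 ^ d ∧ F.map (mapRingHom (Int.castRingHom ℂ)) =
        sg (List.ofFn fun i => C (u i) * (X - C (θ i))) ∧
      (∀ j, (F.coeff j).natDegree + j ≤ 2 ^ d ∨ F.coeff j = 0) ∧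
      pn (pn zn) F ≤ (((2 * H) ^ m2 : ℕ) : ℝ) := by
  classical
  by_contra hcon
  push Not at hcon
  choose H g D hH hdeg hsep hcoef hD hno using fun M : ℕ => hcon (M + 1) (by omega)
  let i2 : Fin d := ⟨2, by omega⟩
  obtain ⟨M0, hM0⟩ := hGEN d i0 i1 i2 (by intro h; rw [h] at hi; omega)
    (by intro h; rw [h] at hi; exact absurd hi.1 (by simp [i2]))
    (by intro h; rw [h] at hi; exact absurd hi.2 (by simp [i2]))
  let S : Sca := ⟨fun n => 2 * H n, fun n => by have := hH n; omega⟩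
  choose θ hθi hθ0 hθs using fun n => exists_enum (g n) (hsep n) d (hdeg n)
  have hg0 : ∀ n, g n ≠ 0 := by
    intro n h
    have := hdeg n
    rw [h, natDegree_zero] at this
    omega
  have hlc : ∀ n, (g n).leadingCoeff ≠ 0 := fun n => leadingCoeff_ne_zero.2 (hg0 n)
  have hsq : ∀ n i, ∃ v : ℂ, v ^ 2 = ((g n).leadingCoeff : ℂ) ^ (2 * d) * aeval (θ n i) (D n) :=
    fun n i => IsAlgClosed.exists_pow_nat_eq _ (by norm_num)
  choose v hv using hsq
  have hv0 : ∀ n i, v n i ≠ 0 := by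
    intro n i h
    have h1 := hv n i
    rw [h, zero_pow two_ne_zero] at h1
    have h2 : ((g n).leadingCoeff : ℂ) ≠ 0 := by exact_mod_cast hlc n
    exact mul_ne_zero (pow_ne_zero _ h2) (hD n _ (hθ0 n i)).2.1 h1.symm
  choose m hm hwt hgen using fun n => hM0 (θ n) (v n) (hθi n) (hv0 n)
  -- the numbers u
  obtain ⟨u, hu⟩ : ∃ u : ℕ → Fin d → ℂ, ∀ n i, u n i = (wt d (m n) (θ n i) * v n i) ^ 2 :=
    ⟨_, fun _ _ => rfl⟩
  have hu2 : ∀ n i, u n i = wt d (m n) (θ n i) ^ 2 *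
      (((g n).leadingCoeff : ℂ) ^ (2 * d) * aeval (θ n i) (D n)) := by
    intro n i
    rw [hu, mul_pow, hv]
  have hu0 : ∀ n i, u n i ≠ 0 := fun n i => by
    rw [hu]; exact pow_ne_zero _ (mul_ne_zero (hwt n i) (hv0 n i))
  -- the integral polynomials
  have hF : ∀ n, ∃ F : ℤ[X][X], F.Monic ∧ F.natDegree = 2 ^ d ∧
      F.map (mapRingHom (Int.castRingHom ℂ)) =
        sg (List.ofFn fun i => C (u n i) * (X - C (θ n i))) := by
    intro n
    obtain ⟨Q, hQ⟩ : ∃ Q : ℚ[X], Q = wp d (m n) ^ 2 *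
      (C (((g n).leadingCoeff : ℚ) ^ (2 * d)) * D n) := ⟨_, rfl⟩
    have hQu : ∀ i, aeval (θ n i) Q = u n i := by
      intro i
      rw [hu2, hQ, map_mul, map_pow, wp_eval, map_mul, aeval_C]
      simp
    have h5 : ∀ i, IsIntegral ℤ (((g n).leadingCoeff : ℂ) * θ n i) := by
      intro i
      have := isIntegral_leadingCoeff_smul (g n) (θ n i) (hθ0 n i)
      rwa [zsmul_eq_mul] at this
    have hz : ∀ n : ℤ, IsIntegral ℤ (n : ℂ) := fun n => isIntegral_algebraMap (R := ℤ) (x := n)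
    obtain ⟨e, he⟩ : ∃ e, d = e + 1 := ⟨d - 1, by omega⟩
    have h8 : ∀ i, IsIntegral ℤ (((g n).leadingCoeff : ℂ) ^ e * wt d (m n) (θ n i)) := by
      intro i
      rw [wt, Finset.mul_sum]
      apply IsIntegral.sum
      intro l hl
      rw [Finset.mem_range] at hl
      have h9 : ((g n).leadingCoeff : ℂ) ^ e * ((m n : ℂ) ^ l * θ n i ^ l) =
          (((g n).leadingCoeff : ℤ) : ℂ) ^ (e - l) * ((m n : ℤ) : ℂ) ^ l *
            (((g n).leadingCoeff : ℂ) * θ n i) ^ l := by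
        have : e = (e - l) + l := by omega
        conv_lhs => rw [this]
        rw [pow_add, mul_pow]
        push_cast
        ring
      rw [h9]
      exact (((hz _).pow _).mul ((hz _).pow _)).mul ((h5 i).pow _)
    obtain ⟨F, h1, h2, h3⟩ := hINT d (g n) (hdeg n) (hsep n) (θ n) (hθi n) (hθ0 n) Q
      (fun i => by
        rw [hQu, hu2]
        have : wt d (m n) (θ n i) ^ 2 * (((g n).leadingCoeff : ℂ) ^ (2 * d) *
            aeval (θ n i) (D n)) = (((g n).leadingCoeff : ℂ) ^ e * wt d (m n) (θ n i)) ^ 2 *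
              ((((g n).leadingCoeff : ℤ) : ℂ) ^ 2 * aeval (θ n i) (D n)) := by
          have h10 : ((g n).leadingCoeff : ℂ) ^ (2 * d)
              = (((g n).leadingCoeff : ℂ) ^ e) ^ 2 * ((g n).leadingCoeff : ℂ) ^ 2 := by
            rw [← pow_mul, ← pow_add]
            congr 1
            omega
          rw [h10]
          ring
        rw [this]
        exact ((h8 i).pow 2).mul (((hz _).pow 2).mul (hD n _ (hθ0 n i)).1))
      (fun i => by
        rw [hQu, hu2]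
        have : wt d (m n) (θ n i) ^ 2 * (((g n).leadingCoeff : ℂ) ^ (2 * d) *
            aeval (θ n i) (D n)) * θ n i =
              (((g n).leadingCoeff : ℂ) ^ e * wt d (m n) (θ n i)) ^ 2 *
              ((((g n).leadingCoeff : ℤ) : ℂ) * aeval (θ n i) (D n) *
                (((g n).leadingCoeff : ℂ) * θ n i)) := by
          have h10 : ((g n).leadingCoeff : ℂ) ^ (2 * d)
              = (((g n).leadingCoeff : ℂ) ^ e) ^ 2 * ((g n).leadingCoeff : ℂ) ^ 2 := by
            rw [← pow_mul, ← pow_add]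
            congr 1
            omega
          rw [h10]
          ring
        rw [this]
        exact ((h8 i).pow 2).mul (((hz _).mul (hD n _ (hθ0 n i)).1).mul (h5 i)))
    refine ⟨F, h1, h2, ?_⟩
    rw [h3]
    congr 2
    ext1 i
    rw [hQu]
  choose F hFm hFd hFs using hF
  -- bounded sequences
  have hθB : ∀ i, (fun n => θ n i) ∈ BB S := by
    intro i
    refine ⟨1, fun n => ?_⟩
    rw [pow_one]
    exact root_bound (g n) (H n) (hg0 n) (hcoef n) (hH n) _ (hθ0 n i)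
  have hHT : ∀ n, (H n : ℝ) ≤ (S.T n : ℝ) ^ 1 := by
    intro n
    rw [pow_one]
    change (H n : ℝ) ≤ ((2 * H n : ℕ) : ℝ)
    push_cast
    have : (0 : ℝ) ≤ H n := by positivity
    linarith
  have hDB : ∀ i, (fun n => aeval (θ n i) (D n)) ∈ BB S := fun i =>
    ⟨1, fun n => ((hD n _ (hθ0 n i)).2.2).trans (hHT n)⟩
  have haB : (fun n => ((g n).leadingCoeff : ℂ)) ∈ BB S := by
    refine ⟨1, fun n => ?_⟩
    rw [Complex.norm_intCast]
    refine le_trans ?_ (hHT n)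
    exact_mod_cast hcoef n (g n).natDegree
  have hmB : (fun n => (m n : ℂ)) ∈ BB S := by
    refine ⟨M0, fun n => ?_⟩
    rw [Complex.norm_natCast]
    have h1 : m n ≤ 2 ^ M0 := (hm n).trans (Nat.lt_two_pow_self).le
    have h2 : 2 ^ M0 ≤ S.T n ^ M0 := Nat.pow_le_pow_left (S.hT n) _
    exact_mod_cast h1.trans h2
  have huB : ∀ i, (fun n => u n i) ∈ BB S := by
    intro i
    have h1 : (fun n => u n i) = (∑ l ∈ Finset.range d, (fun n => (m n : ℂ)) ^ l *
        (fun n => θ n i) ^ l) ^ 2 * ((fun n => ((g n).leadingCoeff : ℂ)) ^ (2 * d) *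
          (fun n => aeval (θ n i) (D n))) := by
      ext n
      rw [hu2, wt]
      simp only [Pi.mul_apply, Pi.pow_apply, Finset.sum_apply]
    rw [h1]
    exact mul_mem (pow_mem (sum_mem fun l _ => mul_mem (pow_mem hmB _) (pow_mem (hθB i) _)) _)
      (mul_mem (pow_mem haB _) (hDB i))
  obtain ⟨m1, hm1⟩ := coeff_bound hSG S u θ huB hθB
  -- norms
  obtain ⟨m2, hm2⟩ : ∃ m2, m2 = m1 + 2 * (d + 1) := ⟨_, rfl⟩
  have hFc : ∀ n i j, (((F n).coeff j).coeff i : ℂ) =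
      ((sg (List.ofFn fun i => C (u n i) * (X - C (θ n i)))).coeff j).coeff i := by
    intro n i j
    rw [← hFs n, coeff_map, coe_mapRingHom, coeff_map]
    rfl
  have hFdeg : ∀ n j, ((F n).coeff j).natDegree ≤ 2 ^ d := by
    intro n j
    have h1 : ((F n).coeff j).natDegree =
        ((sg (List.ofFn fun i => C (u n i) * (X - C (θ n i)))).coeff j).natDegree := by
      rw [← hFs n, coeff_map, coe_mapRingHom,
        natDegree_map_eq_of_injective (RingHom.injective_int _)]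
    rw [h1]
    have h2 := sg_coeff_natDegree (List.ofFn fun i => C (u n i) * (X - C (θ n i))) (by
      intro w hw
      rw [List.mem_ofFn] at hw
      obtain ⟨i, rfl⟩ := hw
      exact (natDegree_C_mul_le _ _).trans (natDegree_X_sub_C _).le) j
    rwa [List.length_ofFn] at h2
  have hpn : ∀ n, pn (pn zn) (F n) ≤ ((S.T n ^ m2 : ℕ) : ℝ) := by
    intro n
    refine (pn_le (F n) (2 ^ d) (2 ^ d) (hFd n).le (hFdeg n) ((S.T n : ℝ) ^ m1) ?_).trans ?_
    · intro i j
      have h1 := hm1 n i j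
      rw [← hFc n i j, Complex.norm_intCast] at h1
      exact h1
    · have h2 : ((2 ^ d + 1 : ℕ) : ℝ) ≤ (S.T n : ℝ) ^ (d + 1) := by
        have h3 : 2 ^ d + 1 ≤ 2 ^ (d + 1) := by
          rw [pow_succ]
          have : 1 ≤ 2 ^ d := Nat.one_le_two_pow
          omega
        have h4 : 2 ^ (d + 1) ≤ S.T n ^ (d + 1) := Nat.pow_le_pow_left (S.hT n) _
        exact_mod_cast h3.trans h4
      push_cast at h2 ⊢
      calc ((2 : ℝ) ^ d + 1) * ((2 ^ d + 1) * (S.T n : ℝ) ^ m1)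
          ≤ (S.T n : ℝ) ^ (d + 1) * ((S.T n : ℝ) ^ (d + 1) * (S.T n : ℝ) ^ m1) := by gcongr
        _ = (S.T n : ℝ) ^ m2 := by
            rw [hm2, ← pow_add, ← pow_add]
            congr 1
            omega
  have hwt2 : ∀ n j, ((F n).coeff j).natDegree + j ≤ 2 ^ d ∨ (F n).coeff j = 0 := by
    intro n j
    have h2 := Wt.sg (List.ofFn fun i => C (u n i) * (X - C (θ n i))) (by
      intro w hw
      rw [List.mem_ofFn] at hw
      obtain ⟨i, rfl⟩ := hw
      exact (natDegree_C_mul_le _ _).trans (natDegree_X_sub_C _).le) j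
    rw [List.length_ofFn, ← hFs n, coeff_map, coe_mapRingHom,
      natDegree_map_eq_of_injective (RingHom.injective_int _),
      Polynomial.map_eq_zero_iff (RingHom.injective_int _)] at h2
    exact h2
  have hpow : pn (pn zn) (F m2) ≤ (((2 * H m2) ^ (m2 + 1) : ℕ) : ℝ) := by
    refine (hpn m2).trans ?_
    have h1 : (2 * H m2) ^ m2 ≤ (2 * H m2) ^ (m2 + 1) :=
      Nat.pow_le_pow_right (by have := hH m2; omega) (by omega)
    have h2 : S.T m2 ^ m2 = (2 * H m2) ^ m2 := rfl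
    rw [h2]
    exact_mod_cast h1
  exact absurd hpow (not_le.2 (hno m2 (m m2) (θ m2) (u m2) (F m2) (hθi m2) (hθ0 m2) (hθs m2)
    (hu0 m2) (hu2 m2) (fun c hc => hgen m2 c (fun i => by rw [hc i, hu])) (hFm m2) (hFd m2)
    (hFs m2) (hwt2 m2)))

end Pool.Agent.Y910.F
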