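import Pool.Agent.Y910.F.K1
import Pool.Agent.Y910.F.K2

/-!
The framework over a fixed number field.
-/

open Polynomial IntermediateField

set_option autoImplicit false

namespace Pool.Agent.Y910.F

open Pool.Agent.H322R2 Pool.Agent.Y910.G Pool.Agent.Y910.R Pool.Agent.Y910.E Pool.Agent.Y910.A

/-- a root in a normal field -/
lemma mem_of_root (K : IntermediateField ℚ ℂ) [FiniteDimensional ℚ K] [IsGalois ℚ K] (ρ : ℝ)
    (hρ : IsIntegral ℚ ρ) (w : ℂ) (hw : w ∈ K) (h : aeval w (minpoly ℚ ρ) = 0) : (ρ : ℂ) ∈ K := by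
  have hmin : minpoly ℚ (⟨w, hw⟩ : K) = minpoly ℚ ρ := by
    symm
    apply minpoly.eq_of_irreducible_of_monic (minpoly.irreducible hρ) _ (minpoly.monic hρ)
    apply (algebraMap K ℂ).injective
    rw [map_zero, ← aeval_algebraMap_apply]
    exact h
  have hs := Normal.splits (inferInstance : Normal ℚ K) (⟨w, hw⟩ : K)
  rw [hmin] at hs
  have hr := hs.roots_map (algebraMap K ℂ)
  have h1 : (ρ : ℂ) ∈ (((minpoly ℚ ρ).map (algebraMap ℚ K)).map (algebraMap K ℂ)).roots := by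
    rw [Polynomial.map_map, ← IsScalarTower.algebraMap_eq ℚ K ℂ, mem_roots']
    refine ⟨(Polynomial.map_ne_zero_iff (algebraMap ℚ ℂ).injective).2 (minpoly.ne_zero hρ), ?_⟩
    rw [IsRoot.def, eval_map_algebraMap]
    have h2 := minpoly.aeval ℚ ρ
    have h3 := congrArg (algebraMap ℝ ℂ) h2
    rw [map_zero, ← aeval_algebraMap_apply] at h3
    exact h3
  rw [hr, Multiset.mem_map] at h1
  obtain ⟨r, _, h2⟩ := h1
  rw [← h2]
  exact r.2

/-- the field generated by a real number -/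
lemma field_mem (K : IntermediateField ℚ ℂ) (ρ : ℝ) (h : (ρ : ℂ) ∈ K) :
    ∀ z ∈ ℚ⟮ρ⟯, (z : ℂ) ∈ K := by
  intro z hz
  induction hz using IntermediateField.adjoin_induction with
  | mem x hx =>
    rw [Set.mem_singleton_iff.1 hx]
    exact h
  | algebraMap q =>
    have : (((algebraMap ℚ ℝ) q : ℝ) : ℂ) = algebraMap ℚ ℂ q := by simp
    rw [this]
    exact K.algebraMap_mem q
  | add x y _ _ h1 h2 =>
    rw [Complex.ofReal_add]
    exact add_mem h1 h2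
  | inv x _ h1 =>
    rw [Complex.ofReal_inv]
    exact inv_mem h1
  | mul x y _ _ h1 h2 =>
    rw [Complex.ofReal_mul]
    exact mul_mem h1 h2

/-- three roots -/
lemma three_roots (ρ : ℝ) (hρ : IsIntegral ℚ ρ) (s1 s2 s3 : ℂ) (h12 : s1 ≠ s2) (h13 : s1 ≠ s3)
    (h23 : s2 ≠ s3) (h1 : aeval s1 (minpoly ℚ ρ) = 0) (h2 : aeval s2 (minpoly ℚ ρ) = 0)
    (h3 : aeval s3 (minpoly ℚ ρ) = 0) : 3 ≤ Module.finrank ℚ ℚ⟮ρ⟯ := by
  classical
  rw [IntermediateField.adjoin.finrank hρ]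
  obtain ⟨p, hp⟩ : ∃ p, p = (minpoly ℚ ρ).map (algebraMap ℚ ℂ) := ⟨_, rfl⟩
  have hp0 : p ≠ 0 := by
    rw [hp]; exact (Polynomial.map_ne_zero_iff (algebraMap ℚ ℂ).injective).2 (minpoly.ne_zero hρ)
  have hsub : ({s1, s2, s3} : Finset ℂ) ⊆ p.roots.toFinset := by
    intro s hs
    rw [Multiset.mem_toFinset, mem_roots', hp, IsRoot.def, eval_map_algebraMap]
    refine ⟨by rw [← hp]; exact hp0, ?_⟩
    simp only [Finset.mem_insert, Finset.mem_singleton] at hs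
    rcases hs with rfl | rfl | rfl
    · exact h1
    · exact h2
    · exact h3
  have hcard : ({s1, s2, s3} : Finset ℂ).card = 3 := by
    rw [Finset.card_insert_of_notMem (by simp [h12, h13]), Finset.card_insert_of_notMem
      (by simp [h23]), Finset.card_singleton]
  calc 3 = ({s1, s2, s3} : Finset ℂ).card := hcard.symm
    _ ≤ p.roots.toFinset.card := Finset.card_le_card hsub
    _ ≤ Multiset.card p.roots := Multiset.toFinset_card_le _
    _ ≤ p.natDegree := card_roots' p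
    _ = (minpoly ℚ ρ).natDegree := by rw [hp, natDegree_map]

theorem frameK (hSG : StSG) (hINT : StINT) (hFLIP : StFLIP) (hIRR : StIRR) (hPL2 : StPL2)
    (hGEN : StGEN) (hFIN : StFIN) (d : ℕ) (hd : 3 ≤ d) : ∃ M : ℕ, ∀ (K : IntermediateField ℚ ℂ)
    [FiniteDimensional ℚ K] [IsGalois ℚ K], ∃ c : ℕ, 1 ≤ c ∧
    ∀ (H : ℕ) (g : ℤ[X]) (D : ℚ[X]) (x : ℤ), 1 ≤ H → g.natDegree = d →
    (g.map (Int.castRingHom ℚ)).Separable → (∀ i, |g.coeff i| ≤ H) →
    (∀ θ : ℂ, aeval θ g = 0 → IsIntegral ℤ (aeval θ D) ∧ aeval θ D ≠ 0 ∧ ‖aeval θ D‖ ≤ H) →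
    (∃ B : ℚ[X], g.map (Int.castRingHom ℚ) ∣ B ^ 2 - D * (C (x : ℚ) - X)) →
    (∃ v : ℂ → ℂ, (∀ θ : ℂ, aeval θ g = 0 → v θ ^ 2 = aeval θ D) ∧
      ∀ P : ℚ[X], (∑ r ∈ ((g.map (Int.castRingHom ℚ)).map (algebraMap ℚ ℂ)).roots.toFinset,
        aeval r P * v r) ^ 2 ∈ K) → |x| ≤ ((c * H : ℕ) : ℤ) ^ M := by
  classical
  obtain ⟨M1, hM1⟩ := monic_struct (2 ^ d) Nat.one_le_two_pow
  obtain ⟨Kc, hKc⟩ := finite_const M1
  obtain ⟨i0, hi0⟩ : ∃ i0 : Fin d, i0.1 = 0 := ⟨⟨0, by omega⟩, rfl⟩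
  obtain ⟨i1, hi1⟩ : ∃ i1 : Fin d, i1.1 = 1 := ⟨⟨1, by omega⟩, rfl⟩
  obtain ⟨m2, hm2, hcd⟩ := cdata hSG hINT hGEN d hd i0 i1 ⟨hi0, hi1⟩
  refine ⟨m2 * M1 + (3 * m2 + 1) * Kc, ?_⟩
  intro K _ _
  obtain ⟨c, hc, hcK⟩ := hKc _ (hFIN K inferInstance)
  obtain ⟨c', hc'⟩ := exists_nat_ge c
  have hc'1 : 1 ≤ c' := by exact_mod_cast hc.trans hc'
  refine ⟨2 * c', by omega, ?_⟩
  intro H g D x hH hdeg hsep hcoef hD hB hv
  obtain ⟨m, θ, u, F, hθi, hθ0, hθs, hu0, hu2, hgen, hFm, hFd, hFs, hwt, hpn⟩ :=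
    hcd H g D hH hdeg hsep hcoef hD
  obtain ⟨hprime, L, _, _, α, β, hev, htr, hgenL, hpl⟩ :=
    singleK hSG hFLIP hIRR hPL2 θ u hθi hu0 F hFm hFd hFs
  obtain ⟨T, hT⟩ : ∃ T : ℕ, T = (2 * H) ^ m2 := ⟨_, rfl⟩
  rw [← hT] at hpn
  have hT2 : 2 ≤ T := by
    rw [hT]
    calc 2 ≤ 2 * H := by omega
      _ = (2 * H) ^ 1 := (pow_one _).symm
      _ ≤ _ := Nat.pow_le_pow_right (by omega) hm2
  obtain ⟨B, hB⟩ := hB
  obtain ⟨h1, z, h2⟩ := int_point d m g hdeg hsep D (fun r hr => (hD r hr).1) x B hB θ hθ0 hθs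
  have h10 : (g.leadingCoeff : ℂ) ^ (2 * d) = ((g.leadingCoeff : ℂ) ^ d) ^ 2 := by
    rw [← pow_mul, mul_comm]
  have hz : ev x z F = 0 := by
    have h3 := root_sum hSG F _ hFs (evalRingHom (x : ℂ))
      (fun i => (g.leadingCoeff : ℂ) ^ d * wt d m (θ i) * aeval (θ i) B) (by
        intro i
        simp only [coe_evalRingHom, eval_mul, eval_C, eval_sub, eval_X]
        rw [mul_pow, h1 i, hu2, h10]
        ring)
    rw [← evf_eq, ← h2] at h3
    have h4 : ((ev x z F : ℤ) : ℂ) = 0 := by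
      have h5 := map_ev (Int.castRingHom ℂ) x z F
      rw [ev_apply, ev_apply] at h5
      rw [← h3, ev_apply]
      exact h5
    exact_mod_cast h4
  have hdegF : ∀ j, (F.coeff j).natDegree ≤ 2 ^ d - j := by
    intro j
    rcases hwt j with h | h
    · omega
    · rw [h, natDegree_zero]; exact Nat.zero_le _
  have hTR : (1 : ℝ) ≤ T := by exact_mod_cast (by omega : 1 ≤ T)
  -- the bound
  obtain ⟨W, hW⟩ : ∃ W : ℕ, W = 2 * c' * H := ⟨_, rfl⟩
  have hHW : 2 * H ≤ W := by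
    rw [hW]
    calc 2 * H = 2 * 1 * H := by ring
      _ ≤ _ := Nat.mul_le_mul_right _ (Nat.mul_le_mul_left _ hc'1)
  have hcW : c' ≤ W := by
    rw [hW]
    calc c' = c' * 1 := by ring
      _ ≤ 2 * c' * H := Nat.mul_le_mul (by omega) hH
  have hW1 : 1 ≤ W := by omega
  have hTW : T ≤ W ^ m2 := by rw [hT]; exact Nat.pow_le_pow_left hHW _
  rw [← hW]
  rcases hM1 T hT2 F hFm hFd hprime (fun j => (hdegF j).trans (Nat.sub_le _ _)) hpn L α β hev htr
    hgenL x z hz with h | ⟨A, hA, q, hq1, hq2, hq3, η, hη, hbig⟩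
  · refine h.trans ?_
    have h3 : T ^ M1 ≤ W ^ (m2 * M1 + (3 * m2 + 1) * Kc) := by
      calc T ^ M1 ≤ (W ^ m2) ^ M1 := Nat.pow_le_pow_left hTW _
        _ = W ^ (m2 * M1) := by rw [← pow_mul]
        _ ≤ _ := Nat.pow_le_pow_right hW1 (by omega)
    exact_mod_cast h3
  · have hzb := abs_b_le hFm hFd ⟨hFd.le, hdegF⟩ hTR hpn x z hz
    have hnear := near_of_big hT2 hzb hbig
    obtain ⟨ρ, hρη, cc, hcc, hroot⟩ := hpl A hA q hq1 hq2 hq3 η hη
    have hηint : IsIntegral ℚ η := ⟨q, hq1, hη⟩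
    have hfd : FiniteDimensional ℚ ℚ⟮η⟯ := IntermediateField.adjoin.finiteDimensional hηint
    have hρint : IsIntegral ℚ ρ := by
      have h3 : IsIntegral ℚ (⟨ρ, hρη⟩ : ℚ⟮η⟯) := IsIntegral.of_finite ℚ _
      exact h3.map (ℚ⟮η⟯).val
    -- degree at least three
    have hflip : ∀ i1 : Fin d, aeval ((∑ i, cc i - 2 * cc i1) ^ 2) (minpoly ℚ ρ) = 0 := by
      intro i1
      have h3 := hroot (fun i => if i = i1 then -1 else 1) (by
        intro i
        by_cases h : i = i1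
        · right; simp [h]
        · left; simp [h])
      have h4 : ∑ i, (((if i = i1 then -1 else 1 : ℤ)) : ℂ) * cc i = ∑ i, cc i - 2 * cc i1 := by
        have h5 : ∀ i, (((if i = i1 then -1 else 1 : ℤ)) : ℂ) * cc i =
            cc i - (if i = i1 then 2 * cc i else 0) := by
          intro i
          split_ifs with h
          · push_cast; ring
          · push_cast; ring
        rw [Finset.sum_congr rfl fun i _ => h5 i, Finset.sum_sub_distrib, Finset.sum_ite_eq']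
        simp
      rw [h4] at h3
      exact h3
    have hfull : aeval ((∑ i, cc i) ^ 2) (minpoly ℚ ρ) = 0 := by
      have h3 := hroot (fun _ => 1) (fun _ => Or.inl rfl)
      simpa using h3
    obtain ⟨hg1, hg2, hg3⟩ := hgen cc hcc
    have h3 : 3 ≤ Module.finrank ℚ ℚ⟮ρ⟯ :=
      three_roots ρ hρint _ _ _ hg1 hg2 hg3 hfull (hflip i0) (hflip i1)
    -- the field is in the finite set
    obtain ⟨v, hv1, hv2⟩ := hv
    have hmem : ∀ z ∈ ℚ⟮ρ⟯, (z : ℂ) ∈ K := by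
      apply field_mem
      obtain ⟨c0, hc0⟩ : ∃ c0 : Fin d → ℂ, ∀ i, c0 i =
        (g.leadingCoeff : ℂ) ^ d * wt d m (θ i) * v (θ i) := ⟨_, fun _ => rfl⟩
      have hc0u : ∀ i, c0 i ^ 2 = u i := by
        intro i
        rw [hc0, mul_pow, hv1 _ (hθ0 i), hu2, h10]
        ring
      have hmemK : (∑ i, c0 i) ^ 2 ∈ K := by
        have h4 := hv2 (C ((g.leadingCoeff : ℚ) ^ d) * wp d m)
        rw [← hθs fun r => aeval r (C ((g.leadingCoeff : ℚ) ^ d) * wp d m) * v r] at h4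
        have h5 : ∑ i, aeval (θ i) (C ((g.leadingCoeff : ℚ) ^ d) * wp d m) * v (θ i) =
            ∑ i, c0 i := by
          refine Finset.sum_congr rfl fun i _ => ?_
          rw [hc0, map_mul, wp_eval, aeval_C]
          simp
        rw [h5] at h4
        exact h4
      have hsign : ∀ i, ∃ e : ℤ, (e = 1 ∨ e = -1) ∧ (e : ℂ) * cc i = c0 i := by
        intro i
        have h4 : c0 i ^ 2 = cc i ^ 2 := by rw [hc0u, hcc]
        rcases sq_eq_sq_iff_eq_or_eq_neg.1 h4 with h5 | h5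
        · exact ⟨1, Or.inl rfl, by rw [h5]; simp⟩
        · exact ⟨-1, Or.inr rfl, by rw [h5]; simp⟩
      choose e he1 he2 using hsign
      have h4 := hroot e he1
      rw [Finset.sum_congr rfl fun i _ => he2 i] at h4
      exact mem_of_root K ρ hρint _ hmemK h4
    have hle : ℚ⟮ρ⟯ ≤ ℚ⟮η⟯ := by
      rw [IntermediateField.adjoin_simple_le_iff]
      exact hρη
    have hT3 : (2 : ℝ) ≤ (T : ℝ) ^ 3 := by
      have h4 : (2 : ℝ) ≤ T := by exact_mod_cast hT2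
      exact h4.trans (le_self_pow₀ hTR (by norm_num))
    have hres := hcK ℚ⟮ρ⟯ hmem h3 ((T : ℝ) ^ 3) (1 + |(x : ℝ)|) ℚ⟮η⟯ hT3 hnear hle
    have hfin : |(x : ℝ)| ≤ (W : ℝ) ^ (m2 * M1 + (3 * m2 + 1) * Kc) := by
      have hWR : (1 : ℝ) ≤ W := by exact_mod_cast hW1
      have hTWR : (T : ℝ) ≤ (W : ℝ) ^ m2 := by exact_mod_cast hTW
      have hcWR : (c' : ℝ) ≤ W := by exact_mod_cast hcW
      calc |(x : ℝ)| ≤ 1 + |(x : ℝ)| := by linarith
        _ ≤ (c * (T : ℝ) ^ 3) ^ Kc := hres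
        _ ≤ (W * ((W : ℝ) ^ m2) ^ 3) ^ Kc := by
            apply pow_le_pow_left₀ (by positivity)
            apply mul_le_mul (hc'.trans hcWR) (pow_le_pow_left₀ (by linarith) hTWR _)
              (by positivity) (by positivity)
        _ = (W : ℝ) ^ ((3 * m2 + 1) * Kc) := by
            rw [← pow_mul, ← pow_succ', ← pow_mul]
            congr 2
            ring
        _ ≤ _ := pow_le_pow_right₀ hWR (by omega)
    exact_mod_cast hfin

end Pool.Agent.Y910.F
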