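import Pool.Agent.Y910.F.K3
import Pool.Agent.Y910.F.Stm3

/-!
The framework over a fixed number field, all quadratic twists.
-/

open Polynomial IntermediateField

set_option autoImplicit false

namespace Pool.Agent.Y910.F

open Pool.Agent.H322R2 Pool.Agent.Y910.G Pool.Agent.Y910.R Pool.Agent.Y910.E Pool.Agent.Y910.A

theorem singleE (hSG : StSG) (hFLIP : StFLIP) (hIRR : StIRR) (hPL3 : StPL3) {d : ℕ}
    (θ u : Fin d → ℂ) (hθ : Function.Injective θ) (hu : ∀ i, u i ≠ 0)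
    (F G : ℤ[X][X]) (hFm : F.Monic) (hFd : F.natDegree = 2 ^ d)
    (hF : F.map (mapRingHom (Int.castRingHom ℂ)) =
      sg (List.ofFn fun i => C (u i) * (X - C (θ i)))) (hFG : F = expand ℤ[X] 2 G) :
    Prime G ∧ ∃ (L : Type) (_ : Field L) (_ : Algebra ℚ L) (α β : L), ev α β G = 0 ∧
      Transcendental ℚ α ∧
      (∀ z : L, ∃ w1 ∈ Algebra.adjoin ℚ {α, β}, ∃ w2 ∈ Algebra.adjoin ℚ {α, β},
        w2 ≠ 0 ∧ w2 * z = w1) ∧
      ∀ A : ValuationSubring L, (∀ A' : ValuationSubring L,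
        ((∀ q : ℚ, algebraMap ℚ L q ∈ A') ∧ ¬ (α ∈ A' ∧ β ∈ A')) ↔ A' = A) →
      ∀ g : ℚ[X], g.Monic → Irreducible g →
        Nonempty (IsLocalRing.ResidueField A ≃+* AdjoinRoot g) → ∀ η : ℝ, aeval η g = 0 →
        ∃ ρ ∈ ℚ⟮η⟯, ∃ c : Fin d → ℂ, (∀ i, c i ^ 2 = u i) ∧
          ∀ ε : Fin d → ℤ, (∀ i, ε i = 1 ∨ ε i = -1) →
            aeval ((∑ i, (ε i : ℂ) * c i) ^ 2) (minpoly ℚ ρ) = 0 := by
  let K := FractionRing ℂ[X]
  let Ω := AlgebraicClosure K
  let φ : ℂ[X] →+* Ω := (algebraMap K Ω).comp (algebraMap ℂ[X] K)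
  have hφ : Function.Injective φ :=
    (algebraMap K Ω).injective.comp (IsFractionRing.injective ℂ[X] K)
  have hsq : ∀ i, ∃ t : Ω, t ^ 2 = φ (C (u i) * (X - C (θ i))) := fun i =>
    IsAlgClosed.exists_pow_nat_eq _ (by norm_num)
  choose t ht using hsq
  have ht0 : ∀ i, t i ≠ 0 := by
    intro i h
    have h1 := ht i
    rw [h, zero_pow two_ne_zero] at h1
    have h2 : C (u i) * (X - C (θ i)) = 0 := hφ (by rw [← h1, map_zero])
    rcases mul_eq_zero.1 h2 with h3 | h3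
    · exact hu i (C_eq_zero.1 h3)
    · exact X_sub_C_ne_zero _ h3
  have hflips : HasFlips (K := K) t := hFLIP K Ω d θ u t hθ hu ht
  have hroot : F.eval₂ (φ.comp (mapRingHom (Int.castRingHom ℂ))) (∑ i, t i) = 0 :=
    root_sum hSG F _ hF φ t ht
  have hprime : Prime F := hIRR K Ω d t ht0 hflips F hFm hFd hroot
  have hprimeG : Prime G := by
    have h1 : Irreducible (expand ℤ[X] 2 G) := by rw [← hFG]; exact hprime.irreducible
    exact UniqueFactorizationMonoid.irreducible_iff_prime.1 (of_irreducible_expand two_ne_zero h1)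
  have hrootG : G.eval₂ (φ.comp (mapRingHom (Int.castRingHom ℂ))) ((∑ i, t i) ^ 2) = 0 := by
    rw [← hroot, hFG, expand_eq_comp_X_pow, eval₂_comp]
    simp
  refine ⟨hprimeG, ?_⟩
  have hchar : CharZero Ω := by
    have h1 : CharZero ℂ[X] := inferInstance
    exact charZero_of_injective_ringHom hφ
  obtain ⟨α, β, hα, hβ, hgenL⟩ := gen_field (φ X) ((∑ i, t i) ^ 2)
  refine ⟨IntermediateField.adjoin ℚ ({φ X, (∑ i, t i) ^ 2} : Set Ω), inferInstance, inferInstance,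
    α, β, ?_, ?_, hgenL, ?_⟩
  · apply (algebraMap (IntermediateField.adjoin ℚ ({φ X, (∑ i, t i) ^ 2} : Set Ω)) Ω).injective
    rw [map_ev, map_zero]
    change ev (α : Ω) (β : Ω) G = 0
    rw [hα, hβ, ev_apply]
    have h1 : evf (φ X) = φ.comp (mapRingHom (Int.castRingHom ℂ)) := by
      apply Polynomial.ringHom_ext'
      · exact RingHom.ext_int _ _
      · simp
    rw [h1]
    exact hrootG
  · rw [transcendental_iff]
    intro p hp
    have h1 : aeval (φ X) p = 0 := by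
      have h2 := congrArg
        (algebraMap (IntermediateField.adjoin ℚ ({φ X, (∑ i, t i) ^ 2} : Set Ω)) Ω) hp
      rw [map_zero, ← aeval_algebraMap_apply] at h2
      change aeval (α : Ω) p = 0 at h2
      rw [hα] at h2
      exact h2
    have h2 : φ (p.map (algebraMap ℚ ℂ)) = 0 := by
      rw [← h1, aeval_def]
      have h3 : (φ.comp (mapRingHom (algebraMap ℚ ℂ))) = eval₂RingHom (algebraMap ℚ Ω) (φ X) := by
        apply Polynomial.ringHom_ext'
        · exact Subsingleton.elim _ _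
        · simp
      exact RingHom.congr_fun h3 p
    have h4 : p.map (algebraMap ℚ ℂ) = 0 := hφ (by rw [h2, map_zero])
    exact (Polynomial.map_eq_zero_iff (algebraMap ℚ ℂ).injective).1 h4
  · intro A hA g hg hgi he η hη
    exact hPL3 K Ω d θ u t hu ht hflips _ (algebraMap _ Ω) α β hα hβ A hA g hg hgi he η hη


lemma pn_expand (F G : ℤ[X][X]) (hFG : F = expand ℤ[X] 2 G) : pn (pn zn) G ≤ pn (pn zn) F := by
  obtain ⟨n, hn⟩ : ∃ n, n = G.natDegree + F.natDegree + 1 := ⟨_, rfl⟩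
  rw [pn_eq_range _ G (n := n) (by omega), pn_eq_range _ F (n := 2 * n) (by omega)]
  have h1 : ∀ j, G.coeff j = F.coeff (2 * j) := by
    intro j
    rw [hFG, coeff_expand (by norm_num), if_pos (Dvd.intro j rfl),
      Nat.mul_div_cancel_left _ (by norm_num)]
  calc ∑ j ∈ Finset.range n, pn zn (G.coeff j)
      = ∑ i ∈ (Finset.range n).image (fun j => 2 * j), pn zn (F.coeff i) := by
        rw [Finset.sum_image (fun a _ b _ h => by simpa using h)]
        exact Finset.sum_congr rfl fun j _ => by rw [h1]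
    _ ≤ ∑ i ∈ Finset.range (2 * n), pn zn (F.coeff i) := by
        apply Finset.sum_le_sum_of_subset_of_nonneg
        · intro i hi
          obtain ⟨j, hj, rfl⟩ := Finset.mem_image.1 hi
          rw [Finset.mem_range] at hj ⊢
          omega
        · intro i _ _
          exact apply_nonneg _ _

/-- the integer coordinate -/
lemma int_pointE (d m : ℕ) (g : ℤ[X]) (hd : g.natDegree = d)
    (hsep : (g.map (Int.castRingHom ℚ)).Separable) (D : ℚ[X])
    (hD : ∀ θ : ℂ, aeval θ g = 0 → IsIntegral ℤ (aeval θ D)) (b x : ℤ) (hb : b ≠ 0) (B : ℚ[X])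
    (hB : g.map (Int.castRingHom ℚ) ∣ B ^ 2 - C (b : ℚ) * D * (C (x : ℚ) - X)) (θ : Fin d → ℂ)
    (hθ0 : ∀ i, aeval (θ i) g = 0)
    (hθs : ∀ F : ℂ → ℂ, ∑ i, F (θ i) =
      ∑ r ∈ ((g.map (Int.castRingHom ℚ)).map (algebraMap ℚ ℂ)).roots.toFinset, F r) :
    ∃ t : Fin d → ℂ, (∀ i, t i ^ 2 = wt d m (θ i) ^ 2 *
      ((g.leadingCoeff : ℂ) ^ (2 * d) * aeval (θ i) D) * (x - θ i)) ∧
    ∃ y : ℤ, (y : ℂ) = (∑ i, t i) ^ 2 := by
  have hbC : (b : ℂ) ≠ 0 := by exact_mod_cast hb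
  obtain ⟨s, hs⟩ : ∃ s : ℂ, s ^ 2 = b := IsAlgClosed.exists_pow_nat_eq _ (by norm_num)
  have hs0 : s ≠ 0 := by
    rintro rfl
    rw [zero_pow two_ne_zero] at hs
    exact hbC hs.symm
  have hB0 : ∀ r : ℂ, aeval r g = 0 → (aeval r B) ^ 2 = b * aeval r D * (x - r) := by
    intro r hr
    obtain ⟨Q, hQ⟩ := hB
    have h3 := congrArg (fun P => aeval r P) hQ
    simp only [map_sub, map_pow, map_mul, aeval_C, aeval_X] at h3
    have h4 : aeval r (g.map (Int.castRingHom ℚ)) = 0 := by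
      rw [aeval_def, eval₂_map, ← hr, aeval_def]
      congr 1
    rw [h4, zero_mul, sub_eq_zero] at h3
    rw [h3]
    simp
  have h10 : (g.leadingCoeff : ℂ) ^ (2 * d) = ((g.leadingCoeff : ℂ) ^ d) ^ 2 := by
    rw [← pow_mul, mul_comm]
  refine ⟨fun i => (g.leadingCoeff : ℂ) ^ d * wt d m (θ i) * aeval (θ i) B / s, ?_, ?_⟩
  · intro i
    rw [div_pow, mul_pow, hB0 _ (hθ0 i), hs, h10]
    field_simp
  obtain ⟨q, hq⟩ := trace_rat _ hsep (C ((g.leadingCoeff : ℚ) ^ d) * wp d m * B)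
  have h1 : (q : ℂ) = ∑ i, (g.leadingCoeff : ℂ) ^ d * wt d m (θ i) * aeval (θ i) B := by
    rw [← hq, ← hθs fun r => ((C ((g.leadingCoeff : ℚ) ^ d) * wp d m * B).map
      (algebraMap ℚ ℂ)).eval r]
    refine Finset.sum_congr rfl fun i _ => ?_
    rw [eval_map_algebraMap, map_mul, map_mul, wp_eval, aeval_C]
    simp
  have hsum : (∑ i, (g.leadingCoeff : ℂ) ^ d * wt d m (θ i) * aeval (θ i) B / s) ^ 2 =
      ((q ^ 2 / b : ℚ) : ℂ) := by
    rw [← Finset.sum_div, ← h1, div_pow, hs]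
    push_cast
    rfl
  have hint : IsIntegral ℤ ((∑ i, (g.leadingCoeff : ℂ) ^ d * wt d m (θ i) *
      aeval (θ i) B / s) ^ 2) := by
    apply IsIntegral.pow
    apply IsIntegral.sum
    intro i _
    have h5 : IsIntegral ℤ ((g.leadingCoeff : ℂ) * θ i) := by
      have := isIntegral_leadingCoeff_smul g (θ i) (hθ0 i)
      rwa [zsmul_eq_mul] at this
    have hz : ∀ n : ℤ, IsIntegral ℤ (n : ℂ) := fun n => isIntegral_algebraMap (R := ℤ) (x := n)
    have h6 : IsIntegral ℤ ((g.leadingCoeff : ℂ) * aeval (θ i) B / s) := by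
      apply IsIntegral.of_pow (n := 2) (by norm_num)
      rw [div_pow, mul_pow, hB0 _ (hθ0 i), hs]
      have h7 : (g.leadingCoeff : ℂ) ^ 2 * (b * aeval (θ i) D * (x - θ i)) / b =
          ((g.leadingCoeff : ℤ) : ℂ) * aeval (θ i) D * ((g.leadingCoeff : ℤ) * (x : ℤ) -
            (g.leadingCoeff : ℂ) * θ i) := by
        field_simp
      rw [h7]
      exact ((hz _).mul (hD _ (hθ0 i))).mul (((hz _).mul (hz _)).sub h5)
    rcases Nat.eq_zero_or_pos d with h0 | h0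
    · exact absurd i.2 (by omega)
    · obtain ⟨e, rfl⟩ : ∃ e, d = e + 1 := ⟨d - 1, by omega⟩
      have h8 : IsIntegral ℤ ((g.leadingCoeff : ℂ) ^ e * wt (e + 1) m (θ i)) := by
        rw [wt, Finset.mul_sum]
        apply IsIntegral.sum
        intro l hl
        rw [Finset.mem_range] at hl
        have h9 : (g.leadingCoeff : ℂ) ^ e * ((m : ℂ) ^ l * θ i ^ l) =
            ((g.leadingCoeff : ℤ) : ℂ) ^ (e - l) * ((m : ℤ) : ℂ) ^ l *
              ((g.leadingCoeff : ℂ) * θ i) ^ l := by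
          have : e = (e - l) + l := by omega
          conv_lhs => rw [this]
          rw [pow_add, mul_pow]
          push_cast
          ring
        rw [h9]
        exact (((hz _).pow _).mul ((hz _).pow _)).mul (h5.pow _)
      have h11 : (g.leadingCoeff : ℂ) ^ (e + 1) * wt (e + 1) m (θ i) * aeval (θ i) B / s =
          ((g.leadingCoeff : ℂ) ^ e * wt (e + 1) m (θ i)) *
            ((g.leadingCoeff : ℂ) * aeval (θ i) B / s) := by ring
      rw [h11]
      exact h8.mul h6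
  rw [hsum] at hint ⊢
  have h3 : IsIntegral ℤ (q ^ 2 / b : ℚ) := by
    have h4 : IsIntegral ℤ (algebraMap ℚ ℂ (q ^ 2 / b : ℚ)) := by simpa using hint
    exact (isIntegral_algebraMap_iff (algebraMap ℚ ℂ).injective).1 h4
  obtain ⟨z, hz⟩ := IsIntegrallyClosed.isIntegral_iff.1 h3
  refine ⟨z, ?_⟩
  rw [← hz]
  simp

theorem frameE (hSG : StSG) (hINT : StINT) (hFLIP : StFLIP) (hIRR : StIRR) (hPL3 : StPL3)
    (hGEN : StGEN) (hFIN : StFIN) (hEV : StEV) (d : ℕ) (hd : 3 ≤ d) : ∃ M : ℕ, ∀ (K : IntermediateField ℚ ℂ)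
    [FiniteDimensional ℚ K] [IsGalois ℚ K], ∃ c : ℕ, 1 ≤ c ∧
    ∀ (H : ℕ) (g : ℤ[X]) (D : ℚ[X]) (b x : ℤ), b ≠ 0 → 1 ≤ H → g.natDegree = d →
    (g.map (Int.castRingHom ℚ)).Separable → (∀ i, |g.coeff i| ≤ H) →
    (∀ θ : ℂ, aeval θ g = 0 → IsIntegral ℤ (aeval θ D) ∧ aeval θ D ≠ 0 ∧ ‖aeval θ D‖ ≤ H) →
    (∃ B : ℚ[X], g.map (Int.castRingHom ℚ) ∣ B ^ 2 - C (b : ℚ) * D * (C (x : ℚ) - X)) →
    (∃ v : ℂ → ℂ, (∀ θ : ℂ, aeval θ g = 0 → v θ ^ 2 = aeval θ D) ∧
      ∀ P : ℚ[X], (∑ r ∈ ((g.map (Int.castRingHom ℚ)).map (algebraMap ℚ ℂ)).roots.toFinset,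
        aeval r P * v r) ^ 2 ∈ K) → |x| ≤ ((c * H : ℕ) : ℤ) ^ M := by
  classical
  obtain ⟨M1, hM1⟩ := monic_struct (2 ^ (d - 1)) Nat.one_le_two_pow
  obtain ⟨Kc, hKc⟩ := finite_const M1
  obtain ⟨i0, hi0⟩ : ∃ i0 : Fin d, i0.1 = 0 := ⟨⟨0, by omega⟩, rfl⟩
  obtain ⟨i1, hi1⟩ : ∃ i1 : Fin d, i1.1 = 1 := ⟨⟨1, by omega⟩, rfl⟩
  obtain ⟨m2, hm2, hcd⟩ := cdata hSG hINT hGEN d hd i0 i1 ⟨hi0, hi1⟩
  refine ⟨m2 * M1 + (3 * m2 + 1) * Kc, ?_⟩
  intro K _ _
  obtain ⟨c, hc, hcK⟩ := hKc _ (hFIN K inferInstance)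
  obtain ⟨c', hc'⟩ := exists_nat_ge c
  have hc'1 : 1 ≤ c' := by exact_mod_cast hc.trans hc'
  refine ⟨2 * c', by omega, ?_⟩
  intro H g D b x hb hH hdeg hsep hcoef hD hB hv
  obtain ⟨m, θ, u, F, hθi, hθ0, hθs, hu0, hu2, hgen, hFm, hFd, hFs, hwt, hpn⟩ :=
    hcd H g D hH hdeg hsep hcoef hD
  obtain ⟨G, hGm, hGd, hFG, hdegG⟩ := hEV d (by omega) F (fun i => C (u i) * (X - C (θ i)))
    (fun i => (natDegree_C_mul_le _ _).trans (natDegree_X_sub_C _).le) hFm hFd hFs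
  obtain ⟨hprime, L, _, _, α, β, hev, htr, hgenL, hpl⟩ :=
    singleE hSG hFLIP hIRR hPL3 θ u hθi hu0 F G hFm hFd hFs hFG
  replace hpn := (pn_expand F G hFG).trans hpn
  obtain ⟨T, hT⟩ : ∃ T : ℕ, T = (2 * H) ^ m2 := ⟨_, rfl⟩
  rw [← hT] at hpn
  have hT2 : 2 ≤ T := by
    rw [hT]
    calc 2 ≤ 2 * H := by omega
      _ = (2 * H) ^ 1 := (pow_one _).symm
      _ ≤ _ := Nat.pow_le_pow_right (by omega) hm2
  obtain ⟨B, hB⟩ := hB
  obtain ⟨t, ht, z, hzt⟩ := int_pointE d m g hdeg hsep D (fun r hr => (hD r hr).1) b x hb B hB θ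
    hθ0 hθs
  have h10 : (g.leadingCoeff : ℂ) ^ (2 * d) = ((g.leadingCoeff : ℂ) ^ d) ^ 2 := by
    rw [← pow_mul, mul_comm]
  have hz : ev x z G = 0 := by
    have h3 := root_sum hSG F _ hFs (evalRingHom (x : ℂ)) t (by
        intro i
        simp only [coe_evalRingHom, eval_mul, eval_C, eval_sub, eval_X]
        rw [ht i, hu2])
    rw [hFG, expand_eq_comp_X_pow, eval₂_comp, eval₂_X_pow, ← hzt, ← evf_eq] at h3
    have h4 : ((ev x z G : ℤ) : ℂ) = 0 := by
      have h5 := map_ev (Int.castRingHom ℂ) x z G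
      rw [ev_apply, ev_apply] at h5
      rw [← h3, ev_apply]
      exact h5
    exact_mod_cast h4
  have hTR : (1 : ℝ) ≤ T := by exact_mod_cast (by omega : 1 ≤ T)
  -- the bound
  obtain ⟨W, hW⟩ : ∃ W : ℕ, W = 2 * c' * H := ⟨_, rfl⟩
  have hHW : 2 * H ≤ W := by
    rw [hW]
    calc 2 * H = 2 * 1 * H := by ring
      _ ≤ _ := Nat.mul_le_mul_right _ (Nat.mul_le_mul_left _ hc'1)
  have hcW : c' ≤ W := by
    rw [hW]
    calc c' = c' * 1 := by ring
      _ ≤ 2 * c' * H := Nat.mul_le_mul (by omega) hH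
  have hW1 : 1 ≤ W := by omega
  have hTW : T ≤ W ^ m2 := by rw [hT]; exact Nat.pow_le_pow_left hHW _
  rw [← hW]
  rcases hM1 T hT2 G hGm hGd hprime (fun j => (hdegG j).trans (Nat.sub_le _ _)) hpn L α β hev htr
    hgenL x z hz with h | ⟨A, hA, q, hq1, hq2, hq3, η, hη, hbig⟩
  · refine h.trans ?_
    have h3 : T ^ M1 ≤ W ^ (m2 * M1 + (3 * m2 + 1) * Kc) := by
      calc T ^ M1 ≤ (W ^ m2) ^ M1 := Nat.pow_le_pow_left hTW _
        _ = W ^ (m2 * M1) := by rw [← pow_mul]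
        _ ≤ _ := Nat.pow_le_pow_right hW1 (by omega)
    exact_mod_cast h3
  · have hzb := abs_b_le hGm hGd ⟨hGd.le, hdegG⟩ hTR hpn x z hz
    have hnear := near_of_big hT2 hzb hbig
    obtain ⟨ρ, hρη, cc, hcc, hroot⟩ := hpl A hA q hq1 hq2 hq3 η hη
    have hηint : IsIntegral ℚ η := ⟨q, hq1, hη⟩
    have hfd : FiniteDimensional ℚ ℚ⟮η⟯ := IntermediateField.adjoin.finiteDimensional hηint
    have hρint : IsIntegral ℚ ρ := by
      have h3 : IsIntegral ℚ (⟨ρ, hρη⟩ : ℚ⟮η⟯) := IsIntegral.of_finite ℚ _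
      exact h3.map (ℚ⟮η⟯).val
    -- degree at least three
    have hflip : ∀ i1 : Fin d, aeval ((∑ i, cc i - 2 * cc i1) ^ 2) (minpoly ℚ ρ) = 0 := by
      intro i1
      have h3 := hroot (fun i => if i = i1 then -1 else 1) (by
        intro i
        by_cases h : i = i1
        · right; simp [h]
        · left; simp [h])
      have h4 : ∑ i, (((if i = i1 then -1 else 1 : ℤ)) : ℂ) * cc i = ∑ i, cc i - 2 * cc i1 := by
        have h5 : ∀ i, (((if i = i1 then -1 else 1 : ℤ)) : ℂ) * cc i =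
            cc i - (if i = i1 then 2 * cc i else 0) := by
          intro i
          split_ifs with h
          · push_cast; ring
          · push_cast; ring
        rw [Finset.sum_congr rfl fun i _ => h5 i, Finset.sum_sub_distrib, Finset.sum_ite_eq']
        simp
      rw [h4] at h3
      exact h3
    have hfull : aeval ((∑ i, cc i) ^ 2) (minpoly ℚ ρ) = 0 := by
      have h3 := hroot (fun _ => 1) (fun _ => Or.inl rfl)
      simpa using h3
    obtain ⟨hg1, hg2, hg3⟩ := hgen cc hcc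
    have h3 : 3 ≤ Module.finrank ℚ ℚ⟮ρ⟯ :=
      three_roots ρ hρint _ _ _ hg1 hg2 hg3 hfull (hflip i0) (hflip i1)
    -- the field is in the finite set
    obtain ⟨v, hv1, hv2⟩ := hv
    have hmem : ∀ z ∈ ℚ⟮ρ⟯, (z : ℂ) ∈ K := by
      apply field_mem
      obtain ⟨c0, hc0⟩ : ∃ c0 : Fin d → ℂ, ∀ i, c0 i =
        (g.leadingCoeff : ℂ) ^ d * wt d m (θ i) * v (θ i) := ⟨_, fun _ => rfl⟩
      have hc0u : ∀ i, c0 i ^ 2 = u i := by
        intro i
        rw [hc0, mul_pow, hv1 _ (hθ0 i), hu2, h10]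
        ring
      have hmemK : (∑ i, c0 i) ^ 2 ∈ K := by
        have h4 := hv2 (C ((g.leadingCoeff : ℚ) ^ d) * wp d m)
        rw [← hθs fun r => aeval r (C ((g.leadingCoeff : ℚ) ^ d) * wp d m) * v r] at h4
        have h5 : ∑ i, aeval (θ i) (C ((g.leadingCoeff : ℚ) ^ d) * wp d m) * v (θ i) =
            ∑ i, c0 i := by
          refine Finset.sum_congr rfl fun i _ => ?_
          rw [hc0, map_mul, wp_eval, aeval_C]
          simp
        rw [h5] at h4
        exact h4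
      have hsign : ∀ i, ∃ e : ℤ, (e = 1 ∨ e = -1) ∧ (e : ℂ) * cc i = c0 i := by
        intro i
        have h4 : c0 i ^ 2 = cc i ^ 2 := by rw [hc0u, hcc]
        rcases sq_eq_sq_iff_eq_or_eq_neg.1 h4 with h5 | h5
        · exact ⟨1, Or.inl rfl, by rw [h5]; simp⟩
        · exact ⟨-1, Or.inr rfl, by rw [h5]; simp⟩
      choose e he1 he2 using hsign
      have h4 := hroot e he1
      rw [Finset.sum_congr rfl fun i _ => he2 i] at h4
      exact mem_of_root K ρ hρint _ hmemK h4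
    have hle : ℚ⟮ρ⟯ ≤ ℚ⟮η⟯ := by
      rw [IntermediateField.adjoin_simple_le_iff]
      exact hρη
    have hT3 : (2 : ℝ) ≤ (T : ℝ) ^ 3 := by
      have h4 : (2 : ℝ) ≤ T := by exact_mod_cast hT2
      exact h4.trans (le_self_pow₀ hTR (by norm_num))
    have hres := hcK ℚ⟮ρ⟯ hmem h3 ((T : ℝ) ^ 3) (1 + |(x : ℝ)|) ℚ⟮η⟯ hT3 hnear hle
    have hfin : |(x : ℝ)| ≤ (W : ℝ) ^ (m2 * M1 + (3 * m2 + 1) * Kc) := by
      have hWR : (1 : ℝ) ≤ W := by exact_mod_cast hW1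
      have hTWR : (T : ℝ) ≤ (W : ℝ) ^ m2 := by exact_mod_cast hTW
      have hcWR : (c' : ℝ) ≤ W := by exact_mod_cast hcW
      calc |(x : ℝ)| ≤ 1 + |(x : ℝ)| := by linarith
        _ ≤ (c * (T : ℝ) ^ 3) ^ Kc := hres
        _ ≤ (W * ((W : ℝ) ^ m2) ^ 3) ^ Kc := by
            apply pow_le_pow_left₀ (by positivity)
            apply mul_le_mul (hc'.trans hcWR) (pow_le_pow_left₀ (by linarith) hTWR _)
              (by positivity) (by positivity)
        _ = (W : ℝ) ^ ((3 * m2 + 1) * Kc) := by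
            rw [← pow_mul, ← pow_succ', ← pow_mul]
            congr 2
            ring
        _ ≤ _ := pow_le_pow_right₀ hWR (by omega)
    exact_mod_cast hfin

end Pool.Agent.Y910.F
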