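import Pool.Agent.Y910.F.K4
import Pool.Agent.Y910.F.K5

/-!
Points which become divisible by two over a fixed number field, all quadratic twists: assembly.
-/

open Polynomial IntermediateField

set_option autoImplicit false

namespace Pool.Agent.Y910.F

theorem over_fieldE (hTR2 : StTR2) (hPL3 : StPL3) (hEV : StEV) (d : ℕ) : ∃ M : ℕ, ∀ (K : Type) [Field K] [NumberField K], ∃ c : ℕ,
    ∀ (H : ℕ) (f : ℤ[X]), f.natDegree = d → (f.map (Int.castRingHom ℚ)).Separable →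
    (∀ i, |f.coeff i| ≤ H) → ∀ g : ℤ[X], g ∣ f → 3 ≤ g.natDegree →
    ∀ b : ℤ, b ≠ 0 → ∀ x : ℤ,
      IsSquare (AdjoinRoot.mk (g.map (Int.castRingHom K)) (C (b : K) * (C (x : K) - X))) →
      |x| ≤ (c * H : ℤ) ^ M := by
  have hSG := Pool.Agent.Y396.FC.SG.done
  have hM : ∀ e : ℕ, ∃ M : ℕ, ∀ (K : IntermediateField ℚ ℂ)
    [FiniteDimensional ℚ K] [IsGalois ℚ K], ∃ c : ℕ, 1 ≤ c ∧ (3 ≤ e →
    ∀ (H : ℕ) (g : ℤ[X]) (D : ℚ[X]) (b x : ℤ), b ≠ 0 → 1 ≤ H → g.natDegree = e →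
    (g.map (Int.castRingHom ℚ)).Separable → (∀ i, |g.coeff i| ≤ H) →
    (∀ θ : ℂ, aeval θ g = 0 → IsIntegral ℤ (aeval θ D) ∧ aeval θ D ≠ 0 ∧ ‖aeval θ D‖ ≤ H) →
    (∃ B : ℚ[X], g.map (Int.castRingHom ℚ) ∣ B ^ 2 - C (b : ℚ) * D * (C (x : ℚ) - X)) →
    (∃ v : ℂ → ℂ, (∀ θ : ℂ, aeval θ g = 0 → v θ ^ 2 = aeval θ D) ∧
      ∀ P : ℚ[X], (∑ r ∈ ((g.map (Int.castRingHom ℚ)).map (algebraMap ℚ ℂ)).roots.toFinset,
        aeval r P * v r) ^ 2 ∈ K) → |x| ≤ ((c * H : ℕ) : ℤ) ^ M) := by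
    intro e
    by_cases he : 3 ≤ e
    · obtain ⟨M, h⟩ := frameE hSG (Pool.Agent.Y525.FC.done hSG) Pool.Agent.Y907.FC.FLIP.done
        Pool.Agent.Y396.FC.IRR.done hPL3 Pool.Agent.Y876.FC.done
        Pool.Agent.Y383.FK.done hEV e he
      refine ⟨M, fun K _ _ => ?_⟩
      obtain ⟨c, hc, h1⟩ := h K
      exact ⟨c, hc, fun _ => h1⟩
    · exact ⟨0, fun K _ _ => ⟨1, le_rfl, fun h => absurd h he⟩⟩
  choose M hM using hM
  obtain ⟨M0, hM0⟩ : ∃ M0, M0 = ∑ e ∈ Finset.range (d + 1), M e := ⟨_, rfl⟩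
  refine ⟨M0 + 1, ?_⟩
  intro K _ _
  obtain ⟨K', hfd, hgal, ⟨φ⟩⟩ := exists_galois K
  have hc : ∀ e, ∃ c : ℕ, 1 ≤ c ∧ (3 ≤ e →
    ∀ (H : ℕ) (g : ℤ[X]) (D : ℚ[X]) (b x : ℤ), b ≠ 0 → 1 ≤ H → g.natDegree = e →
    (g.map (Int.castRingHom ℚ)).Separable → (∀ i, |g.coeff i| ≤ H) →
    (∀ θ : ℂ, aeval θ g = 0 → IsIntegral ℤ (aeval θ D) ∧ aeval θ D ≠ 0 ∧ ‖aeval θ D‖ ≤ H) →
    (∃ B : ℚ[X], g.map (Int.castRingHom ℚ) ∣ B ^ 2 - C (b : ℚ) * D * (C (x : ℚ) - X)) →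
    (∃ v : ℂ → ℂ, (∀ θ : ℂ, aeval θ g = 0 → v θ ^ 2 = aeval θ D) ∧
      ∀ P : ℚ[X], (∑ r ∈ ((g.map (Int.castRingHom ℚ)).map (algebraMap ℚ ℂ)).roots.toFinset,
        aeval r P * v r) ^ 2 ∈ K') → |x| ≤ ((c * H : ℕ) : ℤ) ^ M e) := fun e => hM e K'
  choose c hc1 hc using hc
  obtain ⟨cK, hcK1, hcK⟩ := hTR2 K'
  obtain ⟨c0, hc0⟩ : ∃ c0, c0 = ∑ e ∈ Finset.range (d + 1), c e := ⟨_, rfl⟩
  refine ⟨2 * c0 * (2 ^ d * (d + 1) * cK), ?_⟩
  intro H f hd hsep hcoef g hgf hg3 b hb x hsq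
  have hf0 : f ≠ 0 := by
    rintro rfl
    rw [Polynomial.map_zero] at hsep
    exact not_separable_zero hsep
  have hH1 : 1 ≤ H := by
    have h1 := (Int.one_le_abs (leadingCoeff_ne_zero.2 hf0)).trans (hcoef f.natDegree)
    exact_mod_cast h1
  obtain ⟨H', hH'⟩ : ∃ H', H' = 2 ^ d * ((d + 1) * H) := ⟨_, rfl⟩
  obtain ⟨H'', hH''⟩ : ∃ H'', H'' = cK * H' := ⟨_, rfl⟩
  have hHH' : H ≤ H' := by
    rw [hH']
    calc H = 1 * (1 * H) := by ring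
      _ ≤ 2 ^ d * ((d + 1) * H) := Nat.mul_le_mul Nat.one_le_two_pow
          (Nat.mul_le_mul_right _ (by omega))
  have hH'H'' : H' ≤ H'' := by rw [hH'']; exact Nat.le_mul_of_pos_left _ (by omega)
  have hgd : g.natDegree ≤ d := by
    rw [← hd]; exact natDegree_le_of_dvd hgf hf0
  have hg0 : g ≠ 0 := by
    rintro rfl
    rw [natDegree_zero] at hg3
    omega
  have hgs : (g.map (Int.castRingHom ℚ)).Separable :=
    hsep.of_dvd (Polynomial.map_dvd _ hgf)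
  have hgc : ∀ i, |g.coeff i| ≤ (H' : ℤ) := fun i => by
    rw [hH']; exact factor_bound d H f g hd hf0 hcoef hgf i
  have hmem : g.natDegree ∈ Finset.range (d + 1) := Finset.mem_range.2 (by omega)
  have hce : c g.natDegree ≤ c0 := by
    rw [hc0]
    exact Finset.single_le_sum (f := c) (fun _ _ => Nat.zero_le _) hmem
  have hMe : M g.natDegree ≤ M0 := by
    rw [hM0]
    exact Finset.single_le_sum (f := M) (fun _ _ => Nat.zero_le _) hmem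
  have hce1 := hc1 g.natDegree
  obtain ⟨W, hW⟩ : ∃ W : ℕ, W = 2 * c0 * (2 ^ d * (d + 1) * cK) * H := ⟨_, rfl⟩
  have hWe : W = 2 * c0 * H'' := by rw [hW, hH'', hH']; ring
  have hW2 : 2 * H'' ≤ W := by
    rw [hWe, mul_assoc]
    exact Nat.mul_le_mul_left _ (Nat.le_mul_of_pos_left _ (by omega))
  have hW3 : c0 * H'' ≤ W := by
    rw [hWe, mul_assoc]
    exact Nat.le_mul_of_pos_left _ (by omega)
  have hcast : ((2 * c0 * (2 ^ d * (d + 1) * cK) : ℕ) : ℤ) * (H : ℤ) = ((W : ℕ) : ℤ) := by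
    rw [hW]; push_cast; ring
  rw [hcast]
  by_cases hroot : aeval (x : ℂ) g = 0
  · have h1 := root_bound g H' hg0 hgc (by omega) _ hroot
    rw [Complex.norm_intCast] at h1
    have h2 : |x| ≤ ((2 * H' : ℕ) : ℤ) := by exact_mod_cast h1
    refine h2.trans ?_
    have h3 : 2 * H' ≤ W ^ (M0 + 1) := by
      calc 2 * H' ≤ 2 * H'' := Nat.mul_le_mul_left _ hH'H''
        _ ≤ W := hW2
        _ = W ^ 1 := (pow_one _).symm
        _ ≤ _ := Nat.pow_le_pow_right (by omega) (by omega)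
    exact_mod_cast h3
  -- the square root over the Galois closure
  obtain ⟨r, hr⟩ := hsq
  obtain ⟨B, rfl⟩ := AdjoinRoot.mk_surjective r
  have hB : g.map (Int.castRingHom K) ∣ B ^ 2 - C (b : K) * (C (x : K) - X) := by
    rw [← AdjoinRoot.mk_eq_mk, hr, ← map_mul, sq]
  have hB' : g.map (Int.castRingHom K') ∣ (B.map φ) ^ 2 - C (b : K') * (C (x : K') - X) := by
    have h1 := Polynomial.map_dvd φ hB
    rw [Polynomial.map_map] at h1
    have h2 : φ.comp (Int.castRingHom K) = Int.castRingHom K' := RingHom.ext_int _ _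
    rw [h2] at h1
    simpa using h1
  obtain ⟨D, B0, hD1, hD2, hD3⟩ := hcK g hgs b x hb hroot (B.map φ) hB'
  have h1 := hc g.natDegree hg3 H'' g D b x hb (by omega) rfl hgs
    (fun i => (hgc i).trans (by exact_mod_cast hH'H'')) (fun θ hθ => by
      obtain ⟨h2, h3, h4⟩ := hD2 θ hθ
      refine ⟨h2, h3, h4.trans ?_⟩
      have h5 : cK ≤ H'' := by
        rw [hH'']
        exact Nat.le_mul_of_pos_right _ (by omega)
      exact_mod_cast h5) ⟨B0, hD1⟩ hD3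
  refine h1.trans ?_
  have h2 : (c g.natDegree * H'') ^ M g.natDegree ≤ W ^ (M0 + 1) := by
    calc (c g.natDegree * H'') ^ M g.natDegree ≤ W ^ M g.natDegree :=
          Nat.pow_le_pow_left ((Nat.mul_le_mul_right _ hce).trans hW3) _
      _ ≤ _ := Nat.pow_le_pow_right (by omega) (by omega)
  exact_mod_cast h2

end Pool.Agent.Y910.F
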