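import Pool.Agent.Y910.F.K5
import Pool.Agent.Y910.F.Core3
import Pool.Agent.Y910.F.F5

/-!
Few points in a class modulo the rational numbers.
-/

open Polynomial IntermediateField

set_option autoImplicit false

namespace Pool.Agent.Y910.F

open Pool.Agent.H322R2 Pool.Agent.Y910.G Pool.Agent.Y910.R Pool.Agent.Y910.E Pool.Agent.Y910.A

theorem frameT (hSG : StSG) (hINT : StINT) (hFLIP : StFLIP) (hIRR : StIRR) (hPL3 : StPL3)
    (hGEN : StGEN) (hEV : StEV) (d : ℕ) (hd : 3 ≤ d) : ∃ M N : ℕ, ∀ (H : ℕ) (g : ℤ[X]) (D : ℚ[X])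
    (s : Finset ℤ), 1 ≤ H → g.natDegree = d → (g.map (Int.castRingHom ℚ)).Separable →
    (∀ i, |g.coeff i| ≤ H) →
    (∀ θ : ℂ, aeval θ g = 0 → IsIntegral ℤ (aeval θ D) ∧ aeval θ D ≠ 0 ∧ ‖aeval θ D‖ ≤ H) →
    (∀ x ∈ s, (2 * H : ℤ) ^ M < |x| ∧ ∃ (b : ℤ) (B : ℚ[X]), b ≠ 0 ∧
      g.map (Int.castRingHom ℚ) ∣ B ^ 2 - C (b : ℚ) * D * (C (x : ℚ) - X)) →
    s.card ≤ N := by
  classical
  obtain ⟨M1, N1, hMN⟩ := monic_few (2 ^ (d - 1)) Nat.one_le_two_pow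
  obtain ⟨i0, hi0⟩ : ∃ i0 : Fin d, i0.1 = 0 := ⟨⟨0, by omega⟩, rfl⟩
  obtain ⟨i1, hi1⟩ : ∃ i1 : Fin d, i1.1 = 1 := ⟨⟨1, by omega⟩, rfl⟩
  obtain ⟨m2, hm2, hcd⟩ := cdata hSG hINT hGEN d hd i0 i1 ⟨hi0, hi1⟩
  refine ⟨m2 * M1, N1, ?_⟩
  intro H g D s hH hdeg hsep hcoef hD hs
  obtain ⟨m, θ, u, F, hθi, hθ0, hθs, hu0, hu2, hgen, hFm, hFd, hFs, hwt, hpn⟩ :=
    hcd H g D hH hdeg hsep hcoef hD
  obtain ⟨G, hGm, hGd, hFG, hdegG⟩ := hEV d (by omega) F (fun i => C (u i) * (X - C (θ i)))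
    (fun i => (natDegree_C_mul_le _ _).trans (natDegree_X_sub_C _).le) hFm hFd hFs
  obtain ⟨hprime, L, _, _, α, β, hev, htr, hgenL, hpl⟩ :=
    singleE hSG hFLIP hIRR hPL3 θ u hθi hu0 F G hFm hFd hFs hFG
  replace hpn := (pn_expand F G hFG).trans hpn
  obtain ⟨T, hT⟩ : ∃ T : ℕ, T = (2 * H) ^ m2 := ⟨_, rfl⟩
  rw [← hT] at hpn
  have hT2 : 2 ≤ T := by
    rw [hT]
    calc 2 ≤ 2 * H := by omega
      _ = (2 * H) ^ 1 := (pow_one _).symm
      _ ≤ _ := Nat.pow_le_pow_right (by omega) hm2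
  rcases hMN T hT2 G hGm hGd hprime (fun j => (hdegG j).trans (Nat.sub_le _ _)) hpn L α β hev htr
    hgenL with h | ⟨A, hA, q, hq1, hq2, hq3, hq4, η, hη⟩
  · have hpt : ∀ x ∈ s, ∃ z : ℤ, ev x z G = 0 := by
      intro x hx
      obtain ⟨b, B, hb, hB⟩ := (hs x hx).2
      obtain ⟨t, ht, z, hzt⟩ := int_pointE d m g hdeg hsep D (fun r hr => (hD r hr).1) b x hb B hB
        θ hθ0 hθs
      refine ⟨z, ?_⟩
      have h3 := root_sum hSG F _ hFs (evalRingHom (x : ℂ)) t (by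
          intro i
          simp only [coe_evalRingHom, eval_mul, eval_C, eval_sub, eval_X]
          rw [ht i, hu2])
      rw [hFG, expand_eq_comp_X_pow, eval₂_comp, eval₂_X_pow, ← hzt, ← evf_eq] at h3
      have h4 : ((ev x z G : ℤ) : ℂ) = 0 := by
        have h5 := map_ev (Int.castRingHom ℂ) x z G
        rw [ev_apply, ev_apply] at h5
        rw [← h3, ev_apply]
        exact h5
      exact_mod_cast h4
    choose! z hz using hpt
    have h1 := h (s.image fun x => (x, z x)) (by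
      intro P hP
      obtain ⟨x, hx, rfl⟩ := Finset.mem_image.1 hP
      refine ⟨hz x hx, ?_⟩
      have h2 := (hs x hx).1
      have h3 : (T : ℤ) ^ M1 = (2 * (H : ℤ)) ^ (m2 * M1) := by
        rw [hT]
        push_cast
        rw [← pow_mul]
      rw [h3]
      exact h2)
    rwa [Finset.card_image_of_injective _ (fun a b hab => (Prod.ext_iff.1 hab).1)] at h1
  · exfalso
    obtain ⟨ρ, hρη, cc, hcc, hroot⟩ := hpl A hA q hq1 hq2 hq3 η hη
    have hηint : IsIntegral ℚ η := ⟨q, hq1, hη⟩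
    have hfd : FiniteDimensional ℚ ℚ⟮η⟯ := IntermediateField.adjoin.finiteDimensional hηint
    have hρint : IsIntegral ℚ ρ := by
      have h3 : IsIntegral ℚ (⟨ρ, hρη⟩ : ℚ⟮η⟯) := IsIntegral.of_finite ℚ _
      exact h3.map (ℚ⟮η⟯).val
    have hflip : ∀ i1 : Fin d, aeval ((∑ i, cc i - 2 * cc i1) ^ 2) (minpoly ℚ ρ) = 0 := by
      intro i1
      have h3 := hroot (fun i => if i = i1 then -1 else 1) (by
        intro i
        by_cases h : i = i1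
        · right; simp [h]
        · left; simp [h])
      have h4 : ∑ i, (((if i = i1 then -1 else 1 : ℤ)) : ℂ) * cc i = ∑ i, cc i - 2 * cc i1 := by
        have h5 : ∀ i, (((if i = i1 then -1 else 1 : ℤ)) : ℂ) * cc i =
            cc i - (if i = i1 then 2 * cc i else 0) := by
          intro i
          split_ifs with h
          · push_cast; ring
          · push_cast; ring
        rw [Finset.sum_congr rfl fun i _ => h5 i, Finset.sum_sub_distrib, Finset.sum_ite_eq']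
        simp
      rw [h4] at h3
      exact h3
    have hfull : aeval ((∑ i, cc i) ^ 2) (minpoly ℚ ρ) = 0 := by
      have h3 := hroot (fun _ => 1) (fun _ => Or.inl rfl)
      simpa using h3
    obtain ⟨hg1, hg2, hg3⟩ := hgen cc hcc
    have h3 : 3 ≤ Module.finrank ℚ ℚ⟮ρ⟯ :=
      three_roots ρ hρint _ _ _ hg1 hg2 hg3 hfull (hflip i0) (hflip i1)
    have hle : ℚ⟮ρ⟯ ≤ ℚ⟮η⟯ := by
      rw [IntermediateField.adjoin_simple_le_iff]
      exact hρη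
    have h4 : Module.finrank ℚ ℚ⟮ρ⟯ ≤ Module.finrank ℚ ℚ⟮η⟯ :=
      LinearMap.finrank_le_finrank_of_injective (f := (IntermediateField.inclusion hle).toLinearMap)
        (IntermediateField.inclusion_injective hle)
    rw [finrank_adj hq1 hq2 hη] at h4
    omega

theorem fewT (hF : ∀ d : ℕ, 3 ≤ d → ∃ M N : ℕ, ∀ (H : ℕ) (g : ℤ[X]) (D : ℚ[X])
    (s : Finset ℤ), 1 ≤ H → g.natDegree = d → (g.map (Int.castRingHom ℚ)).Separable →
    (∀ i, |g.coeff i| ≤ H) →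
    (∀ θ : ℂ, aeval θ g = 0 → IsIntegral ℤ (aeval θ D) ∧ aeval θ D ≠ 0 ∧ ‖aeval θ D‖ ≤ H) →
    (∀ x ∈ s, (2 * H : ℤ) ^ M < |x| ∧ ∃ (b : ℤ) (B : ℚ[X]), b ≠ 0 ∧
      g.map (Int.castRingHom ℚ) ∣ B ^ 2 - C (b : ℚ) * D * (C (x : ℚ) - X)) →
    s.card ≤ N) (hGAP : StGAP2) (d : ℕ) (hd : 3 ≤ d) : ∃ M N : ℕ, ∀ (H : ℕ) (f : ℤ[X]),
    1 ≤ H → f.natDegree = d → (f.map (Int.castRingHom ℚ)).Separable → (∀ i, |f.coeff i| ≤ H) →
    ∀ s : Finset ℤ, (∀ x ∈ s, (2 * H : ℤ) ^ M < |x|) →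
    (∀ x ∈ s, ∀ x' ∈ s, ∃ (b : ℤ) (B : ℚ[X]), b ≠ 0 ∧ f.map (Int.castRingHom ℚ) ∣
      B ^ 2 - C (b : ℚ) * ((C (x : ℚ) - X) * (C (x' : ℚ) - X))) → s.card ≤ N := by
  classical
  obtain ⟨Mf, Nf, hf⟩ := hF d hd
  obtain ⟨Mg, hg⟩ := hGAP d hd
  refine ⟨Mg + 2, Nf + 3 * Mf * 2 ^ d, ?_⟩
  intro H f hH hdeg hsep hcoef s hs hcl
  rcases s.eq_empty_or_nonempty with rfl | hne
  · simp
  obtain ⟨x₀, hx₀, hmin⟩ := Finset.exists_min_image s (fun x => |x|) hne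
  obtain ⟨X₀, hX₀⟩ : ∃ X₀ : ℕ, (X₀ : ℤ) = |x₀| := ⟨x₀.natAbs, Int.natCast_natAbs x₀⟩
  have hH2 : (2 : ℤ) ≤ 2 * H := by
    have : (1 : ℤ) ≤ H := by exact_mod_cast hH
    omega
  have hX1 : (2 * H : ℤ) ^ (Mg + 2) < X₀ := by rw [hX₀]; exact hs x₀ hx₀
  have hX2 : (2 * H : ℤ) ^ 2 < X₀ :=
    lt_of_le_of_lt (pow_le_pow_right₀ (by omega) (by omega)) hX1
  have hX2' : (4 * H ^ 2 : ℤ) < X₀ := by
    calc (4 * H ^ 2 : ℤ) = (2 * H) ^ 2 := by ring
      _ < X₀ := hX2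
  have hHX : (2 * H : ℤ) < X₀ := by
    refine lt_of_le_of_lt ?_ hX2
    nlinarith
  have hX₀2 : (2 : ℤ) ≤ X₀ := by omega
  have hf0 : f ≠ 0 := by
    rintro rfl
    rw [natDegree_zero] at hdeg
    omega
  have hlc : f.leadingCoeff ≠ 0 := leadingCoeff_ne_zero.2 hf0
  -- the large points
  have hbig : (s.filter fun x => (X₀ : ℤ) ^ (3 * Mf) < |x|).card ≤ Nf := by
    apply hf (X₀ ^ 2) f (C ((f.leadingCoeff : ℚ) ^ 2) * (C (x₀ : ℚ) - X))
    · have : 1 ≤ X₀ := by omega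
      exact Nat.one_le_pow _ _ (by omega)
    · exact hdeg
    · exact hsep
    · intro i
      refine (hcoef i).trans ?_
      push_cast
      nlinarith
    · intro θ hθ
      have hθb := root_bound f H hf0 hcoef hH θ hθ
      have h5 : IsIntegral ℤ ((f.leadingCoeff : ℂ) * θ) := by
        have := isIntegral_leadingCoeff_smul f θ hθ
        rwa [zsmul_eq_mul] at this
      have hz : ∀ n : ℤ, IsIntegral ℤ (n : ℂ) := fun n => isIntegral_algebraMap (R := ℤ) (x := n)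
      have he : aeval θ (C ((f.leadingCoeff : ℚ) ^ 2) * (C (x₀ : ℚ) - X)) =
          (f.leadingCoeff : ℂ) ^ 2 * (x₀ - θ) := by
        simp
      have hx0R : ‖(x₀ : ℂ)‖ = (X₀ : ℝ) := by
        rw [Complex.norm_intCast]
        have : ((X₀ : ℤ) : ℝ) = ((|x₀| : ℤ) : ℝ) := by rw [hX₀]
        push_cast at this
        rw [this]
      have hHXR : ((2 * H : ℕ) : ℝ) < X₀ := by
        have : 2 * H < X₀ := by exact_mod_cast hHX
        exact_mod_cast this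
      rw [he]
      refine ⟨?_, ?_, ?_⟩
      · have : (f.leadingCoeff : ℂ) ^ 2 * (x₀ - θ) = ((f.leadingCoeff : ℤ) : ℂ) *
            (((f.leadingCoeff : ℤ) : ℂ) * ((x₀ : ℤ) : ℂ) - (f.leadingCoeff : ℂ) * θ) := by ring
        rw [this]
        exact (hz _).mul (((hz _).mul (hz _)).sub h5)
      · apply mul_ne_zero
        · apply pow_ne_zero
          exact_mod_cast hlc
        · intro h
          have h1 : (x₀ : ℂ) = θ := sub_eq_zero.1 h
          rw [← h1, hx0R] at hθb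
          linarith
      · rw [norm_mul, norm_pow, Complex.norm_intCast]
        have h1 : |(f.leadingCoeff : ℝ)| ≤ H := by exact_mod_cast hcoef f.natDegree
        have h2 : ‖(x₀ : ℂ) - θ‖ ≤ 2 * (X₀ : ℝ) := by
          calc ‖(x₀ : ℂ) - θ‖ ≤ ‖(x₀ : ℂ)‖ + ‖θ‖ := norm_sub_le _ _
            _ ≤ (X₀ : ℝ) + (X₀ : ℝ) := by rw [hx0R]; linarith
            _ = 2 * (X₀ : ℝ) := by ring
        have h3 : (4 * (H : ℝ) ^ 2) < (X₀ : ℝ) := by exact_mod_cast hX2'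
        have h4 : |(f.leadingCoeff : ℝ)| ^ 2 ≤ (H : ℝ) ^ 2 := by gcongr
        have h5 : (0 : ℝ) ≤ (X₀ : ℝ) := by positivity
        calc |(f.leadingCoeff : ℝ)| ^ 2 * ‖(x₀ : ℂ) - θ‖ ≤ (H : ℝ) ^ 2 * (2 * (X₀ : ℝ)) := by
              gcongr
          _ ≤ (X₀ : ℝ) * (X₀ : ℝ) := by nlinarith [sq_nonneg (H : ℝ)]
          _ = ((X₀ ^ 2 : ℕ) : ℝ) := by push_cast; ring
    · intro x hx
      rw [Finset.mem_filter] at hx
      refine ⟨?_, ?_⟩
      · refine lt_of_le_of_lt ?_ hx.2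
        rw [pow_mul]
        apply pow_le_pow_left₀ (by positivity)
        push_cast
        nlinarith
      · obtain ⟨b, B, hb, hB⟩ := hcl x₀ hx₀ x hx.1
        refine ⟨b, C (f.leadingCoeff : ℚ) * B, hb, ?_⟩
        have : (C (f.leadingCoeff : ℚ) * B) ^ 2 - C (b : ℚ) * (C ((f.leadingCoeff : ℚ) ^ 2) *
            (C (x₀ : ℚ) - X)) * (C (x : ℚ) - X) = C ((f.leadingCoeff : ℚ) ^ 2) *
              (B ^ 2 - C (b : ℚ) * ((C (x₀ : ℚ) - X) * (C (x : ℚ) - X))) := by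
          rw [C_pow]
          ring
        rw [this]
        exact Dvd.dvd.mul_left hB _
  -- the windows
  have hwin : ∀ k : ℕ, (s.filter fun x => (X₀ : ℤ) ^ (2 ^ k) ≤ |x| ∧
      |x| < (X₀ : ℤ) ^ (2 ^ (k + 1))).card ≤ 2 ^ d := by
    intro k
    by_contra hc
    rw [not_le] at hc
    obtain ⟨t, ht, htc⟩ := Finset.exists_subset_card_eq (Nat.succ_le_of_lt hc)
    let e := t.equivFinOfCardEq htc
    obtain ⟨a, b, hab, h1⟩ := hg H f hH hdeg hsep hcoef (fun i => ((e.symm i : t) : ℤ))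
      (fun i j h => e.symm.injective (Subtype.ext h))
      (fun i => by
        have h2 := Finset.mem_filter.1 (ht (e.symm i).2)
        exact lt_of_le_of_lt (pow_le_pow_right₀ (by omega) (by omega)) (hs _ h2.1))
      (fun i => hcl _ (Finset.mem_filter.1 (ht (e.symm 0).2)).1 _
        (Finset.mem_filter.1 (ht (e.symm i).2)).1)
    have h2 := (Finset.mem_filter.1 (ht (e.symm a).2)).2.1
    have h3 := (Finset.mem_filter.1 (ht (e.symm b).2)).2.2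
    have h4 : (X₀ : ℤ) ^ (2 ^ (k + 1)) ≤ |((e.symm a : t) : ℤ)| ^ 2 := by
      rw [pow_succ 2 k, pow_mul]
      exact pow_le_pow_left₀ (by positivity) h2 2
    exact absurd (h4.trans h1) (not_le.2 h3)
  have hsub : s ⊆ (s.filter fun x => (X₀ : ℤ) ^ (3 * Mf) < |x|) ∪
      (Finset.range (3 * Mf)).biUnion fun k => s.filter fun x => (X₀ : ℤ) ^ (2 ^ k) ≤ |x| ∧
        |x| < (X₀ : ℤ) ^ (2 ^ (k + 1)) := by
    intro x hx
    rw [Finset.mem_union]
    by_cases h : (X₀ : ℤ) ^ (3 * Mf) < |x|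
    · exact Or.inl (Finset.mem_filter.2 ⟨hx, h⟩)
    · right
      rw [not_lt] at h
      have h1 : |x| < (X₀ : ℤ) ^ (2 ^ (3 * Mf)) :=
        lt_of_le_of_lt h (pow_lt_pow_right₀ (by omega) Nat.lt_two_pow_self)
      obtain ⟨k, hk, h2, h3⟩ := window X₀ |x| (3 * Mf) (by rw [hX₀]; exact hmin x hx) h1
      exact Finset.mem_biUnion.2 ⟨k, Finset.mem_range.2 hk, Finset.mem_filter.2 ⟨hx, h2, h3⟩⟩
  refine (Finset.card_le_card hsub).trans ((Finset.card_union_le _ _).trans ?_)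
  apply Nat.add_le_add hbig
  refine Finset.card_biUnion_le.trans ?_
  calc ∑ k ∈ Finset.range (3 * Mf), (s.filter fun x => (X₀ : ℤ) ^ (2 ^ k) ≤ |x| ∧
        |x| < (X₀ : ℤ) ^ (2 ^ (k + 1))).card ≤ ∑ _k ∈ Finset.range (3 * Mf), 2 ^ d :=
        Finset.sum_le_sum fun k _ => hwin k
    _ = 3 * Mf * 2 ^ d := by simp

end Pool.Agent.Y910.F
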