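import Pool.Agent.Y910.F.Defs

/-!
Project FC, part 4 (classes modulo the rational numbers): statements.
-/

open Polynomial

set_option autoImplicit false

namespace Pool.Agent.Y910.F

/-- StCORE with products of traces. -/
def StCORE2 : Prop :=
  ∀ (Ω : Type) [Field Ω] [CharZero Ω] (V : ValuationSubring Ω) (k : Subfield Ω) (R : Subring Ω),
    (∀ z ∈ k, z ∈ V) → (∀ z ∈ k, z ∈ R) → (∀ z ∈ R, z ∈ V → z ∈ k) →
    ∀ (ι : Type) [Fintype ι] (x x' s s' : Ω) (θ β : ι → Ω), 3 ≤ Fintype.card ι →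
    x ∉ V → s ^ 2 = x → s' ^ 2 = x' → x / x' ∈ V → V.valuation (x' / x ^ 3) < 1 →
    Function.Injective θ → (∀ i, θ i ∈ algebraicClosure k Ω) → (∀ j : ℕ, ∑ i, θ i ^ j ∈ k) →
    (∀ i, β i ^ 2 = (x - θ i) * (x' - θ i)) → (∀ i, V.valuation (β i / (s * s') - 1) < 1) →
    (∀ j l : ℕ, (∑ i, θ i ^ j * β i) * (∑ i, θ i ^ l * β i) ∈ R) → x = x'

/-- Job FG-GAP. -/
def StGAP2 : Prop :=
  ∀ d : ℕ, 3 ≤ d → ∃ M : ℕ, ∀ (H : ℕ) (f : ℤ[X]), 1 ≤ H → f.natDegree = d →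
    (f.map (Int.castRingHom ℚ)).Separable → (∀ i, |f.coeff i| ≤ H) →
    ∀ x : Fin (2 ^ d + 1) → ℤ, Function.Injective x → (∀ a, (2 * H : ℤ) ^ M < |x a|) →
    (∀ a, ∃ (b : ℤ) (B : ℚ[X]), b ≠ 0 ∧
      f.map (Int.castRingHom ℚ) ∣ B ^ 2 - C (b : ℚ) * ((C (x 0 : ℚ) - X) * (C (x a : ℚ) - X))) →
    ∃ a b, a ≠ b ∧ |x a| ^ 2 ≤ |x b|

end Pool.Agent.Y910.F
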